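import Mathlib

/-!
Definitions for the statements on Steiner triple systems.
-/

namespace Pool.Agent.Hhelper49.Core9

variable {V : Type*} [DecidableEq V]

/-- `B` is the set of triples of a Steiner triple system on `V`. -/
def IsSTS (B : Finset (Finset V)) : Prop :=
  (∀ b ∈ B, b.card = 3) ∧ ∀ x y : V, x ≠ y → ∃! b, b ∈ B ∧ x ∈ b ∧ y ∈ b

/-- `B` contains the prism (double triangle): nine distinct points `a, …, i` such that
`abc, adg, cfi, ghi, bef, deh` are triples. -/
def HasPrism (B : Finset (Finset V)) : Prop :=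
  ∃ a b c d e f g h i : V, [a, b, c, d, e, f, g, h, i].Nodup ∧
    ({a, b, c} : Finset V) ∈ B ∧ ({a, d, g} : Finset V) ∈ B ∧ ({c, f, i} : Finset V) ∈ B ∧
    ({g, h, i} : Finset V) ∈ B ∧ ({b, e, f} : Finset V) ∈ B ∧ ({d, e, h} : Finset V) ∈ B

/-- `B` contains a Pasch configuration: six distinct points `a, b, c, x, y, z` such that
`abc, xya, yzb, zxc` are triples. -/
def HasPasch (B : Finset (Finset V)) : Prop :=
  ∃ a b c x y z : V, [a, b, c, x, y, z].Nodup ∧
    ({a, b, c} : Finset V) ∈ B ∧ ({x, y, a} : Finset V) ∈ B ∧ ({y, z, b} : Finset V) ∈ B ∧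
    ({z, x, c} : Finset V) ∈ B

/-- `W` is a subsystem: a triple with two points in `W` is contained in `W`. -/
def IsSubsystem (B : Finset (Finset V)) (W : Finset V) : Prop :=
  ∀ b ∈ B, 2 ≤ (b ∩ W).card → b ⊆ W

/-- `S` is the vertex set of a 2-core on nine vertices contained in `B`: it has nine points and
each of them lies in at least two triples of `B` contained in `S`. -/
def NineCore (B : Finset (Finset V)) (S : Finset V) : Prop :=
  S.card = 9 ∧ ∀ v ∈ S, 2 ≤ (B.filter (fun b => b ⊆ S ∧ v ∈ b)).card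

end Pool.Agent.Hhelper49.Core9
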