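import Mathlib

/-!
Grids and common fixed points: definitions for the statement.
-/

namespace Pool.Agent.Hhelper49.Core9

variable {V : Type*} [DecidableEq V]

/-- `B` contains the grid: nine distinct points `a, …, i` such that the rows `abc`, `def`, `ghi`
and the columns `adg`, `beh`, `cfi` are triples. -/
def HasGrid (B : Finset (Finset V)) : Prop :=
  ∃ a b c d e f g h i : V, [a, b, c, d, e, f, g, h, i].Nodup ∧
    ({a, b, c} : Finset V) ∈ B ∧ ({d, e, f} : Finset V) ∈ B ∧ ({g, h, i} : Finset V) ∈ B ∧
    ({a, d, g} : Finset V) ∈ B ∧ ({b, e, h} : Finset V) ∈ B ∧ ({c, f, i} : Finset V) ∈ B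

/-- The set of points fixed by all elements of the permutation group `Δ`. -/
def commonFixed (Δ : Subgroup (Equiv.Perm V)) : Set V := {x | ∀ σ ∈ Δ, σ x = x}

end Pool.Agent.Hhelper49.Core9
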