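import Mathlib

/-!
Steiner quasigroups and prisms: local lemmas.
-/

namespace Pool.Agent.Hhelper49.Core9

/-- A Steiner quasigroup operation. -/
structure SQ {V : Type*} (m : V → V → V) : Prop where
  comm : ∀ x y, m x y = m y x
  idem : ∀ x, m x x = x
  inv : ∀ x y, m x (m x y) = y

/-- No two disjoint triangles with the same three outer points. -/
def NoPrism {V : Type*} (m : V → V → V) : Prop :=
  ∀ a b c x y z x' y' z' : V, m x y = a → m y z = b → m z x = c →
    m x' y' = a → m y' z' = b → m z' x' = c →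
    ¬ [a, b, c, x, y, z, x', y', z'].Nodup

namespace SQ

variable {V : Type*} {m : V → V → V}

theorem inv' (h : SQ m) (x y : V) : m (m x y) y = x := by
  rw [h.comm (m x y) y, h.comm x y, h.inv]

theorem inv'' (h : SQ m) (x y : V) : m (m x y) x = y := by
  rw [h.comm (m x y) x, h.inv]

theorem cancel (h : SQ m) {x y z : V} (e : m x y = m x z) : y = z := by
  rw [← h.inv x y, e, h.inv]

theorem cancel' (h : SQ m) {x y z : V} (e : m y x = m z x) : y = z := by
  rw [h.comm y x, h.comm z x] at e
  exact h.cancel e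

theorem eq_left (h : SQ m) {x y : V} (e : m x y = x) : x = y := by
  have := h.inv x y
  rw [e, h.idem] at this
  exact this

theorem eq_right (h : SQ m) {x y : V} (e : m x y = y) : x = y := by
  rw [h.comm] at e
  exact (h.eq_left e).symm

/-- `m x y = z` gives `m x z = y`. -/
theorem swap (h : SQ m) {x y z : V} (e : m x y = z) : m x z = y := by
  rw [← e, h.inv]

/-- `m x y = z` gives `m y z = x`. -/
theorem rot (h : SQ m) {x y z : V} (e : m x y = z) : m y z = x := by
  rw [← e, h.comm x y, h.inv]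

/-- The six points of a nondegenerate triangle are distinct. -/
theorem six (h : SQ m) {a b c x y z : V} (e1 : m x y = a) (e2 : m y z = b) (e3 : m z x = c)
    (hab : a ≠ b) (hbc : b ≠ c) (hac : a ≠ c) (hxb : x ≠ b) :
    a ≠ x ∧ a ≠ y ∧ a ≠ z ∧ b ≠ x ∧ b ≠ y ∧ b ≠ z ∧ c ≠ x ∧ c ≠ y ∧ c ≠ z ∧
      x ≠ y ∧ y ≠ z ∧ z ≠ x := by
  have hxy : x ≠ y := by
    rintro rfl
    apply hbc
    rw [← e2, ← e3, h.comm]
  have hyz : y ≠ z := by
    rintro rfl
    apply hac
    rw [← e1, ← e3, h.comm]
  have hzx : z ≠ x := by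
    rintro rfl
    apply hab
    rw [← e1, ← e2, h.comm]
  have hza : a ≠ z := by
    rintro rfl
    apply hxb
    rw [← e2, ← e1, h.comm x y, h.inv]
  have hcy : c ≠ y := by
    rintro rfl
    apply hza
    rw [← e1, h.comm, ← e3, h.inv']
  refine ⟨?_, ?_, hza, hxb.symm, ?_, ?_, ?_, hcy, ?_, hxy, hyz, hzx⟩
  · intro e; exact hxy (h.eq_left (e1.trans e))
  · intro e; exact hxy (h.eq_right (e1.trans e))
  · intro e; exact hyz (h.eq_left (e2.trans e))
  · intro e; exact hyz (h.eq_right (e2.trans e))
  · intro e; exact hzx (h.eq_right (e3.trans e))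
  · intro e; exact hzx (h.eq_left (e3.trans e))

/-- Two nondegenerate triangles with the same outer points share two vertices. -/
theorem tri (h : SQ m) (hp : NoPrism m) {a b c x x' : V} (hab : a ≠ b) (hbc : b ≠ c) (hac : a ≠ c)
    (hx : m c (m b (m a x)) = x) (hx' : m c (m b (m a x')) = x') (hxb : x ≠ b) (hxb' : x' ≠ b)
    (hne : x ≠ x') : x' = m a x ∨ x' = m c x ∨ x' = m a (m c x) := by
  by_contra hcon
  push Not at hcon
  obtain ⟨h1, h2, h3⟩ := hcon
  -- vertices
  set y := m a x with hy
  set z := m b y with hz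
  set y' := m a x' with hy'
  set z' := m b y' with hz'
  have e1 : m x y = a := h.rot hy.symm
  have e2 : m y z = b := h.rot hz.symm
  have e3 : m z x = c := h.rot hx
  have e1' : m x' y' = a := h.rot hy'.symm
  have e2' : m y' z' = b := h.rot hz'.symm
  have e3' : m z' x' = c := h.rot hx'
  obtain ⟨q1, q2, q3, q4, q5, q6, q7, q8, q9, q10, q11, q12⟩ := h.six e1 e2 e3 hab hbc hac hxb
  obtain ⟨r1, r2, r3, r4, r5, r6, r7, r8, r9, r10, r11, r12⟩ := h.six e1' e2' e3' hab hbc hac hxb'
  have hzc : z = m c x := (h.swap hx).symm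
  have hzc' : z' = m c x' := (h.swap hx').symm
  have s1 : x ≠ y' := by
    intro e
    apply h1
    rw [hy, e, hy', h.inv]
  have s2 : x ≠ z' := by
    intro e
    apply h2
    rw [e, hzc', h.inv]
  have s3 : y ≠ x' := fun e => h1 e.symm
  have s4 : y ≠ y' := by
    intro e
    exact hne (h.cancel (e : m a x = m a x'))
  have s5 : y ≠ z' := by
    intro e
    apply h3
    have : y' = z := by rw [hz, e, hz', h.inv]
    rw [← hzc, ← this, hy', h.inv]
  have s6 : z ≠ x' := by
    intro e
    exact h2 (by rw [← e, hzc])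
  have s7 : z ≠ y' := by
    intro e
    apply h3
    rw [← hzc, e, hy', h.inv]
  have s8 : z ≠ z' := by
    intro e
    rw [hzc, hzc'] at e
    exact hne (h.cancel e)
  apply hp a b c x y z x' y' z' e1 e2 e3 e1' e2' e3'
  simp only [List.nodup_cons, List.mem_cons, List.not_mem_nil, or_false, not_or,
    List.nodup_nil, not_false_eq_true, and_true]
  exact ⟨⟨hab, hac, q1, q2, q3, r1, r2, r3⟩, ⟨hbc, q4, q5, q6, r4, r5, r6⟩,
    ⟨q7, q8, q9, r7, r8, r9⟩, ⟨q10, q12.symm, hne, s1, s2⟩, ⟨q11, s3, s4, s5⟩,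
    ⟨s6, s7, s8⟩, ⟨r10, r12.symm⟩, r11⟩

/-- In case of a noncollinear opposite pair of diagonal points, there are at most two
nondegenerate fixed points. -/
theorem tri_nc (h : SQ m) (hp : NoPrism m) {a b x : V} (hab : a ≠ b)
    (hx : m (m a b) (m b (m a x)) = x) (hxb : x ≠ b)
    (hn : m x b ≠ m a (m x (m a b))) :
    ∃ x₁, ∀ x', m (m a b) (m b (m a x')) = x' → x' ≠ b → x' = x ∨ x' = x₁ := by
  have hbc : b ≠ m a b := fun e => hab (h.eq_right e.symm)
  have hac : a ≠ m a b := fun e => hab (h.eq_left e.symm)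
  set c := m a b with hc
  have key : ¬ (m c (m b (m a (m a x))) = m a x ∧ m c (m b (m a (m a (m c x)))) = m a (m c x)) := by
    rintro ⟨k1, k2⟩
    rw [h.inv] at k1 k2
    apply hn
    -- z = m c x = m b (m a x)
    have hz : m c x = m b (m a x) := h.swap hx
    rw [hz, h.inv] at k2
    -- k2 : m c (m a x) = m a (m b (m a x)) ; k1 : m c (m b x) = m a x
    have k1' := h.swap k1
    rw [k1', ← hz, h.comm c x] at k2
    rw [h.comm x b]
    exact k2
  have key2 : m c (m b (m a (m c x))) ≠ m c x := by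
    intro k
    apply hn
    have k' := h.cancel k
    -- m b (m a (m c x)) = x
    have k'' := h.swap k'
    rw [h.comm x b, k'', h.comm c x]
  by_cases h1 : m c (m b (m a (m a x))) = m a x
  · refine ⟨m a x, ?_⟩
    intro x' hx' hxb'
    by_cases hne : x = x'
    · exact Or.inl hne.symm
    · rcases h.tri hp hab hbc hac hx hx' hxb hxb' hne with e | e | e
      · exact Or.inr e
      · exfalso; apply key2; rw [e] at hx'; exact hx'
      · exfalso
        apply key
        refine ⟨h1, ?_⟩
        rw [e] at hx'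
        exact hx'
  · refine ⟨m a (m c x), ?_⟩
    intro x' hx' hxb'
    by_cases hne : x = x'
    · exact Or.inl hne.symm
    · rcases h.tri hp hab hbc hac hx hx' hxb hxb' hne with e | e | e
      · exfalso; apply h1; rw [e] at hx'; exact hx'
      · exfalso; apply key2; rw [e] at hx'; exact hx'
      · exact Or.inr e

end SQ

end Pool.Agent.Hhelper49.Core9
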