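import Mathlib
import Pool.Agent.Hhelper49.Core9.Basic

/-!
From Steiner triple systems to Steiner quasigroups.
-/

namespace Pool.Agent.Hhelper49.Core9

variable {V : Type*} [DecidableEq V]

theorem third_exists (B : Finset (Finset V)) (h3 : ∀ b ∈ B, b.card = 3)
    (hB : ∀ x y : V, x ≠ y → ∃! b, b ∈ B ∧ x ∈ b ∧ y ∈ b) (x y : V) (hxy : x ≠ y) :
    ∃ z, z ≠ x ∧ z ≠ y ∧ ({x, y, z} : Finset V) ∈ B := by
  obtain ⟨b, ⟨hb, hx, hy⟩, _⟩ := hB x y hxy
  have hcard := h3 b hb
  have hsub : ({x, y} : Finset V) ⊆ b := by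
    intro u hu
    simp only [Finset.mem_insert, Finset.mem_singleton] at hu
    rcases hu with rfl | rfl <;> assumption
  have c2 : ({x, y} : Finset V).card = 2 := Finset.card_pair hxy
  have c1 : (b \ {x, y}).card = 1 := by
    rw [Finset.card_sdiff_of_subset hsub, hcard, c2]
  obtain ⟨z, hz⟩ := Finset.card_eq_one.1 c1
  have hzm : z ∈ b \ {x, y} := by rw [hz]; simp
  rw [Finset.mem_sdiff] at hzm
  have hz2 := hzm.2
  simp only [Finset.mem_insert, Finset.mem_singleton, not_or] at hz2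
  refine ⟨z, hz2.1, hz2.2, ?_⟩
  have : ({x, y, z} : Finset V) = b := by
    have e1 : b = (b \ {x, y}) ∪ {x, y} := (Finset.sdiff_union_of_subset hsub).symm
    rw [e1, hz]
    ext u
    simp only [Finset.mem_insert, Finset.mem_singleton, Finset.mem_union]
    tauto
  rw [this]
  exact hb

theorem third_unique (B : Finset (Finset V))
    (hB : ∀ x y : V, x ≠ y → ∃! b, b ∈ B ∧ x ∈ b ∧ y ∈ b) {x y z z' : V} (hxy : x ≠ y)
    (hz : z ≠ x) (hz2 : z ≠ y) (h1 : ({x, y, z} : Finset V) ∈ B)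
    (h2 : ({x, y, z'} : Finset V) ∈ B) : z = z' := by
  obtain ⟨b, _, hu⟩ := hB x y hxy
  have e1 := hu _ ⟨h1, by simp, by simp⟩
  have e2 := hu _ ⟨h2, by simp, by simp⟩
  have : z ∈ ({x, y, z'} : Finset V) := by
    rw [e2, ← e1]; simp
  simp only [Finset.mem_insert, Finset.mem_singleton] at this
  tauto

/-- Every Steiner triple system is described by a Steiner quasigroup. -/
theorem exists_op (B : Finset (Finset V)) (h3 : ∀ b ∈ B, b.card = 3)
    (hB : ∀ x y : V, x ≠ y → ∃! b, b ∈ B ∧ x ∈ b ∧ y ∈ b) :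
    ∃ m : V → V → V, SQ m ∧
      (∀ x y, x ≠ y → m x y ≠ x ∧ m x y ≠ y ∧ ({x, y, m x y} : Finset V) ∈ B) ∧
      (∀ x y z, x ≠ y → z ≠ x → z ≠ y → ({x, y, z} : Finset V) ∈ B → m x y = z) := by
  have hex : ∀ x y : V, ∃ z, (x = y → z = x) ∧
      (x ≠ y → z ≠ x ∧ z ≠ y ∧ ({x, y, z} : Finset V) ∈ B) := by
    intro x y
    by_cases hxy : x = y
    · exact ⟨x, fun _ => rfl, fun h => absurd hxy h⟩
    · obtain ⟨z, hz⟩ := third_exists B h3 hB x y hxy
      exact ⟨z, fun h => absurd h hxy, fun _ => hz⟩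
  choose m hm1 hm2 using hex
  have huniq : ∀ x y z, x ≠ y → z ≠ x → z ≠ y → ({x, y, z} : Finset V) ∈ B → m x y = z := by
    intro x y z hxy hzx hzy hz
    exact (third_unique B hB hxy hzx hzy hz (hm2 x y hxy).2.2).symm
  refine ⟨m, ⟨?_, ?_, ?_⟩, hm2, huniq⟩
  · intro x y
    by_cases hxy : x = y
    · rw [hxy]
    · obtain ⟨h1, h2, h4⟩ := hm2 y x (Ne.symm hxy)
      apply huniq x y _ hxy h2 h1
      rwa [Finset.insert_comm] at h4
  · intro x
    exact hm1 x x rfl
  · intro x y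
    by_cases hxy : x = y
    · subst hxy
      rw [hm1 x x rfl, hm1 x x rfl]
    · obtain ⟨h1, h2, h4⟩ := hm2 x y hxy
      apply huniq x (m x y) y (Ne.symm h1) (Ne.symm hxy) (Ne.symm h2)
      have : ({x, m x y, y} : Finset V) = {x, y, m x y} := by
        ext u
        simp only [Finset.mem_insert, Finset.mem_singleton]
        tauto
      rw [this]
      exact h4

end Pool.Agent.Hhelper49.Core9
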