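import Mathlib
import Pool.Agent.Hhelper49.Core9.Defs
import Pool.Agent.Hhelper49.Core9.Sts

/-!
Prisms in terms of the quasigroup.
-/

namespace Pool.Agent.Hhelper49.Core9

variable {V : Type*} [DecidableEq V]

/-- Quasigroup of an STS, packaged. -/
structure OpOf (B : Finset (Finset V)) (m : V → V → V) : Prop where
  sq : SQ m
  mem : ∀ x y, x ≠ y → m x y ≠ x ∧ m x y ≠ y ∧ ({x, y, m x y} : Finset V) ∈ B
  uniq : ∀ x y z, x ≠ y → z ≠ x → z ≠ y → ({x, y, z} : Finset V) ∈ B → m x y = z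

theorem IsSTS.exists_op {B : Finset (Finset V)} (h : IsSTS B) : ∃ m, OpOf B m := by
  obtain ⟨m, h1, h2, h3⟩ := Core9.exists_op B h.1 h.2
  exact ⟨m, h1, h2, h3⟩

theorem OpOf.noPrism {B : Finset (Finset V)} {m : V → V → V} (h : OpOf B m)
    (hn : ¬ HasPrism B) : NoPrism m := by
  intro a b c x y z x' y' z' e1 e2 e3 e1' e2' e3' hnd
  apply hn
  have hnd' := hnd
  simp only [List.nodup_cons, List.mem_cons, List.not_mem_nil, or_false, not_or,
    List.nodup_nil, not_false_eq_true, and_true] at hnd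
  obtain ⟨⟨n1, n2, n3, n4, n5, n6, n7, n8⟩, ⟨m1, m2, m3, m4, m5, m6, m7⟩,
    ⟨o1, o2, o3, o4, o5, o6⟩, ⟨p1, p2, p3, p4, p5⟩, ⟨q1, q2, q3, q4⟩, ⟨r1, r2, r3⟩,
    ⟨s1, s2⟩, t1⟩ := hnd
  -- a, b(=x), c(=y), d(=x'), e(=c), f(=z), g(=y'), h(=z'), i(=b)
  refine ⟨a, x, y, x', c, z, y', z', b, ?_, ?_, ?_, ?_, ?_, ?_, ?_⟩
  · simp only [List.nodup_cons, List.mem_cons, List.not_mem_nil, or_false, not_or,
      List.nodup_nil, not_false_eq_true, and_true]
    refine ⟨⟨n3, n4, n6, n2, n5, n7, n8, n1⟩, ⟨p1, p3, Ne.symm o1, p2, p4, p5, Ne.symm m2⟩,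
      ⟨q2, Ne.symm o2, q1, q3, q4, Ne.symm m3⟩, ⟨Ne.symm o4, Ne.symm r1, s1, s2, Ne.symm m5⟩,
      ⟨o3, o5, o6, Ne.symm m1⟩, ⟨r2, r3, Ne.symm m4⟩, ⟨t1, Ne.symm m6⟩, Ne.symm m7⟩
  · have := (h.mem x y p1).2.2
    rw [e1] at this
    have e : ({a, x, y} : Finset V) = {x, y, a} := by
      ext u; simp only [Finset.mem_insert, Finset.mem_singleton]; tauto
    rw [e]; exact this
  · have := (h.mem x' y' s1).2.2
    rw [e1'] at this
    have e : ({a, x', y'} : Finset V) = {x', y', a} := by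
      ext u; simp only [Finset.mem_insert, Finset.mem_singleton]; tauto
    rw [e]; exact this
  · have := (h.mem y z q1).2.2
    rw [e2] at this
    exact this
  · have := (h.mem y' z' t1).2.2
    rw [e2'] at this
    exact this
  · have := (h.mem z x (Ne.symm p2)).2.2
    rw [e3] at this
    have e : ({x, c, z} : Finset V) = {z, x, c} := by
      ext u; simp only [Finset.mem_insert, Finset.mem_singleton]; tauto
    rw [e]; exact this
  · have := (h.mem z' x' (Ne.symm s2)).2.2
    rw [e3'] at this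
    have e : ({x', c, z'} : Finset V) = {z', x', c} := by
      ext u; simp only [Finset.mem_insert, Finset.mem_singleton]; tauto
    rw [e]; exact this

theorem OpOf.closed {B : Finset (Finset V)} {m : V → V → V} (h : OpOf B m) {W : Finset V}
    (hW : IsSubsystem B W) : ∀ a ∈ W, ∀ b ∈ W, m a b ∈ W := by
  intro a ha b hb
  by_cases hab : a = b
  · subst hab
    rw [h.sq.idem]
    exact ha
  · have h1 := (h.mem a b hab).2.2
    have : ({a, b, m a b} : Finset V) ⊆ W := by
      apply hW _ h1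
      have hsub : ({a, b} : Finset V) ⊆ ({a, b, m a b} : Finset V) ∩ W := by
        intro u hu
        simp only [Finset.mem_insert, Finset.mem_singleton] at hu
        rcases hu with rfl | rfl <;> simp [ha, hb]
      calc 2 = ({a, b} : Finset V).card := (Finset.card_pair hab).symm
        _ ≤ _ := Finset.card_le_card hsub
    apply this
    simp

end Pool.Agent.Hhelper49.Core9
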