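import Mathlib
import Pool.Agent.Hhelper49.Core9.Basic

/-!
An involutory automorphism with at most three fixed points forces a grid.
-/

namespace Pool.Agent.Hhelper49.Core9

open Finset

/-- A grid in a Steiner quasigroup. -/
def OpGrid {V : Type*} (m : V → V → V) : Prop :=
  ∃ a b c d e f g h i : V, [a, b, c, d, e, f, g, h, i].Nodup ∧
    m a b = c ∧ m d e = f ∧ m g h = i ∧ m a d = g ∧ m b e = h ∧ m c f = i

/-- The third point of the line through `x` and its image. -/
def rr {V : Type*} (m : V → V → V) (β : V → V) (x : V) : V := m x (β x)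

/-- An involutory automorphism of a Steiner quasigroup. -/
structure IA {V : Type*} (m : V → V → V) (β : V → V) : Prop where
  sq : SQ m
  inv : ∀ x, β (β x) = x
  hom : ∀ x y, β (m x y) = m (β x) (β y)

namespace IA

variable {V : Type*} {m : V → V → V} {β : V → V}

theorem fix_rr (h : IA m β) (x : V) : β (rr m β x) = rr m β x := by
  unfold rr
  rw [h.hom, h.inv, h.sq.comm]

theorem rr_beta (h : IA m β) (x : V) : rr m β (β x) = rr m β x := by
  unfold rr
  rw [h.inv, h.sq.comm]

theorem inj (h : IA m β) {x y : V} (e : β x = β y) : x = y := by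
  rw [← h.inv x, e, h.inv]

theorem flip (h : IA m β) {x y : V} (e : β x = y) : x = β y := by
  rw [← e, h.inv]

theorem ne_beta (h : IA m β) {x : V} (hx : β x ≠ x) : β (β x) ≠ β x := by
  rw [h.inv]
  exact Ne.symm hx

theorem ne_of_fix {x y : V} (hx : β x = x) (hy : β y ≠ y) : x ≠ y := by
  intro e
  rw [e] at hx
  exact hy hx

/-- Type IV. -/
theorem four (h : IA m β) (hG : ¬ OpGrid m) {p q : V} (hp : β p ≠ p) (hq : β q ≠ q)
    (h1 : q ≠ p) (h2 : q ≠ β p) (hz : β (m p q) ≠ m p q)
    (hy : β (m p (β q)) ≠ m p (β q)) : rr m β (m p q) ≠ rr m β (m p (β q)) := by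
  intro e
  apply hG
  have hzb : β (m p q) = m (β p) (β q) := h.hom p q
  have hyb : β (m p (β q)) = m (β p) q := by rw [h.hom, h.inv]
  have hfa : β (rr m β (m p q)) = rr m β (m p q) := h.fix_rr _
  have hpβ := h.ne_beta hp
  have hqβ := h.ne_beta hq
  have hzβ := h.ne_beta hz
  have hyβ := h.ne_beta hy
  have h2' : p ≠ β q := by
    intro e'; apply h2; rw [e', h.inv]
  have yz : m p (β q) ≠ m p q := fun e' => hq (h.sq.cancel e')
  have yp : m p (β q) ≠ p := fun e' => h2' (h.sq.eq_left e')
  have yq : m p (β q) ≠ q := by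
    intro e'
    have e2 : m q (β q) = p := by rw [h.sq.comm]; exact h.sq.rot e'
    have e3 := h.fix_rr q
    unfold rr at e3
    rw [e2] at e3
    exact hp e3
  have yβz : m p (β q) ≠ β (m p q) := by
    rw [hzb]
    intro e'
    exact hp (h.sq.cancel' e').symm
  have yβq : m p (β q) ≠ β q := fun e' => h2' (h.sq.eq_right e')
  have yβp : m p (β q) ≠ β p := by
    intro e'
    have e2 : m p (β p) = β q := h.sq.swap e'
    have e3 := h.fix_rr p
    unfold rr at e3
    rw [e2] at e3
    exact hqβ e3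
  have zp : m p q ≠ p := fun e' => h1 (h.sq.eq_left e').symm
  have zq : m p q ≠ q := fun e' => h1 (h.sq.eq_right e').symm
  have zβq : m p q ≠ β q := by
    intro e'
    have e2 : m q (β q) = p := h.sq.rot e'
    have e3 := h.fix_rr q
    unfold rr at e3
    rw [e2] at e3
    exact hp e3
  have zβp : m p q ≠ β p := by
    intro e'
    have e2 : m p (β p) = q := h.sq.swap e'
    have e3 := h.fix_rr p
    unfold rr at e3
    rw [e2] at e3
    exact hq e3
  have βyz : β (m p (β q)) ≠ m p q := fun e' => yβz (h.flip e')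
  have βyp : β (m p (β q)) ≠ p := fun e' => yβp (h.flip e')
  have βyq : β (m p (β q)) ≠ q := fun e' => yβq (h.flip e')
  have βyβz : β (m p (β q)) ≠ β (m p q) := fun e' => yz (h.inj e')
  have βyβq : β (m p (β q)) ≠ β q := fun e' => yq (h.inj e')
  have βyβp : β (m p (β q)) ≠ β p := fun e' => yp (h.inj e')
  have pβz : p ≠ β (m p q) := fun e' => zβp (h.flip e'.symm)
  have qβz : q ≠ β (m p q) := fun e' => zβq (h.flip e'.symm)
  have βzβq : β (m p q) ≠ β q := fun e' => zq (h.inj e')
  have βzβp : β (m p q) ≠ β p := fun e' => zp (h.inj e')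
  have βqβp : β q ≠ β p := fun e' => h1 (h.inj e')
  refine ⟨rr m β (m p q), m p (β q), β (m p (β q)), m p q, p, q, β (m p q), β q, β p,
    ?_, ?_, ?_, ?_, ?_, ?_, ?_⟩
  · simp only [List.nodup_cons, List.mem_cons, List.not_mem_nil, or_false, not_or,
      List.nodup_nil, not_false_eq_true, and_true]
    refine ⟨⟨ne_of_fix hfa hy, ne_of_fix hfa hyβ, ne_of_fix hfa hz, ne_of_fix hfa hp,
      ne_of_fix hfa hq, ne_of_fix hfa hzβ, ne_of_fix hfa hqβ, ne_of_fix hfa hpβ⟩,
      ⟨Ne.symm hy, yz, yp, yq, yβz, yβq, yβp⟩,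
      ⟨βyz, βyp, βyq, βyβz, βyβq, βyβp⟩,
      ⟨zp, zq, Ne.symm hz, zβq, zβp⟩,
      ⟨Ne.symm h1, pβz, h2', Ne.symm hp⟩,
      ⟨qβz, Ne.symm hq, h2⟩,
      ⟨βzβq, βzβp⟩, βqβp⟩
  · rw [e]
    unfold rr
    exact h.sq.inv'' _ _
  · exact h.sq.inv'' _ _
  · rw [hzb]
    exact h.sq.inv' _ _
  · unfold rr
    exact h.sq.inv'' _ _
  · exact h.sq.inv'' _ _
  · rw [hyb]
    exact h.sq.inv' _ _

/-- Type II. -/
theorem two (h : IA m β) (hG : ¬ OpGrid m) {x y : V} (hx : β x ≠ x) (hy : β y ≠ y)
    (hxy : x ≠ y) (hz : β (m x y) ≠ m x y) (hr : rr m β x ≠ rr m β y) :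
    rr m β (m x y) ≠ m (rr m β x) (rr m β y) := by
  intro e
  apply hG
  have hzb : β (m x y) = m (β x) (β y) := h.hom x y
  have hxβ := h.ne_beta hx
  have hyβ := h.ne_beta hy
  have hzβ := h.ne_beta hz
  have fx := h.fix_rr x
  have fy := h.fix_rr y
  have fz := h.fix_rr (m x y)
  have zx : m x y ≠ x := fun e' => hxy (h.sq.eq_left e')
  have zy : m x y ≠ y := fun e' => hxy (h.sq.eq_right e')
  have xβy : x ≠ β y := by
    intro e'
    apply hz
    have : m x y = rr m β y := by
      unfold rr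
      rw [e', h.sq.comm]
    rw [this, fy]
  have yβx : y ≠ β x := by
    intro e'
    apply xβy
    rw [e', h.inv]
  have zβx : m x y ≠ β x := by
    intro e'
    have e2 : m x (β x) = y := h.sq.swap e'
    unfold rr at fx
    rw [e2] at fx
    exact hy fx
  have zβy : m x y ≠ β y := by
    intro e'
    have e2 : m y (β y) = x := h.sq.rot e'
    unfold rr at fy
    rw [e2] at fy
    exact hx fy
  have xβz : x ≠ β (m x y) := fun e' => zβx (h.flip e'.symm)
  have yβz : y ≠ β (m x y) := fun e' => zβy (h.flip e'.symm)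
  have βxβz : β x ≠ β (m x y) := fun e' => zx (h.inj e').symm
  have βyβz : β y ≠ β (m x y) := fun e' => zy (h.inj e').symm
  have βxβy : β x ≠ β y := fun e' => hxy (h.inj e')
  have rxz : rr m β x ≠ rr m β (m x y) := by
    rw [e]
    intro e'
    exact hr (h.sq.eq_left e'.symm)
  have ryz : rr m β y ≠ rr m β (m x y) := by
    rw [e]
    intro e'
    exact hr (h.sq.eq_right e'.symm)
  refine ⟨x, y, m x y, β x, β y, β (m x y), rr m β x, rr m β y, rr m β (m x y),
    ?_, rfl, hzb.symm, e.symm, rfl, rfl, rfl⟩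
  simp only [List.nodup_cons, List.mem_cons, List.not_mem_nil, or_false, not_or,
    List.nodup_nil, not_false_eq_true, and_true]
  refine ⟨⟨hxy, Ne.symm zx, Ne.symm hx, xβy, xβz, (ne_of_fix fx hx).symm,
      (ne_of_fix fy hx).symm, (ne_of_fix fz hx).symm⟩,
    ⟨Ne.symm zy, yβx, Ne.symm hy, yβz, (ne_of_fix fx hy).symm,
      (ne_of_fix fy hy).symm, (ne_of_fix fz hy).symm⟩,
    ⟨zβx, zβy, Ne.symm hz, (ne_of_fix fx hz).symm,
      (ne_of_fix fy hz).symm, (ne_of_fix fz hz).symm⟩,
    ⟨βxβy, βxβz, (ne_of_fix fx hxβ).symm,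
      (ne_of_fix fy hxβ).symm, (ne_of_fix fz hxβ).symm⟩,
    ⟨βyβz, (ne_of_fix fx hyβ).symm,
      (ne_of_fix fy hyβ).symm, (ne_of_fix fz hyβ).symm⟩,
    ⟨(ne_of_fix fx hzβ).symm, (ne_of_fix fy hzβ).symm, (ne_of_fix fz hzβ).symm⟩,
    ⟨hr, rxz⟩, ryz⟩

section Count

variable [Fintype V] [DecidableEq V]

/-- Points outside the fixed set of colour `c`. -/
def NN (m : V → V → V) (β : V → V) (c : V) : Finset V :=
  univ.filter fun q => β q ≠ q ∧ rr m β q = c

/-- Points `q` of colour `c` such that `m p q` is outside the fixed set and has colour `d`. -/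
def KK (m : V → V → V) (β : V → V) (p c d : V) : Finset V :=
  univ.filter fun q => β q ≠ q ∧ rr m β q = c ∧ β (m p q) ≠ m p q ∧ rr m β (m p q) = d

theorem mem_NN {c q : V} : q ∈ NN m β c ↔ β q ≠ q ∧ rr m β q = c := by
  simp [NN]

theorem mem_KK {p c d q : V} : q ∈ KK m β p c d ↔
    β q ≠ q ∧ rr m β q = c ∧ β (m p q) ≠ m p q ∧ rr m β (m p q) = d := by
  simp [KK]

theorem KK_swap (h : IA m β) (p c d : V) : (KK m β p c d).card = (KK m β p d c).card := by
  apply Finset.card_bij (fun q _ => m p q)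
  · intro q hq
    rw [mem_KK] at hq ⊢
    obtain ⟨h1, h2, h3, h4⟩ := hq
    rw [h.sq.inv]
    exact ⟨h3, h4, h1, h2⟩
  · intro q _ q' _ e
    exact h.sq.cancel e
  · intro q hq
    refine ⟨m p q, ?_, h.sq.inv _ _⟩
    rw [mem_KK] at hq ⊢
    obtain ⟨h1, h2, h3, h4⟩ := hq
    rw [h.sq.inv]
    exact ⟨h3, h4, h1, h2⟩

theorem bound1 (h : IA m β) (hG : ¬ OpGrid m) {p s t : V} (hp : β p ≠ p)
    (hs : rr m β p = s) (hst : s ≠ t) : 2 * (KK m β p t s).card + 2 ≤ (NN m β s).card := by
  rw [h.KK_swap p t s]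
  have n1 : p ∉ KK m β p s t := by
    rw [mem_KK, h.sq.idem]
    rintro ⟨_, _, _, h4⟩
    exact hst (hs.symm.trans h4)
  have n2 : β p ∉ KK m β p s t := by
    rw [mem_KK]
    rintro ⟨_, _, h3, _⟩
    exact h3 (h.fix_rr p)
  have n3 : p ∉ (KK m β p s t).image β := by
    rw [Finset.mem_image]
    rintro ⟨q, hq, e⟩
    apply n2
    rw [← h.flip e]
    exact hq
  have n4 : β p ∉ (KK m β p s t).image β := by
    rw [Finset.mem_image]
    rintro ⟨q, hq, e⟩
    apply n1
    rw [h.inj e] at hq
    exact hq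
  have d1 : Disjoint (KK m β p s t) ((KK m β p s t).image β) := by
    rw [Finset.disjoint_left]
    intro q hq hq'
    rw [Finset.mem_image] at hq'
    obtain ⟨q', hq', e⟩ := hq'
    have e' : q' = β q := h.flip e
    have hq0 := hq
    rw [e'] at hq'
    have hqp : q ≠ p := fun e => n1 (e ▸ hq)
    have hqp' : q ≠ β p := fun e => n2 (e ▸ hq)
    rw [mem_KK] at hq hq'
    exact h.four hG hp hq.1 hqp hqp' hq.2.2.1 hq'.2.2.1 (hq.2.2.2.trans hq'.2.2.2.symm)
  have d2 : Disjoint (KK m β p s t ∪ (KK m β p s t).image β) {p, β p} := by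
    rw [Finset.disjoint_right]
    intro x hx
    rw [Finset.mem_insert, Finset.mem_singleton] at hx
    rw [Finset.mem_union]
    rcases hx with rfl | rfl
    · rintro (h1 | h1)
      · exact n1 h1
      · exact n3 h1
    · rintro (h1 | h1)
      · exact n2 h1
      · exact n4 h1
  have sub : (KK m β p s t ∪ (KK m β p s t).image β) ∪ {p, β p} ⊆ NN m β s := by
    intro x hx
    rw [Finset.mem_union, Finset.mem_union, Finset.mem_insert, Finset.mem_singleton] at hx
    rw [mem_NN]
    rcases hx with (hx | hx) | hx | hx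
    · rw [mem_KK] at hx
      exact ⟨hx.1, hx.2.1⟩
    · rw [Finset.mem_image] at hx
      obtain ⟨q, hq, e⟩ := hx
      rw [mem_KK] at hq
      rw [← e]
      exact ⟨h.ne_beta hq.1, (h.rr_beta q).trans hq.2.1⟩
    · rw [hx]
      exact ⟨hp, hs⟩
    · rw [hx]
      exact ⟨h.ne_beta hp, (h.rr_beta p).trans hs⟩
  have hc := Finset.card_le_card sub
  rw [Finset.card_union_of_disjoint d2, Finset.card_union_of_disjoint d1,
    Finset.card_image_of_injective _ (fun x y e => h.inj e),
    Finset.card_pair (Ne.symm hp)] at hc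
  omega

/-- The line through `p` and a point of another colour. -/
theorem cover (h : IA m β) (hG : ¬ OpGrid m) {p s t : V}
    (hW : ∀ x, β x = x → x = s ∨ x = t ∨ x = m s t) (hst : s ≠ t) (hp : β p ≠ p)
    (hs : rr m β p = s) :
    NN m β t ⊆ (KK m β p t s ∪ KK m β p t t) ∪ {m p (m s t)} := by
  intro q hq
  rw [mem_NN] at hq
  obtain ⟨hq1, hq2⟩ := hq
  rw [Finset.mem_union, Finset.mem_union, Finset.mem_singleton, mem_KK, mem_KK]
  have hpq : p ≠ q := by
    intro e
    rw [e, hq2] at hs
    exact hst hs.symm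
  by_cases hf : β (m p q) = m p q
  · right
    rcases hW _ hf with e | e | e
    · exfalso
      rw [← hs] at e
      have e' : q = β p := h.sq.cancel e
      rw [e', h.rr_beta, hs] at hq2
      exact hst hq2
    · exfalso
      rw [← hq2, h.sq.comm p q] at e
      have e' : p = β q := h.sq.cancel e
      rw [e', h.rr_beta, hq2] at hs
      exact hst hs.symm
    · exact (h.sq.swap e).symm
  · left
    have hr : rr m β p ≠ rr m β q := by
      rw [hs, hq2]
      exact hst
    have h2 := h.two hG hp hq1 hpq hf hr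
    rw [hs, hq2] at h2
    rcases hW _ (h.fix_rr (m p q)) with e | e | e
    · left
      exact ⟨hq1, hq2, hf, e⟩
    · right
      exact ⟨hq1, hq2, hf, e⟩
    · exact absurd e h2

theorem bound3 (h : IA m β) (hG : ¬ OpGrid m) {p s t : V}
    (hW : ∀ x, β x = x → x = s ∨ x = t ∨ x = m s t) (hst : s ≠ t) (hp : β p ≠ p)
    (hs : rr m β p = s) : (KK m β p t t).card ≤ (KK m β p t s).card + 1 := by
  have sub : (KK m β p t t).image β ⊆ KK m β p t s ∪ {m p (m s t)} := by
    intro x hx
    rw [Finset.mem_image] at hx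
    obtain ⟨q, hq, e⟩ := hx
    rw [mem_KK] at hq
    have hxN : x ∈ NN m β t := by
      rw [mem_NN, ← e]
      exact ⟨h.ne_beta hq.1, (h.rr_beta q).trans hq.2.1⟩
    have hc := h.cover hG hW hst hp hs hxN
    rw [Finset.mem_union, Finset.mem_union] at hc
    rw [Finset.mem_union]
    rcases hc with (hc | hc) | hc
    · exact Or.inl hc
    · exfalso
      rw [mem_KK, ← e] at hc
      have hqp : q ≠ p := by
        intro e
        rw [e, hs] at hq
        exact hst hq.2.1
      have hqp' : q ≠ β p := by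
        intro e
        rw [e, h.rr_beta, hs] at hq
        exact hst hq.2.1
      exact h.four hG hp hq.1 hqp hqp' hq.2.2.1 hc.2.2.1 (hq.2.2.2.trans hc.2.2.2.symm)
    · exact Or.inr hc
  have hc := (Finset.card_le_card sub).trans (Finset.card_union_le _ _)
  rw [Finset.card_image_of_injective _ (fun x y e => h.inj e), Finset.card_singleton] at hc
  exact hc

theorem bound2 (h : IA m β) (hG : ¬ OpGrid m) {p s t : V}
    (hW : ∀ x, β x = x → x = s ∨ x = t ∨ x = m s t) (hst : s ≠ t) (hp : β p ≠ p)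
    (hs : rr m β p = s) :
    (NN m β t).card ≤ (KK m β p t s).card + (KK m β p t t).card + 1 := by
  have hc := (Finset.card_le_card (h.cover hG hW hst hp hs)).trans (Finset.card_union_le _ _)
  have hd := Finset.card_union_le (KK m β p t s) (KK m β p t t)
  rw [Finset.card_singleton] at hc
  omega

theorem le_of (h : IA m β) (hG : ¬ OpGrid m) {p s t : V}
    (hW : ∀ x, β x = x → x = s ∨ x = t ∨ x = m s t) (hst : s ≠ t) (hp : β p ≠ p)
    (hs : rr m β p = s) : (NN m β t).card ≤ (NN m β s).card := by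
  have h1 := h.bound1 hG hp hs hst
  have h2 := h.bound2 hG hW hst hp hs
  have h3 := h.bound3 hG hW hst hp hs
  omega

theorem double (h : IA m β) (s t : V) :
    ∑ p ∈ NN m β s, (KK m β p t t).card = ∑ q ∈ NN m β t, (KK m β q s t).card := by
  have key := Finset.sum_card_bipartiteAbove_eq_sum_card_bipartiteBelow
    (s := NN m β s) (t := NN m β t)
    (fun p q => β (m p q) ≠ m p q ∧ rr m β (m p q) = t)
  have e1 : ∀ p, KK m β p t t = (NN m β t).bipartiteAbove
      (fun p q => β (m p q) ≠ m p q ∧ rr m β (m p q) = t) p := by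
    intro p
    ext q
    rw [mem_KK, Finset.mem_bipartiteAbove, mem_NN]
    tauto
  have e2 : ∀ q, KK m β q s t = (NN m β s).bipartiteBelow
      (fun p q => β (m p q) ≠ m p q ∧ rr m β (m p q) = t) q := by
    intro q
    ext p
    rw [mem_KK, Finset.mem_bipartiteBelow, mem_NN, h.sq.comm q p]
    tauto
  have k1 : ∑ p ∈ NN m β s, (KK m β p t t).card = ∑ p ∈ NN m β s, ((NN m β t).bipartiteAbove
      (fun p q => β (m p q) ≠ m p q ∧ rr m β (m p q) = t) p).card :=
    Finset.sum_congr rfl (fun p _ => by rw [e1 p])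
  have k2 : ∑ q ∈ NN m β t, (KK m β q s t).card = ∑ q ∈ NN m β t, ((NN m β s).bipartiteBelow
      (fun p q => β (m p q) ≠ m p q ∧ rr m β (m p q) = t) q).card :=
    Finset.sum_congr rfl (fun q _ => by rw [e2 q])
  rw [k1, k2]
  exact key

theorem no_two (h : IA m β) (hG : ¬ OpGrid m) {s t : V}
    (hW : ∀ x, β x = x → x = s ∨ x = t ∨ x = m s t) (hst : s ≠ t)
    (hs : (NN m β s).Nonempty) (ht : (NN m β t).Nonempty) : False := by
  have hW' : ∀ x, β x = x → x = t ∨ x = s ∨ x = m t s := by
    intro x hx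
    rw [h.sq.comm t s]
    rcases hW x hx with e | e | e
    · exact Or.inr (Or.inl e)
    · exact Or.inl e
    · exact Or.inr (Or.inr e)
  obtain ⟨p0, hp0⟩ := hs
  obtain ⟨q0, hq0⟩ := ht
  have hp0' := mem_NN.1 hp0
  have hq0' := mem_NN.1 hq0
  have l1 := h.le_of hG hW hst hp0'.1 hp0'.2
  have l2 := h.le_of hG hW' (Ne.symm hst) hq0'.1 hq0'.2
  have hn : (NN m β s).card = (NN m β t).card := le_antisymm l2 l1
  have hpos : 0 < (NN m β s).card := Finset.card_pos.2 ⟨p0, hp0⟩
  have low : ∀ p ∈ NN m β s, (NN m β s).card ≤ 2 * (KK m β p t t).card := by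
    intro p hp
    rw [mem_NN] at hp
    have h1 := h.bound1 hG hp.1 hp.2 hst
    have h2 := h.bound2 hG hW hst hp.1 hp.2
    omega
  have up : ∀ q ∈ NN m β t, 2 * (KK m β q s t).card + 2 ≤ (NN m β t).card := by
    intro q hq
    rw [mem_NN] at hq
    exact h.bound1 hG hq.1 hq.2 (Ne.symm hst)
  have s1 : (NN m β s).card * (NN m β s).card ≤ ∑ p ∈ NN m β s, 2 * (KK m β p t t).card := by
    calc (NN m β s).card * (NN m β s).card = ∑ _p ∈ NN m β s, (NN m β s).card := by
          rw [Finset.sum_const, smul_eq_mul]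
      _ ≤ _ := Finset.sum_le_sum low
  have s2 : ∑ q ∈ NN m β t, (2 * (KK m β q s t).card + 2) ≤
      (NN m β t).card * (NN m β t).card := by
    calc ∑ q ∈ NN m β t, (2 * (KK m β q s t).card + 2)
        ≤ ∑ _q ∈ NN m β t, (NN m β t).card := Finset.sum_le_sum up
      _ = _ := by rw [Finset.sum_const, smul_eq_mul]
  rw [Finset.sum_add_distrib, ← Finset.mul_sum, Finset.sum_const, smul_eq_mul] at s2
  rw [← Finset.mul_sum, h.double] at s1
  rw [hn] at s1 hpos
  omega

omit [Fintype V] [DecidableEq V] in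
/-- Points outside the fixed set when only one colour occurs. -/
theorem one_colour (h : IA m β) (hG : ¬ OpGrid m) {s : V}
    (hs : ∀ q, β q ≠ q → rr m β q = s) {p q : V} (hp : β p ≠ p) (hq : β q ≠ q)
    (h1 : q ≠ p) (h2 : q ≠ β p) :
    ∃ w, β w = w ∧ w ≠ s ∧ (q = m p w ∨ β q = m p w) := by
  have nw : ∀ x, β x ≠ x → x ≠ p → x ≠ β p → β (m p x) = m p x → m p x ≠ s := by
    intro x hx hx1 hx2 hx3 e
    apply hx2
    have : m p x = m p (β p) := by
      rw [e, ← hs p hp]
      rfl
    exact h.sq.cancel this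
  by_cases c1 : β (m p q) = m p q
  · exact ⟨m p q, c1, nw q hq h1 h2 c1, Or.inl (h.sq.inv _ _).symm⟩
  · by_cases c2 : β (m p (β q)) = m p (β q)
    · refine ⟨m p (β q), c2, nw (β q) (h.ne_beta hq) ?_ ?_ c2, Or.inr (h.sq.inv _ _).symm⟩
      · intro e
        exact h2 (h.flip e)
      · intro e
        exact h1 (h.inj e)
    · exact absurd ((hs _ c1).trans (hs _ c2).symm) (h.four hG hp hq h1 h2 c1 c2)

omit [Fintype V] [DecidableEq V] in
theorem two_partners (h : IA m β) (hG : ¬ OpGrid m) {s t u : V}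
    (hs : ∀ q, β q ≠ q → rr m β q = s) (ht : β t = t) (hu : β u = u)
    (hts : t ≠ s) (hus : u ≠ s) (htu : t ≠ u)
    (hW : ∀ w, β w = w → w ≠ s → w = t ∨ w = u) {p : V} (hp : β p ≠ p) :
    m p u = β (m p t) := by
  by_contra hne
  have f1 : β (m p t) ≠ m p t := by
    intro e
    rw [h.hom, ht] at e
    exact hp (h.sq.cancel' e)
  have f2 : β (m p u) ≠ m p u := by
    intro e
    rw [h.hom, hu] at e
    exact hp (h.sq.cancel' e)
  have g1 : m p u ≠ m p t := fun e => htu (h.sq.cancel e).symm
  have pt : t ≠ p := ne_of_fix ht hp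
  have pu : u ≠ p := ne_of_fix hu hp
  have sp : m p (β p) = s := hs p hp
  obtain ⟨w, hw1, hw2, hw3⟩ := h.one_colour hG hs f1 f2 g1 hne
  rcases hW w hw1 hw2 with e | e
  · rw [e, h.sq.inv' p t, h.hom, hu] at hw3
    rcases hw3 with e' | e'
    · exact pu (h.sq.eq_left e').symm
    · have : m (β p) p = u := h.sq.swap e'
      rw [h.sq.comm, sp] at this
      exact hus this.symm
  · rw [e] at hw3
    rcases hw3 with e' | e'
    · exact pt (h.sq.eq_left (h.sq.cancel' e').symm).symm
    · rw [h.hom, hu] at e'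
      have e2 : β p = m p t := h.sq.cancel' e'
      have : m p (β p) = t := h.sq.swap e2.symm
      rw [sp] at this
      exact hts this.symm

/-- The set of fixed points. -/
def FX (β : V → V) : Finset V := univ.filter fun x => β x = x

theorem mem_FX {x : V} : x ∈ FX β ↔ β x = x := by simp [FX]

theorem NN_sub_compl (c : V) : NN m β c ⊆ (FX β)ᶜ := by
  intro x hx
  rw [Finset.mem_compl, mem_FX]
  exact (mem_NN.1 hx).1

/-- THEOREM A. -/
theorem grid_of_invol (h : IA m β) (h3 : (FX β).card ≤ 3) (h8 : 8 ≤ Fintype.card V) :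
    OpGrid m := by
  by_contra hG
  -- a point outside
  have hex : ∃ p, β p ≠ p := by
    by_contra hcon
    push Not at hcon
    have : FX β = univ := by
      ext x
      simp [FX, hcon x]
    rw [this, Finset.card_univ] at h3
    omega
  obtain ⟨p, hp⟩ := hex
  -- only one colour
  have hone : ∀ q, β q ≠ q → rr m β q = rr m β p := by
    intro q hq
    by_contra hne
    have hfp := h.fix_rr p
    have hfq := h.fix_rr q
    have hfu : β (m (rr m β p) (rr m β q)) = m (rr m β p) (rr m β q) := by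
      rw [h.hom, hfp, hfq]
    have hW : ∀ x, β x = x → x = rr m β p ∨ x = rr m β q ∨ x = m (rr m β p) (rr m β q) := by
      intro x hx
      by_contra hcon
      push Not at hcon
      obtain ⟨c1, c2, c3⟩ := hcon
      have hsub : ({rr m β p, rr m β q, m (rr m β p) (rr m β q), x} : Finset V) ⊆ FX β := by
        intro y hy
        simp only [Finset.mem_insert, Finset.mem_singleton] at hy
        rw [mem_FX]
        rcases hy with rfl | rfl | rfl | rfl
        · exact hfp
        · exact hfq
        · exact hfu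
        · exact hx
      have hc := Finset.card_le_card hsub
      have hcard : ({rr m β p, rr m β q, m (rr m β p) (rr m β q), x} : Finset V).card = 4 := by
        have a1 : rr m β p ≠ rr m β q := fun e => hne e.symm
        have a2 : rr m β p ≠ m (rr m β p) (rr m β q) := fun e => a1 (h.sq.eq_left e.symm)
        have a3 : rr m β q ≠ m (rr m β p) (rr m β q) := fun e => a1 (h.sq.eq_right e.symm)
        rw [Finset.card_insert_of_notMem, Finset.card_insert_of_notMem, Finset.card_pair]
        · exact Ne.symm c3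
        · simp only [Finset.mem_insert, Finset.mem_singleton, not_or]
          exact ⟨a3, Ne.symm c2⟩
        · simp only [Finset.mem_insert, Finset.mem_singleton, not_or]
          exact ⟨a1, a2, Ne.symm c1⟩
      omega
    exact h.no_two hG hW (fun e => hne e.symm) ⟨p, mem_NN.2 ⟨hp, rfl⟩⟩ ⟨q, mem_NN.2 ⟨hq, rfl⟩⟩
  set s := rr m β p with hsdef
  have hsf : s ∈ FX β := mem_FX.2 (h.fix_rr p)
  -- the other fixed points
  have hE : ((FX β).erase s).card ≤ 2 := by
    rw [Finset.card_erase_of_mem hsf]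
    omega
  -- complement
  have hcov : ∀ q, β q ≠ q → q = p ∨ q = β p ∨
      ∃ w ∈ (FX β).erase s, q = m p w ∨ q = β (m p w) := by
    intro q hq
    by_cases h1 : q = p
    · exact Or.inl h1
    by_cases h2 : q = β p
    · exact Or.inr (Or.inl h2)
    right
    right
    obtain ⟨w, hw1, hw2, hw3⟩ := h.one_colour hG hone hp hq h1 h2
    refine ⟨w, Finset.mem_erase.2 ⟨hw2, mem_FX.2 hw1⟩, ?_⟩
    rcases hw3 with e | e
    · exact Or.inl e
    · exact Or.inr (h.flip e)
  have hcompl : ((FX β)ᶜ).card ≤ 4 := by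
    rcases Nat.lt_or_ge ((FX β).erase s).card 2 with hlt | hge
    · -- at most one
      have : Nonempty V := ⟨p⟩
      have : ∃ w0, (FX β).erase s ⊆ {w0} := by
        rw [← Finset.card_le_one_iff_subset_singleton]
        omega
      obtain ⟨w0, hw0⟩ := this
      have hsub : (FX β)ᶜ ⊆ {p, β p, m p w0, β (m p w0)} := by
        intro q hq
        rw [Finset.mem_compl, mem_FX] at hq
        simp only [Finset.mem_insert, Finset.mem_singleton]
        rcases hcov q hq with e | e | ⟨w, hw, e⟩
        · exact Or.inl e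
        · exact Or.inr (Or.inl e)
        · have hw' := Finset.mem_singleton.1 (hw0 hw)
          rw [hw'] at e
          tauto
      exact (Finset.card_le_card hsub).trans Finset.card_le_four
    · have h2 : ((FX β).erase s).card = 2 := le_antisymm hE hge
      obtain ⟨t, u, htu, hset⟩ := Finset.card_eq_two.1 h2
      have htm : t ∈ (FX β).erase s := by rw [hset]; simp
      have hum : u ∈ (FX β).erase s := by rw [hset]; simp
      rw [Finset.mem_erase, mem_FX] at htm hum
      have hW : ∀ w, β w = w → w ≠ s → w = t ∨ w = u := by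
        intro w hw1 hw2
        have : w ∈ (FX β).erase s := Finset.mem_erase.2 ⟨hw2, mem_FX.2 hw1⟩
        rw [hset, Finset.mem_insert, Finset.mem_singleton] at this
        exact this
      have htp := h.two_partners hG hone htm.2 hum.2 htm.1 hum.1 htu hW hp
      have hsub : (FX β)ᶜ ⊆ {p, β p, m p t, β (m p t)} := by
        intro q hq
        rw [Finset.mem_compl, mem_FX] at hq
        simp only [Finset.mem_insert, Finset.mem_singleton]
        rcases hcov q hq with e | e | ⟨w, hw, e⟩
        · exact Or.inl e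
        · exact Or.inr (Or.inl e)
        · rw [hset, Finset.mem_insert, Finset.mem_singleton] at hw
          rcases hw with e' | e'
          · rw [e'] at e
            tauto
          · rw [e', htp, h.inv] at e
            tauto
      exact (Finset.card_le_card hsub).trans Finset.card_le_four
  have := Finset.card_compl (FX β)
  omega

end Count

end IA

end Pool.Agent.Hhelper49.Core9
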