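import Mathlib
import Pool.Agent.Hhelper49.Core9.Defs
import Pool.Agent.Hhelper49.Core9.GridDefs
import Pool.Agent.Hhelper49.Core9.Trans
import Pool.Agent.Hhelper49.Core9.Invol

/-!
A 2-group of automorphisms with at most three fixed points forces a grid.
-/

namespace Pool.Agent.Hhelper49.Core9

open Finset

variable {V : Type*} {m : V → V → V}

/-- A closed set with at least four points has at least seven points. -/
theorem SQ.seven_le [DecidableEq V] (h : SQ m) (S : Finset V)
    (hS : ∀ x ∈ S, ∀ y ∈ S, m x y ∈ S) (h4 : 4 ≤ S.card) : 7 ≤ S.card := by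
  obtain ⟨a, ha, b, hb, hab⟩ := Finset.one_lt_card.1 (by omega : 1 < S.card)
  have hex : ∃ d ∈ S, d ∉ ({a, b, m a b} : Finset V) := by
    by_contra hcon
    push Not at hcon
    have := Finset.card_le_card (show S ⊆ {a, b, m a b} from hcon)
    have := this.trans Finset.card_le_three
    omega
  obtain ⟨d, hd, hd'⟩ := hex
  simp only [Finset.mem_insert, Finset.mem_singleton, not_or] at hd'
  obtain ⟨d1, d2, d3⟩ := hd'
  have c1 : m a b ≠ a := fun e => hab (h.eq_left e)
  have c2 : m a b ≠ b := fun e => hab (h.eq_right e)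
  have hnd : [a, b, m a b, d, m a d, m b d, m (m a b) d].Nodup := by
    simp only [List.nodup_cons, List.mem_cons, List.not_mem_nil, or_false, not_or,
      List.nodup_nil, not_false_eq_true, and_true]
    refine ⟨⟨hab, Ne.symm c1, Ne.symm d1, ?_, ?_, ?_⟩, ⟨Ne.symm c2, Ne.symm d2, ?_, ?_, ?_⟩,
      ⟨Ne.symm d3, ?_, ?_, ?_⟩, ⟨?_, ?_, ?_⟩, ⟨?_, ?_⟩, ?_⟩
    · intro e; exact d1 (h.eq_left e.symm).symm
    · intro e
      apply d3
      rw [h.comm a b, ← h.swap e.symm]
    · intro e
      have : m (m a b) a = d := h.swap e.symm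
      rw [h.inv''] at this
      exact d2 this.symm
    · intro e
      have : m a b = d := h.swap e.symm
      exact d3 this.symm
    · intro e; exact d2 (h.eq_left e.symm).symm
    · intro e
      have : m (m a b) b = d := h.swap e.symm
      rw [h.inv'] at this
      exact d1 this.symm
    · intro e; exact d2 (h.cancel e).symm
    · intro e
      rw [h.comm a b] at e
      exact d1 (h.cancel e).symm
    · intro e; exact d3 (h.eq_left e.symm).symm
    · intro e; exact d1 (h.eq_right e.symm).symm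
    · intro e; exact d2 (h.eq_right e.symm).symm
    · intro e; exact d3 (h.eq_right e.symm).symm
    · intro e; exact hab (h.cancel' e)
    · intro e; exact c1 (h.cancel' e).symm
    · intro e; exact c2 (h.cancel' e).symm
  have hsub : [a, b, m a b, d, m a d, m b d, m (m a b) d].toFinset ⊆ S := by
    intro x hx
    simp only [List.toFinset_cons, List.toFinset_nil, Finset.mem_insert, Finset.notMem_empty,
      or_false] at hx
    rcases hx with rfl | rfl | rfl | rfl | rfl | rfl | rfl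
    · exact ha
    · exact hb
    · exact hS _ ha _ hb
    · exact hd
    · exact hS _ ha _ hd
    · exact hS _ hb _ hd
    · exact hS _ (hS _ ha _ hb) _ hd
  have := Finset.card_le_card hsub
  rw [List.toFinset_card_of_nodup hnd] at this
  exact this

theorem OpOf.hasGrid [DecidableEq V] {B : Finset (Finset V)} (h : OpOf B m) (hG : OpGrid m) :
    HasGrid B := by
  obtain ⟨a, b, c, d, e, f, g, k, i, hnd, e1, e2, e3, e4, e5, e6⟩ := hG
  refine ⟨a, b, c, d, e, f, g, k, i, hnd, ?_, ?_, ?_, ?_, ?_, ?_⟩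
  all_goals
    simp only [List.nodup_cons, List.mem_cons, List.not_mem_nil, or_false, not_or,
      List.nodup_nil, not_false_eq_true, and_true] at hnd
    obtain ⟨⟨n1, n2, n3, n4, n5, n6, n7, n8⟩, ⟨m1, m2, m3, m4, m5, m6, m7⟩,
      ⟨o1, o2, o3, o4, o5, o6⟩, ⟨p1, p2, p3, p4, p5⟩, ⟨q1, q2, q3, q4⟩, ⟨r1, r2, r3⟩,
      ⟨s1, s2⟩, t1⟩ := hnd
  · rw [← e1]; exact (h.mem a b n1).2.2
  · rw [← e2]; exact (h.mem d e p1).2.2
  · rw [← e3]; exact (h.mem g k s1).2.2
  · rw [← e4]; exact (h.mem a d n3).2.2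
  · rw [← e5]; exact (h.mem b e m3).2.2
  · rw [← e6]; exact (h.mem c f o3).2.2

theorem OpOf.hom_of_image [DecidableEq V] {B : Finset (Finset V)} (h : OpOf B m)
    (σ : Equiv.Perm V) (hσ : ∀ b ∈ B, b.image σ ∈ B) (x y : V) :
    σ (m x y) = m (σ x) (σ y) := by
  by_cases hxy : x = y
  · subst hxy
    rw [h.sq.idem, h.sq.idem]
  · obtain ⟨n1, n2, hb⟩ := h.mem x y hxy
    have h1 := hσ _ hb
    have e : ({x, y, m x y} : Finset V).image σ = {σ x, σ y, σ (m x y)} := by
      rw [Finset.image_insert, Finset.image_insert, Finset.image_singleton]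
    rw [e] at h1
    exact (h.uniq (σ x) (σ y) (σ (m x y)) (fun e => hxy (σ.injective e))
      (fun e => n1 (σ.injective e)) (fun e => n2 (σ.injective e)) h1).symm

/-- THEOREM A relative to a closed set. -/
theorem SQ.grid_of_closed [DecidableEq V] (h : SQ m) (U : Finset V)
    (hU : ∀ x ∈ U, ∀ y ∈ U, m x y ∈ U) (σ : Equiv.Perm V)
    (hhom : ∀ x y, σ (m x y) = m (σ x) (σ y)) (hσ : ∀ x ∈ U, σ x ∈ U)
    (hinv : ∀ x ∈ U, σ (σ x) = x) (h3 : (U.filter fun x => σ x = x).card ≤ 3)
    (h8 : 8 ≤ U.card) : OpGrid m := by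
  let m' : U → U → U := fun x y => ⟨m x y, hU x x.2 y y.2⟩
  let β : U → U := fun x => ⟨σ x, hσ x x.2⟩
  have hq : SQ m' := by
    refine ⟨?_, ?_, ?_⟩
    · intro x y; exact Subtype.ext (h.comm x y)
    · intro x; exact Subtype.ext (h.idem x)
    · intro x y; exact Subtype.ext (h.inv x y)
  have hI : IA m' β := by
    refine ⟨hq, ?_, ?_⟩
    · intro x; exact Subtype.ext (hinv x x.2)
    · intro x y; exact Subtype.ext (hhom x y)
  have hF : (IA.FX β).card ≤ 3 := by
    have : (IA.FX β).card ≤ (U.filter fun x => σ x = x).card := by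
      apply Finset.card_le_card_of_injOn (fun x : U => (x : V))
      · intro x hx
        have hx' := IA.mem_FX.1 (Finset.mem_coe.1 hx)
        have : σ x = x := congrArg Subtype.val hx'
        exact Finset.mem_coe.2 (Finset.mem_filter.2 ⟨x.2, this⟩)
      · intro x _ y _ e
        exact Subtype.ext e
    omega
  have hc : 8 ≤ Fintype.card U := by
    rw [Fintype.card_coe]
    exact h8
  obtain ⟨a, b, c, d, e, f, g, k, i, hnd, e1, e2, e3, e4, e5, e6⟩ := hI.grid_of_invol hF hc
  refine ⟨a, b, c, d, e, f, g, k, i, ?_, congrArg Subtype.val e1, congrArg Subtype.val e2,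
    congrArg Subtype.val e3, congrArg Subtype.val e4, congrArg Subtype.val e5,
    congrArg Subtype.val e6⟩
  have := (List.nodup_map_iff (f := fun x : U => (x : V)) Subtype.val_injective).2 hnd
  simpa using this

/-- The common fixed points, as a finite set. -/
theorem fixed_closed {m : V → V → V} (Δ : Subgroup (Equiv.Perm V))
    (hhom : ∀ σ ∈ Δ, ∀ x y, σ (m x y) = m (σ x) (σ y)) {x y : V}
    (hx : x ∈ commonFixed Δ) (hy : y ∈ commonFixed Δ) : m x y ∈ commonFixed Δ := by
  intro σ hσ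
  rw [hhom σ hσ, hx σ hσ, hy σ hσ]

theorem SQ.grid_of_twoGroup [Fintype V] [DecidableEq V] (h : SQ m)
    (Γ : Subgroup (Equiv.Perm V)) (h2 : IsPGroup 2 Γ)
    (hhom : ∀ σ ∈ Γ, ∀ x y, σ (m x y) = m (σ x) (σ y))
    (h3 : (commonFixed Γ).ncard ≤ 3) (h8 : 8 ≤ Fintype.card V)
    (h7 : ∀ Δ ≤ Γ, (commonFixed Δ).ncard ≠ 7) : OpGrid m := by
  classical
  have : Fact (Nat.Prime 2) := ⟨Nat.prime_two⟩
  -- subgroups of Γ with at least eight fixed points
  let 𝒮 : Set (Subgroup (Equiv.Perm V)) := {Δ | Δ ≤ Γ ∧ 8 ≤ (commonFixed Δ).ncard}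
  have hne : 𝒮.Nonempty := by
    refine ⟨⊥, bot_le, ?_⟩
    have : commonFixed (⊥ : Subgroup (Equiv.Perm V)) = Set.univ := by
      ext x
      simp [commonFixed]
    rw [this, Set.ncard_univ, Nat.card_eq_fintype_card]
    exact h8
  obtain ⟨K, hK, hmax⟩ := Set.exists_max_image 𝒮 (fun Δ => Nat.card Δ) (Set.toFinite _) hne
  obtain ⟨hKΓ, hK8⟩ := hK
  -- K is not Γ
  have hKne : Nat.card K ≠ Nat.card Γ := by
    intro e
    have hset : (K : Set (Equiv.Perm V)) = Γ := by
      apply Set.eq_of_subset_of_ncard_le hKΓ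
      · rw [← Nat.card_coe_set_eq, ← Nat.card_coe_set_eq]
        exact e.symm.le
    have : K = Γ := SetLike.coe_injective hset
    rw [this] at hK8
    omega
  -- pass to subgroups of Γ
  let K0 : Subgroup Γ := K.subgroupOf Γ
  have hK0 : Nat.card K0 = Nat.card K := Nat.card_congr (Subgroup.subgroupOfEquivOfLe hKΓ).toEquiv
  obtain ⟨l, hl⟩ := (IsPGroup.iff_card.1 h2)
  obtain ⟨k, hk⟩ := (IsPGroup.iff_card.1 (h2.to_subgroup K0))
  have hkl : k < l := by
    have h1 : Nat.card K0 ∣ Nat.card Γ := Subgroup.card_subgroup_dvd_card K0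
    rw [hk, hl] at h1
    have h4 : k ≤ l := (Nat.pow_dvd_pow_iff_le_right (by norm_num)).1 h1
    rcases Nat.lt_or_ge k l with h5 | h5
    · exact h5
    · exfalso
      apply hKne
      rw [← hK0, hk, hl, le_antisymm h4 h5]
  have hdvd : 2 ^ (k + 1) ∣ Nat.card Γ := by
    rw [hl]
    exact pow_dvd_pow 2 hkl
  obtain ⟨K1, hK1, hle⟩ := Sylow.exists_subgroup_card_pow_succ hdvd hk
  have hidx : (K0.subgroupOf K1).index = 2 := by
    have h1 := Subgroup.card_mul_index (K0.subgroupOf K1)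
    have h4 : Nat.card (K0.subgroupOf K1) = Nat.card K0 :=
      Nat.card_congr (Subgroup.subgroupOfEquivOfLe hle).toEquiv
    rw [h4, hk, hK1, pow_succ] at h1
    exact Nat.eq_of_mul_eq_mul_left (by positivity) h1
  -- an element of K1 outside K0
  obtain ⟨g, hg1, hg0⟩ : ∃ g ∈ K1, g ∉ K0 := by
    by_contra hcon
    push Not at hcon
    have h1 : K1 ≤ K0 := hcon
    have h4 := Subgroup.card_le_of_le h1
    rw [hk, hK1] at h4
    have := Nat.pow_lt_pow_right (show 1 < 2 by norm_num) (Nat.lt_succ_self k)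
    omega
  have hnorm : (K0.subgroupOf K1).Normal := Subgroup.normal_of_index_eq_two hidx
  -- the permutation
  let γ : Equiv.Perm V := (g : Equiv.Perm V)
  have hγΓ : γ ∈ Γ := g.2
  have hsq : ∀ a ∈ K1, ∀ b ∈ K1, a ∉ K0 → b ∉ K0 → a * b ∈ K0 := by
    intro a ha b hb ha' hb'
    have := (Subgroup.mul_mem_iff_of_index_two hidx (a := (⟨a, ha⟩ : K1)) (b := ⟨b, hb⟩)).2
      (by
        constructor
        · intro hh
          exact absurd (Subgroup.mem_subgroupOf.1 hh) ha'
        · intro hh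
          exact absurd (Subgroup.mem_subgroupOf.1 hh) hb')
    exact Subgroup.mem_subgroupOf.1 this
  have hmemK : ∀ a : Γ, a ∈ K0 ↔ (a : Equiv.Perm V) ∈ K := fun a => Subgroup.mem_subgroupOf
  have hγγ : ∀ x ∈ commonFixed K, γ (γ x) = x := by
    intro x hx
    have h1 := hsq g hg1 g hg1 hg0 hg0
    rw [hmemK] at h1
    exact hx _ h1
  have hγU : ∀ x ∈ commonFixed K, γ x ∈ commonFixed K := by
    intro x hx σ hσ
    have hσ0 : (⟨σ, hKΓ hσ⟩ : Γ) ∈ K0 := (hmemK _).2 hσ
    have h1 := hnorm.conj_mem (⟨⟨σ, hKΓ hσ⟩, hle hσ0⟩ : K1) (Subgroup.mem_subgroupOf.2 hσ0)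
      (⟨g, hg1⟩⁻¹ : K1)
    have h4 := (hmemK _).1 (Subgroup.mem_subgroupOf.1 h1)
    have h5 := hx _ h4
    have h6 : (γ⁻¹ * σ * γ) x = x := by
      have : (γ⁻¹ * σ * γ) = (γ⁻¹ * σ * γ⁻¹⁻¹) := by rw [inv_inv]
      rw [this]
      exact h5
    have h8' : γ (γ⁻¹ (σ (γ x))) = γ x := congrArg γ h6
    have h9 : γ (γ⁻¹ (σ (γ x))) = σ (γ x) := γ.apply_symm_apply _
    rw [h9] at h8'
    exact h8'
  -- the larger subgroup
  let K' : Subgroup (Equiv.Perm V) := K1.map Γ.subtype
  have hK'Γ : K' ≤ Γ := by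
    rintro _ ⟨a, _, rfl⟩
    exact a.2
  have hK'card : Nat.card K' = 2 ^ (k + 1) := by
    rw [← hK1]
    exact Nat.card_congr (K1.equivMapOfInjective Γ.subtype Γ.subtype_injective).symm.toEquiv
  have hsmall : (commonFixed K').ncard < 8 := by
    by_contra hcon
    push Not at hcon
    have h1 := hmax K' ⟨hK'Γ, hcon⟩
    have h4 : Nat.card K' ≤ Nat.card K := h1
    rw [hK'card, ← hK0, hk] at h4
    have := Nat.pow_lt_pow_right (show 1 < 2 by norm_num) (Nat.lt_succ_self k)
    omega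
  have hn7 := h7 K' hK'Γ
  let W : Finset V := (Set.toFinite (commonFixed K')).toFinset
  have hWc : W.card = (commonFixed K').ncard := (Set.ncard_eq_toFinset_card _ _).symm
  have hWm : ∀ x, x ∈ W ↔ x ∈ commonFixed K' := fun x => Set.Finite.mem_toFinset _
  have hW3 : W.card ≤ 3 := by
    by_contra hcon
    have := h.seven_le W (by
      intro x hx y hy
      rw [hWm] at hx hy ⊢
      exact fixed_closed K' (fun σ hσ => hhom σ (hK'Γ hσ)) hx hy) (by omega)
    omega
  let U : Finset V := (Set.toFinite (commonFixed K)).toFinset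
  have hUc : U.card = (commonFixed K).ncard := (Set.ncard_eq_toFinset_card _ _).symm
  have hUm : ∀ x, x ∈ U ↔ x ∈ commonFixed K := fun x => Set.Finite.mem_toFinset _
  apply h.grid_of_closed U _ γ (hhom γ hγΓ) _ _ _ (by omega)
  · intro x hx y hy
    rw [hUm] at hx hy ⊢
    exact fixed_closed K (fun σ hσ => hhom σ (hKΓ hσ)) hx hy
  · intro x hx
    rw [hUm] at hx ⊢
    exact hγU x hx
  · intro x hx
    rw [hUm] at hx
    exact hγγ x hx
  · refine le_trans (Finset.card_le_card ?_) hW3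
    intro x hx
    rw [Finset.mem_filter, hUm] at hx
    obtain ⟨hxK, hxγ⟩ := hx
    rw [hWm]
    rintro _ ⟨a, ha, rfl⟩
    by_cases haK : a ∈ K0
    · exact hxK _ ((hmemK a).1 haK)
    · have h1 := hsq a ha g hg1 haK hg0
      have h4 := hxK _ ((hmemK _).1 h1)
      have h5 : (a : Equiv.Perm V) (γ x) = x := h4
      rw [hxγ] at h5
      exact h5

end Pool.Agent.Hhelper49.Core9
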