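import Mathlib
import Pool.Agent.Hhelper49.Core9.Defs
import Pool.Agent.Hhelper49.Core9.GridDefs
import Pool.Agent.Hhelper49.Core9.Trans
import Pool.Agent.Hhelper49.Core9.TwoGroup

/-!
Abelian groups of automorphisms with long orbits force a grid.

Let `A` be an abelian group of automorphisms. If `b = {x, y, z}` and `b' = {x, y', z'}` are triples
inside one orbit of `A` and `b'` is not an image of `b` under `A`, then the nine points
`s_i (t_j x)`, `s_i x ∈ b`, `t_j x ∈ b'`, form a grid. At most three images of `b` contain `x`, so it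
is enough that four triples through `x` are contained in the orbit of `x`. A triple with exactly two
points in a common orbit uses two pairs of points of different orbits for each of its pairs in a
common orbit; this gives the count.
-/

set_option autoImplicit false

namespace Pool.Agent.Hhelper49.Core9

open Finset

variable {V : Type*} [DecidableEq V]

/-- A grid from a three by three array of distinct points. -/
theorem hasGrid_of_array {B : Finset (Finset V)} (x : Fin 3 → Fin 3 → V)
    (hinj : ∀ i j k l, x i j = x k l → i = k ∧ j = l)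
    (hrow : ∀ i, ({x i 0, x i 1, x i 2} : Finset V) ∈ B)
    (hcol : ∀ j, ({x 0 j, x 1 j, x 2 j} : Finset V) ∈ B) : HasGrid B := by
  refine ⟨x 0 0, x 0 1, x 0 2, x 1 0, x 1 1, x 1 2, x 2 0, x 2 1, x 2 2, ?_, hrow 0, hrow 1, hrow 2,
    hcol 0, hcol 1, hcol 2⟩
  have key : ∀ p q : Fin 3 × Fin 3, p ≠ q → x p.1 p.2 ≠ x q.1 q.2 := by
    intro p q hpq he
    obtain ⟨h1, h2⟩ := hinj _ _ _ _ he
    exact hpq (Prod.ext h1 h2)
  have hl : ([(0, 0), (0, 1), (0, 2), (1, 0), (1, 1), (1, 2), (2, 0), (2, 1), (2, 2)] :
      List (Fin 3 × Fin 3)).Nodup := by decide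
  have hm := hl.map (f := fun p : Fin 3 × Fin 3 => x p.1 p.2)
    (fun p q h => by
      by_contra hne
      exact key p q hne h)
  simpa using hm

/-- Two triples through `x` in the orbit of `x` which are not images of each other. -/
theorem grid_of_two {B : Finset (Finset V)} (h : IsSTS B)
    (A : Subgroup (Equiv.Perm V)) (hcomm : ∀ σ ∈ A, ∀ τ ∈ A, σ * τ = τ * σ)
    (haut : ∀ σ ∈ A, ∀ b ∈ B, b.image σ ∈ B) (x : V) (s t : Fin 3 → Equiv.Perm V)
    (hs : ∀ i, s i ∈ A) (ht : ∀ i, t i ∈ A)
    (hs' : Function.Injective fun i => s i x) (ht' : Function.Injective fun i => t i x)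
    (hb : ({s 0 x, s 1 x, s 2 x} : Finset V) ∈ B) (hb' : ({t 0 x, t 1 x, t 2 x} : Finset V) ∈ B)
    (hne : ∀ ρ ∈ A, ({s 0 x, s 1 x, s 2 x} : Finset V).image ρ ≠ {t 0 x, t 1 x, t 2 x}) :
    HasGrid B := by
  have hc : ∀ i j, s i (t j x) = t j (s i x) := by
    intro i j
    have := hcomm (s i) (hs i) (t j) (ht j)
    have h2 := congrArg (fun f : Equiv.Perm V => f x) this
    simpa [Equiv.Perm.mul_apply] using h2
  refine hasGrid_of_array (fun i j => s i (t j x)) ?_ ?_ ?_
  · intro i j k l he
    change s i (t j x) = s k (t l x) at he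
    by_cases hik : i = k
    · subst hik
      exact ⟨rfl, ht' ((s i).injective he)⟩
    by_cases hjl : j = l
    · subst hjl
      rw [hc, hc] at he
      exact ⟨hs' ((t j).injective he), rfl⟩
    exfalso
    set ρ : Equiv.Perm V := t j * (s k)⁻¹ with hρ
    have hρA : ρ ∈ A := A.mul_mem (ht j) (A.inv_mem (hs k))
    have hcan : ∀ y : V, (s k)⁻¹ (s k y) = y := fun y => by simp
    have e1 : ρ (s k x) = t j x := by
      rw [hρ, Equiv.Perm.mul_apply, hcan]
    have e2 : ρ (s i x) = t l x := by
      have h1 : ρ * s i = (s k)⁻¹ * (s i * t j) := by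
        rw [hcomm ρ hρA (s i) (hs i), hρ, ← mul_assoc,
          hcomm (s i * t j) (A.mul_mem (hs i) (ht j)) ((s k)⁻¹) (A.inv_mem (hs k))]
      have h2 := congrArg (fun f : Equiv.Perm V => f x) h1
      simp only [Equiv.Perm.mul_apply] at h2
      rw [h2, he, hcan]
    have hmem1 : ∀ i, s i x ∈ ({s 0 x, s 1 x, s 2 x} : Finset V) := by
      intro i
      fin_cases i <;> simp
    have hmem2 : ∀ i, t i x ∈ ({t 0 x, t 1 x, t 2 x} : Finset V) := by
      intro i
      fin_cases i <;> simp
    have hjl' : t j x ≠ t l x := fun e => hjl (ht' e)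
    refine hne ρ hρA ((h.2 _ _ hjl').unique ⟨haut ρ hρA _ hb, ?_, ?_⟩ ⟨hb', hmem2 j, hmem2 l⟩)
    · rw [← e1]
      exact mem_image_of_mem ρ (hmem1 k)
    · rw [← e2]
      exact mem_image_of_mem ρ (hmem1 i)
  · intro i
    have h1 := haut (s i) (hs i) _ hb'
    rw [image_insert, image_insert, image_singleton] at h1
    exact h1
  · intro j
    have h1 := haut (t j) (ht j) _ hb
    rw [image_insert, image_insert, image_singleton] at h1
    simpa only [hc] using h1

open scoped Classical in
/-- Seven points `y` of the orbit of `x` whose triple through `x` is contained in the orbit. -/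
theorem grid_of_seven [Fintype V] {B : Finset (Finset V)} {m : V → V → V} (h : IsSTS B)
    (hm : OpOf B m) (A : Subgroup (Equiv.Perm V)) (hcomm : ∀ σ ∈ A, ∀ τ ∈ A, σ * τ = τ * σ)
    (haut : ∀ σ ∈ A, ∀ b ∈ B, b.image σ ∈ B) (x : V)
    (h7 : 7 ≤ (univ.filter fun y : V => y ≠ x ∧ (∃ σ ∈ A, σ x = y) ∧
      ∃ σ ∈ A, σ x = m x y).card) : HasGrid B := by
  set P : Finset V := univ.filter fun y : V => y ≠ x ∧ (∃ σ ∈ A, σ x = y) ∧
      ∃ σ ∈ A, σ x = m x y with hP
  have hmemP : ∀ y, y ∈ P ↔ y ≠ x ∧ (∃ σ ∈ A, σ x = y) ∧ ∃ σ ∈ A, σ x = m x y := by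
    intro y
    rw [hP, mem_filter]
    simp
  have hne0 : P.Nonempty := card_pos.1 (by omega)
  obtain ⟨y, hy⟩ := hne0
  obtain ⟨hyx, ⟨s1, hs1, e1⟩, s2, hs2, e2⟩ := (hmemP y).1 hy
  let s : Fin 3 → Equiv.Perm V := ![1, s1, s2]
  have hs : ∀ i, s i ∈ A := by
    intro i
    fin_cases i
    · exact A.one_mem
    · exact hs1
    · exact hs2
  let bad : Finset V := ((univ : Finset (Fin 3 × Fin 3)).filter fun p => p.1 ≠ p.2).image
    fun p => s p.1 ((s p.2)⁻¹ x)
  have hbad : bad.card ≤ 6 := by
    refine card_image_le.trans ?_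
    decide
  obtain ⟨y', hy', hyb⟩ : ∃ y' ∈ P, y' ∉ bad := by
    by_contra hcon
    push Not at hcon
    have := card_le_card (show P ⊆ bad from hcon)
    omega
  obtain ⟨hyx', ⟨t1, ht1, f1⟩, t2, ht2, f2⟩ := (hmemP y').1 hy'
  let t : Fin 3 → Equiv.Perm V := ![1, t1, t2]
  have ht : ∀ i, t i ∈ A := by
    intro i
    fin_cases i
    · exact A.one_mem
    · exact ht1
    · exact ht2
  have hinj : ∀ (z : V) (u : Fin 3 → Equiv.Perm V), z ≠ x → u 0 x = x → u 1 x = z →
      u 2 x = m x z → Function.Injective fun i => u i x := by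
    intro z u hz h0 h1 h2
    obtain ⟨g1, g2, -⟩ := hm.mem x z (Ne.symm hz)
    have n01 : u 0 x ≠ u 1 x := by rw [h0, h1]; exact Ne.symm hz
    have n02 : u 0 x ≠ u 2 x := by rw [h0, h2]; exact Ne.symm g1
    have n12 : u 1 x ≠ u 2 x := by rw [h1, h2]; exact Ne.symm g2
    intro i k hik
    change u i x = u k x at hik
    fin_cases i <;> fin_cases k
    · rfl
    · exact absurd hik n01
    · exact absurd hik n02
    · exact absurd hik.symm n01
    · rfl
    · exact absurd hik n12
    · exact absurd hik.symm n02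
    · exact absurd hik.symm n12
    · rfl
  refine grid_of_two h A hcomm haut x s t hs ht (hinj y s hyx rfl e1 e2)
    (hinj y' t hyx' rfl f1 f2) ?_ ?_ ?_
  · have h1 := (hm.mem x y (Ne.symm hyx)).2.2
    rw [← e2] at h1
    have e1' : s 1 x = y := e1
    change ({x, s 1 x, s2 x} : Finset V) ∈ B
    rw [e1']
    exact h1
  · have h1 := (hm.mem x y' (Ne.symm hyx')).2.2
    rw [← f2] at h1
    have e1' : t 1 x = y' := f1
    change ({x, t 1 x, t2 x} : Finset V) ∈ B
    rw [e1']
    exact h1
  · intro ρ hρ he
    have hx : x ∈ ({s 0 x, s 1 x, s 2 x} : Finset V).image ρ := by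
      rw [he]
      have : t 0 x = x := rfl
      rw [this]
      exact mem_insert_self _ _
    have hy1 : y' ∈ ({s 0 x, s 1 x, s 2 x} : Finset V).image ρ := by
      rw [he]
      have : t 1 x = y' := f1
      rw [this]
      exact mem_insert_of_mem (mem_insert_self _ _)
    have hex : ∀ z, z ∈ ({s 0 x, s 1 x, s 2 x} : Finset V).image ρ → ∃ i, ρ (s i x) = z := by
      intro z hz
      obtain ⟨w, hw, rfl⟩ := mem_image.1 hz
      simp only [mem_insert, mem_singleton] at hw
      rcases hw with rfl | rfl | rfl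
      · exact ⟨0, rfl⟩
      · exact ⟨1, rfl⟩
      · exact ⟨2, rfl⟩
    obtain ⟨k, hk⟩ := hex x hx
    obtain ⟨i, hi⟩ := hex y' hy1
    have hik : i ≠ k := by
      rintro rfl
      exact hyx' (hi.symm.trans hk)
    have hc : ∀ i, ρ (s i x) = s i (ρ x) := by
      intro i
      have h2 := congrArg (fun f : Equiv.Perm V => f x) (hcomm ρ hρ (s i) (hs i))
      simpa [Equiv.Perm.mul_apply] using h2
    have hρx : ρ x = (s k)⁻¹ x := by
      rw [hc] at hk
      exact Equiv.Perm.eq_inv_iff_eq.2 hk
    apply hyb
    refine mem_image.2 ⟨(i, k), ?_, ?_⟩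
    · rw [mem_filter]
      exact ⟨mem_univ _, hik⟩
    · simp only
      rw [← hρx, ← hc, hi]

open scoped Classical in
/-- An abelian group of automorphisms such that more than `n (n + 14) / 3` ordered pairs of points
are in a common orbit. -/
theorem grid_of_abelian [Fintype V] {B : Finset (Finset V)} (h : IsSTS B)
    (A : Subgroup (Equiv.Perm V)) (hcomm : ∀ σ ∈ A, ∀ τ ∈ A, σ * τ = τ * σ)
    (haut : ∀ σ ∈ A, ∀ b ∈ B, b.image σ ∈ B)
    (hR : Fintype.card V * (Fintype.card V + 14) <
      3 * (univ.filter fun p : V × V => ∃ σ ∈ A, σ p.1 = p.2).card) : HasGrid B := by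
  obtain ⟨m, hm⟩ := h.exists_op
  by_contra hno
  set r : V → V → Prop := fun x y => ∃ σ ∈ A, σ x = y with hr
  have rrefl : ∀ x, r x x := fun x => ⟨1, A.one_mem, rfl⟩
  have rsymm : ∀ x y, r x y → r y x := by
    rintro x y ⟨σ, hσ, rfl⟩
    exact ⟨σ⁻¹, A.inv_mem hσ, by simp⟩
  have rtrans : ∀ x y z, r x y → r y z → r x z := by
    rintro x y z ⟨σ, hσ, rfl⟩ ⟨τ, hτ, rfl⟩
    exact ⟨τ * σ, A.mul_mem hτ hσ, rfl⟩
  set n := Fintype.card V with hn
  set R : Finset (V × V) := univ.filter fun p => r p.1 p.2 with hRd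
  set C : Finset (V × V) := univ.filter fun p => ¬ r p.1 p.2 with hCd
  set D : Finset (V × V) := (univ : Finset V).image fun x => (x, x) with hDd
  set Q : Finset (V × V) := univ.filter fun p => p.2 ≠ p.1 ∧ r p.1 p.2 ∧ r p.1 (m p.1 p.2)
    with hQd
  set M : Finset (V × V) := univ.filter fun p => p.2 ≠ p.1 ∧ r p.1 p.2 ∧ ¬ r p.1 (m p.1 p.2)
    with hMd
  have hRC : R.card + C.card = n * n := by
    have h1 := card_filter_add_card_filter_not (s := (univ : Finset (V × V)))
      (p := fun p => r p.1 p.2)
    rw [card_univ, Fintype.card_prod] at h1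
    exact h1
  have hD : D.card ≤ n := card_image_le.trans (by rw [card_univ])
  have hQ : Q.card ≤ 6 * n := by
    have h1 : Q.card ≤ 6 * (Q.image Prod.fst).card := by
      refine card_le_mul_card_image _ _ fun x _ => ?_
      by_contra hcon
      push Not at hcon
      apply hno
      refine grid_of_seven h hm A hcomm haut x ?_
      have h2 : (Q.filter fun p => p.1 = x).card ≤ (univ.filter fun y : V => y ≠ x ∧
          (∃ σ ∈ A, σ x = y) ∧ ∃ σ ∈ A, σ x = m x y).card := by
        refine card_le_card_of_injOn Prod.snd ?_ ?_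
        · rintro ⟨a, b⟩ hp
          simp only [hQd, coe_filter, mem_filter, mem_univ, true_and, Set.mem_ofPred_eq] at hp ⊢
          obtain ⟨⟨h3, h4, h5⟩, rfl⟩ := hp
          exact ⟨h3, h4, h5⟩
        · rintro ⟨a, b⟩ hp ⟨a', b'⟩ hp' he
          simp only [coe_filter, Set.mem_ofPred_eq] at hp hp'
          have e1 : a = x := hp.2
          have e2 : a' = x := hp'.2
          have e3 : b = b' := he
          rw [e1, e2, e3]
      omega
    refine h1.trans (Nat.mul_le_mul_left 6 ?_)
    exact (card_le_univ _).trans_eq rfl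
  have hRle : R.card ≤ D.card + Q.card + M.card := by
    refine (card_le_card (t := D ∪ Q ∪ M) ?_).trans ?_
    · rintro ⟨a, b⟩ hp
      have h1 : r a b := by simpa [hRd] using hp
      by_cases hab : b = a
      · subst hab
        exact mem_union_left _ (mem_union_left _ (mem_image.2 ⟨b, mem_univ _, rfl⟩))
      · by_cases h2 : r a (m a b)
        · refine mem_union_left _ (mem_union_right _ ?_)
          rw [hQd, mem_filter]
          exact ⟨mem_univ _, hab, h1, h2⟩
        · refine mem_union_right _ ?_
          rw [hMd, mem_filter]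
          exact ⟨mem_univ _, hab, h1, h2⟩
    · exact (card_union_le _ _).trans (Nat.add_le_add_right (card_union_le _ _) _)
  have hM : 2 * M.card ≤ C.card := by
    set f1 : V × V → V × V := fun p => (p.1, m p.1 p.2) with hf1
    set f2 : V × V → V × V := fun p => (m p.1 p.2, p.1) with hf2
    have i1 : (M.image f1).card = M.card := by
      refine card_image_of_injective _ ?_
      rintro ⟨a, b⟩ ⟨a', b'⟩ he
      simp only [hf1, Prod.mk.injEq] at he
      obtain ⟨rfl, he⟩ := he
      have h2 := congrArg (m a) he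
      rw [hm.sq.inv, hm.sq.inv] at h2
      rw [h2]
    have i2 : (M.image f2).card = M.card := by
      refine card_image_of_injective _ ?_
      rintro ⟨a, b⟩ ⟨a', b'⟩ he
      simp only [hf2, Prod.mk.injEq] at he
      obtain ⟨he, rfl⟩ := he
      have h2 := congrArg (m a) he
      rw [hm.sq.inv, hm.sq.inv] at h2
      rw [h2]
    have hdis : Disjoint (M.image f1) (M.image f2) := by
      rw [disjoint_left]
      intro p hp hp'
      obtain ⟨⟨a, b⟩, hab, rfl⟩ := mem_image.1 hp
      obtain ⟨⟨c, d⟩, hcd, he⟩ := mem_image.1 hp'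
      simp only [hf1, hf2, Prod.mk.injEq] at he
      obtain ⟨e1, e2⟩ := he
      simp only [hMd, mem_filter, mem_univ, true_and] at hab hcd
      obtain ⟨-, g1, g2⟩ := hab
      obtain ⟨-, g3, g4⟩ := hcd
      rw [e1] at g4
      apply g4
      have hd : d = b := by
        have h2 : m c a = d := by rw [← e1, hm.sq.inv]
        have h3 : m c a = b := by rw [e2, hm.sq.comm, hm.sq.inv]
        rw [← h2, h3]
      rw [hd] at g3
      exact rtrans _ _ _ g3 (rsymm _ _ g1)
    have hsub : M.image f1 ∪ M.image f2 ⊆ C := by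
      intro p hp
      rcases mem_union.1 hp with hp | hp
      · obtain ⟨⟨a, b⟩, hab, rfl⟩ := mem_image.1 hp
        simp only [hMd, mem_filter, mem_univ, true_and] at hab
        rw [hCd, mem_filter]
        exact ⟨mem_univ _, hab.2.2⟩
      · obtain ⟨⟨a, b⟩, hab, rfl⟩ := mem_image.1 hp
        simp only [hMd, mem_filter, mem_univ, true_and] at hab
        rw [hCd, mem_filter]
        exact ⟨mem_univ _, fun h1 => hab.2.2 (rsymm _ _ h1)⟩
    have h1 := card_le_card hsub
    rw [card_union_of_disjoint hdis, i1, i2] at h1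
    omega
  have hR' : n * (n + 14) < 3 * R.card := hR
  have h3 : n * (n + 14) = n * n + 14 * n := by ring
  omega

open scoped Classical in
/-- Two automorphisms `σ`, `τ` such that `{x, σ x, τ x}` is a triple for more than `(n + 19) / 2`
points `x`. -/
theorem grid_of_pair [Fintype V] {B : Finset (Finset V)} (h : IsSTS B) (σ τ : Equiv.Perm V)
    (hσ : ∀ b ∈ B, b.image σ ∈ B) (hτ : ∀ b ∈ B, b.image τ ∈ B)
    (hS : Fintype.card V + 19 <
      2 * (univ.filter fun x : V => ({x, σ x, τ x} : Finset V) ∈ B).card) : HasGrid B := by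
  obtain ⟨m, hm⟩ := h.exists_op
  set n := Fintype.card V with hn
  set S : Finset V := univ.filter fun x : V => ({x, σ x, τ x} : Finset V) ∈ B with hSd
  let t : Fin 3 → Equiv.Perm V := ![1, σ, τ]
  have ht : ∀ j, ∀ b ∈ B, b.image (t j) ∈ B := by
    intro j
    fin_cases j
    · intro b hb
      have : b.image ((1 : Equiv.Perm V) : V → V) = b := by
        ext u
        simp
      change b.image ((1 : Equiv.Perm V) : V → V) ∈ B
      rw [this]
      exact hb
    · exact hσ
    · exact hτ
  have hSB : ∀ x ∈ S, ({t 0 x, t 1 x, t 2 x} : Finset V) ∈ B := by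
    intro x hx
    exact (mem_filter.1 hx).2
  have hinj : ∀ x ∈ S, Function.Injective fun j => t j x := by
    intro x hx
    have h3 := h.1 _ (hSB x hx)
    have n01 : t 0 x ≠ t 1 x := by
      intro e
      rw [e, insert_eq_of_mem (mem_insert_self _ _)] at h3
      have := card_le_two (a := t 1 x) (b := t 2 x)
      omega
    have n02 : t 0 x ≠ t 2 x := by
      intro e
      rw [e, insert_eq_of_mem (by simp)] at h3
      have := card_le_two (a := t 1 x) (b := t 2 x)
      omega
    have n12 : t 1 x ≠ t 2 x := by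
      intro e
      rw [e, pair_eq_singleton] at h3
      have := card_le_two (a := t 0 x) (b := t 2 x)
      omega
    intro i k hik
    change t i x = t k x at hik
    fin_cases i <;> fin_cases k
    · rfl
    · exact absurd hik n01
    · exact absurd hik n02
    · exact absurd hik.symm n01
    · rfl
    · exact absurd hik n12
    · exact absurd hik.symm n02
    · exact absurd hik.symm n12
    · rfl
  -- ordered pairs of points of `S` whose images meet
  set rel : V → V → Prop := fun u v => ∃ i j, i ≠ j ∧ t i u = t j v with hrel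
  have relsymm : ∀ u v, rel u v → rel v u := by
    rintro u v ⟨i, j, hij, e⟩
    exact ⟨j, i, Ne.symm hij, e.symm⟩
  set P : Finset (V × V) := (S ×ˢ (univ : Finset V)).filter fun p => rel p.1 p.2 with hPd
  have hP : P.card ≤ 6 * S.card := by
    have h1 : P.card ≤ 6 * (P.image Prod.fst).card := by
      refine card_le_mul_card_image _ _ fun x _ => ?_
      have h2 : (P.filter fun p => p.1 = x) ⊆ (((univ : Finset (Fin 3 × Fin 3)).filter
          fun p => p.1 ≠ p.2).image fun p => (x, (t p.2)⁻¹ (t p.1 x))) := by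
        rintro ⟨a, b⟩ hp
        rw [mem_filter] at hp
        obtain ⟨hp, hax⟩ := hp
        have hax' : a = x := hax
        subst hax'
        rw [hPd, mem_filter] at hp
        obtain ⟨-, i, j, hij, e⟩ := hp
        refine mem_image.2 ⟨(i, j), ?_, ?_⟩
        · rw [mem_filter]
          exact ⟨mem_univ _, hij⟩
        · have e' : t i a = t j b := e
          simp only
          rw [e']
          simp
      refine (card_le_card h2).trans (card_image_le.trans ?_)
      decide
    refine h1.trans (Nat.mul_le_mul_left 6 (card_le_card ?_))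
    intro x hx
    obtain ⟨⟨a, b⟩, hp, rfl⟩ := mem_image.1 hx
    rw [hPd, mem_filter, mem_product] at hp
    exact hp.1.1
  -- ordered pairs of points of `S` whose third point is in `S`
  set T : Finset (V × V) := (S ×ˢ S).filter fun p => p.1 ≠ p.2 ∧ m p.1 p.2 ∈ S with hTd
  have hT : S.card * 19 ≤ T.card := by
    have h1 : ∀ x ∈ S, 19 ≤ (T.filter fun p => p.1 = x).card := by
      intro x hx
      have h2 : (S.erase x ∩ (S.erase x).image (m x)).card ≤ (T.filter fun p => p.1 = x).card := by
        refine card_le_card_of_injOn (fun y => (x, y)) ?_ ?_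
        · intro y hy
          rw [mem_coe, mem_inter] at hy
          obtain ⟨hy1, hy2⟩ := hy
          obtain ⟨z, hz, e⟩ := mem_image.1 hy2
          rw [mem_erase] at hy1 hz
          rw [mem_coe, mem_filter, hTd, mem_filter, mem_product]
          refine ⟨⟨⟨hx, hy1.2⟩, Ne.symm hy1.1, ?_⟩, rfl⟩
          change m x y ∈ S
          rw [← e, hm.sq.inv]
          exact hz.2
        · intro y _ z _ e
          exact (Prod.mk.inj e).2
      have h3 : ((S.erase x).image (m x)).card = (S.erase x).card := by
        refine card_image_of_injective _ fun y z e => ?_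
        have := congrArg (m x) e
        rwa [hm.sq.inv, hm.sq.inv] at this
      have h4 := card_union_add_card_inter (S.erase x) ((S.erase x).image (m x))
      have h5 : (S.erase x ∪ (S.erase x).image (m x)).card ≤ n - 1 := by
        have h6 : S.erase x ∪ (S.erase x).image (m x) ⊆ (univ : Finset V).erase x := by
          intro y hy
          rw [mem_erase]
          refine ⟨?_, mem_univ _⟩
          rcases mem_union.1 hy with hy | hy
          · exact (mem_erase.1 hy).1
          · obtain ⟨z, hz, rfl⟩ := mem_image.1 hy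
            exact (hm.mem x z (Ne.symm (mem_erase.1 hz).1)).1
        refine (card_le_card h6).trans ?_
        rw [card_erase_of_mem (mem_univ _), card_univ]
      have h7 := card_erase_of_mem hx
      have h8 : 0 < S.card := card_pos.2 ⟨x, hx⟩
      have h9 : 0 < n := Fintype.card_pos_iff.2 ⟨x⟩
      omega
    have h2 : T.card = ∑ x ∈ S, (T.filter fun p => p.1 = x).card := by
      refine card_eq_sum_card_fiberwise ?_
      intro p hp
      rw [mem_coe, hTd, mem_filter, mem_product] at hp
      exact hp.1.1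
    rw [h2]
    have h3 := sum_le_sum h1
    rwa [sum_const, smul_eq_mul] at h3
  have hS0 : 0 < S.card := by omega
  -- a good pair
  obtain ⟨⟨x, y⟩, hxy, g1, g2, g3⟩ : ∃ p ∈ T, ¬ rel p.1 p.2 ∧ ¬ rel p.1 (m p.1 p.2) ∧
      ¬ rel p.2 (m p.1 p.2) := by
    by_contra hcon
    push Not at hcon
    have hsub : T ⊆ (T.filter fun p => rel p.1 p.2) ∪ ((T.filter fun p => rel p.1 (m p.1 p.2)) ∪
        (T.filter fun p => rel p.2 (m p.1 p.2))) := by
      intro p hp
      by_cases e1 : rel p.1 p.2
      · exact mem_union_left _ (mem_filter.2 ⟨hp, e1⟩)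
      · by_cases e2 : rel p.1 (m p.1 p.2)
        · exact mem_union_right _ (mem_union_left _ (mem_filter.2 ⟨hp, e2⟩))
        · exact mem_union_right _ (mem_union_right _ (mem_filter.2 ⟨hp, hcon p hp e1 e2⟩))
    have hTm : ∀ p ∈ T, p.1 ∈ S ∧ p.2 ∈ S := by
      intro p hp
      rw [hTd, mem_filter, mem_product] at hp
      exact hp.1
    have c1 : (T.filter fun p => rel p.1 p.2).card ≤ P.card := by
      refine card_le_card fun p hp => ?_
      rw [mem_filter] at hp
      rw [hPd, mem_filter, mem_product]
      exact ⟨⟨(hTm p hp.1).1, mem_univ _⟩, hp.2⟩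
    have c2 : (T.filter fun p => rel p.1 (m p.1 p.2)).card ≤ P.card := by
      refine card_le_card_of_injOn (fun p => (p.1, m p.1 p.2)) ?_ ?_
      · intro p hp
        rw [mem_coe, mem_filter] at hp
        rw [mem_coe, hPd, mem_filter, mem_product]
        exact ⟨⟨(hTm p hp.1).1, mem_univ _⟩, hp.2⟩
      · rintro ⟨a, b⟩ _ ⟨a', b'⟩ _ he
        simp only [Prod.mk.injEq] at he
        obtain ⟨rfl, he⟩ := he
        have h2 := congrArg (m a) he
        rw [hm.sq.inv, hm.sq.inv] at h2
        rw [h2]
    have c3 : (T.filter fun p => rel p.2 (m p.1 p.2)).card ≤ P.card := by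
      refine card_le_card_of_injOn (fun p => (p.2, m p.1 p.2)) ?_ ?_
      · intro p hp
        rw [mem_coe, mem_filter] at hp
        rw [mem_coe, hPd, mem_filter, mem_product]
        exact ⟨⟨(hTm p hp.1).2, mem_univ _⟩, hp.2⟩
      · rintro ⟨a, b⟩ _ ⟨a', b'⟩ _ he
        simp only [Prod.mk.injEq] at he
        obtain ⟨rfl, he⟩ := he
        have h2 := congrArg (m b) he
        rw [hm.sq.comm a b, hm.sq.comm a' b, hm.sq.inv, hm.sq.inv] at h2
        rw [h2]
    have h1 := (card_le_card hsub).trans ((card_union_le _ _).trans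
      (Nat.add_le_add_left (card_union_le _ _) _))
    omega
  rw [hTd, mem_filter, mem_product] at hxy
  obtain ⟨⟨hx, hy⟩, hne, hz⟩ := hxy
  have hne' : x ≠ y := hne
  have hx' : x ∈ S := hx
  have hy' : y ∈ S := hy
  have hz' : m x y ∈ S := hz
  obtain ⟨k1, k2, hb⟩ := hm.mem x y hne'
  let q : Fin 3 → V := ![x, y, m x y]
  have hqS : ∀ i, q i ∈ S := by
    intro i
    fin_cases i
    · exact hx'
    · exact hy'
    · exact hz'
  have hqrel : ∀ i k, i ≠ k → ¬ rel (q i) (q k) := by
    intro i k hik
    fin_cases i <;> fin_cases k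
    · exact absurd rfl hik
    · exact g1
    · exact g2
    · exact fun e => g1 (relsymm _ _ e)
    · exact absurd rfl hik
    · exact g3
    · exact fun e => g2 (relsymm _ _ e)
    · exact fun e => g3 (relsymm _ _ e)
    · exact absurd rfl hik
  have hqinj : ∀ i k, q i = q k → i = k := by
    intro i k hik
    fin_cases i <;> fin_cases k
    · rfl
    · exact absurd hik hne'
    · exact absurd hik (Ne.symm k1)
    · exact absurd hik.symm hne'
    · rfl
    · exact absurd hik (Ne.symm k2)
    · exact absurd hik.symm (Ne.symm k1)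
    · exact absurd hik.symm (Ne.symm k2)
    · rfl
  refine hasGrid_of_array (fun i j => t j (q i)) ?_ (fun i => hSB _ (hqS i)) ?_
  · intro i j k l he
    change t j (q i) = t l (q k) at he
    by_cases hik : i = k
    · subst hik
      exact ⟨rfl, hinj _ (hqS i) he⟩
    · by_cases hjl : j = l
      · subst hjl
        exact absurd (hqinj i k ((t j).injective he)) hik
      · exact absurd ⟨j, l, hjl, he⟩ (hqrel i k hik)
  · intro j
    have h1 := ht j _ hb
    rw [image_insert, image_insert, image_singleton] at h1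
    exact h1

end Pool.Agent.Hhelper49.Core9
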