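import Mathlib
import Pool.Agent.Hhelper49.Core9.Basic

/-!
Counting triangles coloured by a subsystem.
-/

namespace Pool.Agent.Hhelper49.Core9

open Finset

namespace SQ

variable {V : Type*} [Fintype V] [DecidableEq V] {m : V → V → V}

/-- Total number of fixed points of words of length three with letters in `W`. -/
def tot (m : V → V → V) (W : Finset V) : ℤ :=
  ∑ a ∈ W, ∑ b ∈ W, ∑ c ∈ W, ∑ x : V, if m c (m b (m a x)) = x then (1 : ℤ) else 0

theorem sum_c (h : SQ m) (W : Finset V) (a b x : V) :
    (∑ c ∈ W, if m c (m b (m a x)) = x then (1 : ℤ) else 0) =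
      if m x (m b (m a x)) ∈ W then 1 else 0 := by
  have : ∀ c, (m c (m b (m a x)) = x) ↔ (c = m x (m b (m a x))) := by
    intro c
    constructor
    · intro e
      rw [h.comm]
      exact (h.rot e).symm
    · intro e
      rw [e]
      exact h.inv' _ _
  simp only [this]
  rw [Finset.sum_ite_eq' W (m x (m b (m a x))) (fun _ => (1 : ℤ))]

theorem tot_eq (h : SQ m) (W : Finset V) :
    tot m W = ∑ x : V, ∑ a ∈ W, ∑ b ∈ W, if m x (m b (m a x)) ∈ W then (1 : ℤ) else 0 := by
  unfold tot
  rw [Finset.sum_comm]
  have : ∀ b ∈ W, (∑ a ∈ W, ∑ c ∈ W, ∑ x : V, if m c (m b (m a x)) = x then (1 : ℤ) else 0)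
      = ∑ x : V, ∑ a ∈ W, if m x (m b (m a x)) ∈ W then (1 : ℤ) else 0 := by
    intro b _
    rw [Finset.sum_comm (s := (univ : Finset V)) (t := W)]
    refine Finset.sum_congr rfl fun a _ => ?_
    rw [Finset.sum_comm]
    refine Finset.sum_congr rfl fun x _ => ?_
    exact h.sum_c W a b x
  rw [Finset.sum_congr rfl this, Finset.sum_comm]
  refine Finset.sum_congr rfl fun x _ => ?_
  rw [Finset.sum_comm]

/-- common neighbours -/
theorem codeg (h : SQ m) (W : Finset V) (hW : ∀ a ∈ W, ∀ b ∈ W, m a b ∈ W) (x y : V)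
    (hx : x ∉ W) (hy : y ∉ W) :
    2 * (W.card : ℤ) - (Fintype.card V - W.card) ≤
      ∑ b ∈ W, if m x (m b y) ∈ W then (1 : ℤ) else 0 := by
  rw [← Finset.sum_filter, Finset.sum_const, nsmul_eq_mul, mul_one]
  set A := W.image (fun s => m s y) with hA
  set B := W.image (fun s => m s x) with hB
  have cA : A.card = W.card := Finset.card_image_of_injective _ fun s t e => h.cancel' e
  have cB : B.card = W.card := Finset.card_image_of_injective _ fun s t e => h.cancel' e
  have hout : ∀ z ∉ W, ∀ s ∈ W, m s z ∉ W := by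
    intro z hz s hs hm
    apply hz
    have := hW s hs _ hm
    rwa [h.inv] at this
  have hAB : A ∪ B ⊆ Wᶜ := by
    intro u hu
    rw [Finset.mem_compl]
    rcases Finset.mem_union.1 hu with hu | hu
    · obtain ⟨s, hs, rfl⟩ := Finset.mem_image.1 hu
      exact hout y hy s hs
    · obtain ⟨s, hs, rfl⟩ := Finset.mem_image.1 hu
      exact hout x hx s hs
  have c1 : (A ∪ B).card + (A ∩ B).card = A.card + B.card := Finset.card_union_add_card_inter _ _
  have c2 := Finset.card_le_card hAB
  rw [Finset.card_compl] at c2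
  have c3 : (A ∩ B).card ≤ (W.filter fun b => m x (m b y) ∈ W).card := by
    have : A ∩ B ⊆ (W.filter fun b => m x (m b y) ∈ W).image (fun s => m s y) := by
      intro u hu
      obtain ⟨hu1, hu2⟩ := Finset.mem_inter.1 hu
      obtain ⟨b, hb, rfl⟩ := Finset.mem_image.1 hu1
      obtain ⟨s, hs, e⟩ := Finset.mem_image.1 hu2
      refine Finset.mem_image.2 ⟨b, Finset.mem_filter.2 ⟨hb, ?_⟩, rfl⟩
      have e' : m s x = m b y := e
      rw [← e', h.comm s x, h.inv]
      exact hs
    exact (Finset.card_le_card this).trans Finset.card_image_le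
  have c4 : W.card ≤ Fintype.card V := Finset.card_le_univ W
  omega

theorem tot_ge (h : SQ m) (W : Finset V) (hW : ∀ a ∈ W, ∀ b ∈ W, m a b ∈ W) :
    (W.card : ℤ) ^ 3 + (Fintype.card V - W.card) * W.card *
      (2 * (W.card : ℤ) - (Fintype.card V - W.card)) ≤ tot m W := by
  rw [h.tot_eq]
  rw [← Finset.sum_add_sum_compl W]
  have e1 : ∀ x ∈ W, (∑ a ∈ W, ∑ b ∈ W, if m x (m b (m a x)) ∈ W then (1 : ℤ) else 0)
      = (W.card : ℤ) ^ 2 := by
    intro x hx
    have : ∀ a ∈ W, ∀ b ∈ W, (if m x (m b (m a x)) ∈ W then (1 : ℤ) else 0) = 1 := by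
      intro a ha b hb
      rw [if_pos]
      exact hW _ hx _ (hW _ hb _ (hW _ ha _ hx))
    rw [Finset.sum_congr rfl fun a ha => Finset.sum_congr rfl (this a ha)]
    simp
    ring
  rw [Finset.sum_congr rfl e1]
  have e2 : ∀ x ∈ Wᶜ, (W.card : ℤ) * (2 * (W.card : ℤ) - (Fintype.card V - W.card)) ≤
      ∑ a ∈ W, ∑ b ∈ W, if m x (m b (m a x)) ∈ W then (1 : ℤ) else 0 := by
    intro x hx
    rw [Finset.mem_compl] at hx
    have : ∀ a ∈ W, 2 * (W.card : ℤ) - (Fintype.card V - W.card) ≤
        ∑ b ∈ W, if m x (m b (m a x)) ∈ W then (1 : ℤ) else 0 := by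
      intro a ha
      refine h.codeg W hW x (m a x) hx ?_
      intro hm
      apply hx
      have := hW a ha _ hm
      rwa [h.inv] at this
    calc (W.card : ℤ) * (2 * (W.card : ℤ) - (Fintype.card V - W.card))
        = ∑ a ∈ W, (2 * (W.card : ℤ) - (Fintype.card V - W.card)) := by
          rw [Finset.sum_const, nsmul_eq_mul]
      _ ≤ _ := Finset.sum_le_sum this
  have e3 := Finset.sum_le_sum e2
  have e4 : (∑ x ∈ Wᶜ, (W.card : ℤ) * (2 * (W.card : ℤ) - (Fintype.card V - W.card))) =
      (Fintype.card V - W.card) * W.card * (2 * (W.card : ℤ) - (Fintype.card V - W.card)) := by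
    rw [Finset.sum_const, Finset.card_compl, nsmul_eq_mul,
      Nat.cast_sub (Finset.card_le_univ W)]
    ring
  rw [e4] at e3
  have e5 : (∑ x ∈ W, (W.card : ℤ) ^ 2) = (W.card : ℤ) ^ 3 := by
    rw [Finset.sum_const, nsmul_eq_mul]
    ring
  rw [e5]
  linarith

/-- noncollinear letters -/
def nc (m : V → V → V) (a b c : V) : Prop := a ≠ b ∧ b ≠ c ∧ a ≠ c ∧ c ≠ m a b

instance (a b c : V) : Decidable (nc m a b c) := by unfold nc; infer_instance

/-- fixed points -/
def fx (m : V → V → V) (a b c x : V) : Prop := m c (m b (m a x)) = x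

instance (a b c x : V) : Decidable (fx m a b c x) := by unfold fx; infer_instance

def P12 (m : V → V → V) (a b c x : V) : Prop := nc m a b c ∧ fx m a b c x ∧ fx m a b c (m a x)

instance (a b c x : V) : Decidable (P12 m a b c x) := by unfold P12; infer_instance

/-- nondegenerate fixed points over a line -/
def ns (m : V → V → V) (a b x : V) : Prop := x ≠ b ∧ m (m a b) (m b (m a x)) = x

instance (a b x : V) : Decidable (ns m a b x) := by unfold ns; infer_instance

def ncf (m : V → V → V) (a b x : V) : Prop := ns m a b x ∧ m x b ≠ m a (m x (m a b))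

instance (a b x : V) : Decidable (ncf m a b x) := by unfold ncf; infer_instance

theorem deg1 (h : SQ m) (a c : V) :
    (∑ x : V, if m c (m a (m a x)) = x then (1 : ℤ) else 0) = 1 := by
  have : ∀ x, (m c (m a (m a x)) = x) ↔ x = c := by
    intro x
    rw [h.inv]
    constructor
    · intro e; exact (h.eq_right e).symm
    · rintro rfl; exact h.idem _
  simp [this]

theorem deg2 (h : SQ m) (a c : V) :
    (∑ x : V, if m c (m c (m a x)) = x then (1 : ℤ) else 0) = 1 := by
  have : ∀ x, (m c (m c (m a x)) = x) ↔ x = a := by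
    intro x
    rw [h.inv]
    constructor
    · intro e; exact (h.eq_right e).symm
    · rintro rfl; exact h.idem _
  simp [this]

theorem deg3 (h : SQ m) (a b : V) :
    (∑ x : V, if m a (m b (m a x)) = x then (1 : ℤ) else 0) = 1 := by
  have : ∀ x, (m a (m b (m a x)) = x) ↔ x = m a b := by
    intro x
    constructor
    · intro e
      have e1 := h.swap e
      have e2 := h.eq_right e1.symm
      rw [e2, h.inv]
    · rintro rfl
      rw [h.inv, h.idem]
  simp [this]

theorem coll (h : SQ m) {a b : V} (hab : a ≠ b) :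
    (∑ x : V, if m (m a b) (m b (m a x)) = x then (1 : ℤ) else 0) =
      1 + ∑ x : V, if ns m a b x then (1 : ℤ) else 0 := by
  have : ∀ x, (if m (m a b) (m b (m a x)) = x then (1 : ℤ) else 0) =
      (if x = b then 1 else 0) + if ns m a b x then (1 : ℤ) else 0 := by
    intro x
    by_cases hx : x = b
    · subst hx
      have : m (m a x) (m x (m a x)) = x := by rw [h.comm x, h.inv', h.inv'']
      rw [if_pos this, if_pos rfl, if_neg (fun k => k.1 rfl)]
      rfl
    · rw [if_neg hx]
      by_cases hf : m (m a b) (m b (m a x)) = x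
      · rw [if_pos hf, if_pos ⟨hx, hf⟩]; rfl
      · rw [if_neg hf, if_neg (fun k => hf k.2)]; rfl
  rw [Finset.sum_congr rfl fun x _ => this x, Finset.sum_add_distrib]
  simp

/-- Bound for noncollinear letters. -/
theorem ncb (h : SQ m) (hp : NoPrism m) {a b c : V} (hn : nc m a b c) :
    2 * ((∑ x : V, if m c (m b (m a x)) = x then (1 : ℤ) else 0) - 1) ≤
      ∑ x : V, ((if P12 m a b c x then (1 : ℤ) else 0) +
        (if P12 m c a b (m c x) then (1 : ℤ) else 0) +
        if P12 m b c a (m a x) then (1 : ℤ) else 0) := by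
  obtain ⟨hab, hbc, hac, hc⟩ := hn
  set S : Finset V := univ.filter fun x => m c (m b (m a x)) = x with hS
  have hcard : (∑ x : V, if m c (m b (m a x)) = x then (1 : ℤ) else 0) = S.card := by
    rw [← Finset.sum_filter, Finset.sum_const, nsmul_eq_mul, mul_one]
  rw [hcard]
  have hxb : ∀ x ∈ S, x ≠ b := by
    intro x hx e
    have hx' := (Finset.mem_filter.1 hx).2
    subst e
    apply hc
    rw [h.comm x, h.inv'] at hx'
    rw [h.comm a]
    exact (h.rot hx').symm.trans (h.comm _ _)
  have hnc : nc m a b c := ⟨hab, hbc, hac, hc⟩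
  have hnc2 : nc m c a b := by
    refine ⟨hac.symm, hab, hbc.symm, ?_⟩
    intro e; apply hc; rw [e, h.comm c a, h.inv]
  have hnc3 : nc m b c a := by
    refine ⟨hbc, hac.symm, hab.symm, ?_⟩
    intro e; apply hc; rw [e, h.inv'']
  have key : ∀ x ∈ S, ((S.erase x).card : ℤ) ≤ ((if P12 m a b c x then (1 : ℤ) else 0) +
        (if P12 m c a b (m c x) then (1 : ℤ) else 0) +
        if P12 m b c a (m a x) then (1 : ℤ) else 0) := by
    intro x hx
    have hx' := (Finset.mem_filter.1 hx).2
    have hz : m c x = m b (m a x) := h.swap hx'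
    have hsub : S.erase x ⊆ ((if P12 m a b c x then ({m a x} : Finset V) else ∅) ∪
        (if P12 m c a b (m c x) then ({m c x} : Finset V) else ∅)) ∪
        (if P12 m b c a (m a x) then ({m a (m c x)} : Finset V) else ∅) := by
      intro x' hx1
      obtain ⟨hne, hxS⟩ := Finset.mem_erase.1 hx1
      have hx2 := (Finset.mem_filter.1 hxS).2
      rcases h.tri hp hab hbc hac hx' hx2 (hxb x hx) (hxb x' hxS) (Ne.symm hne) with e | e | e
      · have : P12 m a b c x := by
          refine ⟨hnc, hx', ?_⟩
          rw [← e]; exact hx2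
        rw [if_pos this]
        simp [e]
      · have : P12 m c a b (m c x) := by
          refine ⟨hnc2, ?_, ?_⟩
          · show m b (m a (m c (m c x))) = m c x
            rw [h.inv, hz]
          · show m b (m a (m c (m c (m c x)))) = m c (m c x)
            rw [h.inv, h.inv]
            rw [e] at hx2
            exact h.cancel hx2
        rw [if_pos this]
        simp [e]
      · have : P12 m b c a (m a x) := by
          refine ⟨hnc3, ?_, ?_⟩
          · show m a (m c (m b (m a x))) = m a x
            rw [hx']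
          · show m a (m c (m b (m b (m a x)))) = m b (m a x)
            rw [h.inv]
            rw [e, h.inv, hz, h.inv, ← hz] at hx2
            rw [← hz, hx2, h.inv]
        rw [if_pos this]
        simp [e]
    have c1 := Finset.card_le_card hsub
    have c2 := Finset.card_union_le ((if P12 m a b c x then ({m a x} : Finset V) else ∅) ∪
        (if P12 m c a b (m c x) then ({m c x} : Finset V) else ∅))
        (if P12 m b c a (m a x) then ({m a (m c x)} : Finset V) else ∅)
    have c3 := Finset.card_union_le (if P12 m a b c x then ({m a x} : Finset V) else ∅)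
        (if P12 m c a b (m c x) then ({m c x} : Finset V) else ∅)
    have d1 : (if P12 m a b c x then ({m a x} : Finset V) else ∅).card =
        if P12 m a b c x then 1 else 0 := by split_ifs <;> simp
    have d2 : (if P12 m c a b (m c x) then ({m c x} : Finset V) else ∅).card =
        if P12 m c a b (m c x) then 1 else 0 := by split_ifs <;> simp
    have d3 : (if P12 m b c a (m a x) then ({m a (m c x)} : Finset V) else ∅).card =
        if P12 m b c a (m a x) then 1 else 0 := by split_ifs <;> simp
    rw [d1, d2] at c3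
    rw [d3] at c2
    have : (S.erase x).card ≤ (if P12 m a b c x then 1 else 0) +
        (if P12 m c a b (m c x) then 1 else 0) + (if P12 m b c a (m a x) then 1 else 0) := by
      omega
    exact_mod_cast this
  have sumkey := Finset.sum_le_sum key
  have e1 : (∑ x ∈ S, ((S.erase x).card : ℤ)) = S.card * (S.card - 1) := by
    have : ∀ x ∈ S, ((S.erase x).card : ℤ) = (S.card : ℤ) - 1 := by
      intro x hx
      rw [Finset.card_erase_of_mem hx, Nat.cast_sub (Finset.card_pos.2 ⟨x, hx⟩)]
      simp
    rw [Finset.sum_congr rfl this, Finset.sum_const, nsmul_eq_mul]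
  rw [e1] at sumkey
  have e2 : (∑ x ∈ S, ((if P12 m a b c x then (1 : ℤ) else 0) +
        (if P12 m c a b (m c x) then (1 : ℤ) else 0) +
        if P12 m b c a (m a x) then (1 : ℤ) else 0)) ≤
      ∑ x : V, ((if P12 m a b c x then (1 : ℤ) else 0) +
        (if P12 m c a b (m c x) then (1 : ℤ) else 0) +
        if P12 m b c a (m a x) then (1 : ℤ) else 0) := by
    refine Finset.sum_le_sum_of_subset_of_nonneg (Finset.subset_univ S) ?_
    intro x _ _
    split_ifs <;> norm_num
  have e3 : 2 * ((S.card : ℤ) - 1) ≤ S.card * (S.card - 1) := by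
    rcases Nat.lt_or_ge S.card 2 with h2 | h2
    · interval_cases S.card <;> norm_num
    · have : (2 : ℤ) ≤ S.card := by exact_mod_cast h2
      nlinarith
  linarith

end SQ

end Pool.Agent.Hhelper49.Core9
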