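import Mathlib
import Pool.Agent.Hhelper49.Core9.Defs
import Pool.Agent.Hhelper49.Core9.GridDefs
import Pool.Agent.Hhelper49.Core9.Trans
import Pool.Agent.Hhelper49.Core9.TwoGroup

/-!
In a Steiner triple system without prism and Pasch configuration the number of common fixed
points of a 2-group of automorphisms divides the order.
-/

namespace Pool.Agent.Hhelper49.Core9

open Finset

variable {V : Type*} {m : V → V → V}

/-- No Pasch configuration. -/
def NoPasch (m : V → V → V) : Prop :=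
  ∀ a b c x y z : V, m x y = a → m y z = b → m z x = c → m a b = c →
    ¬ [a, b, c, x, y, z].Nodup

/-- The data of a point `x` moved by the involution, with `x ∘ σ x = c`, and of a fixed point
`w` other than `c`. -/
structure Cell (m : V → V → V) (σ : V → V) (c x w : V) : Prop where
  cc : σ c = c
  xx : σ (σ x) = x
  nx : σ x ≠ x
  xc : m x (σ x) = c
  ww : σ w = w
  wc : w ≠ c
  aa : σ (σ (m x w)) = m x w

namespace Cell

variable {σ : V → V} {c x w : V}

theorem na (h : SQ m) (hhom : ∀ x y, σ (m x y) = m (σ x) (σ y)) (C : Cell m σ c x w) :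
    σ (m x w) ≠ m x w := by
  intro e
  rw [hhom, C.ww] at e
  exact C.nx (h.cancel' e)

theorem sa (hhom : ∀ x y, σ (m x y) = m (σ x) (σ y)) (C : Cell m σ c x w) :
    σ (m x w) = m (σ x) w := by
  rw [hhom, C.ww]

theorem xw (C : Cell m σ c x w) : x ≠ w := by
  intro e
  apply C.nx
  rw [e, C.ww]

theorem sxw (C : Cell m σ c x w) : σ x ≠ w := by
  intro e
  apply C.xw
  rw [← C.xx, e, C.ww]

theorem xnc (C : Cell m σ c x w) : x ≠ c := by
  intro e
  apply C.nx
  rw [e, C.cc]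

theorem sxc (C : Cell m σ c x w) : σ x ≠ c := by
  intro e
  apply C.xnc
  rw [← C.xx, e, C.cc]

theorem ax (h : SQ m) (C : Cell m σ c x w) : m x w ≠ x := by
  intro e
  exact C.xw (h.eq_left e)

theorem asx (h : SQ m) (C : Cell m σ c x w) : m x w ≠ σ x := by
  intro e
  apply C.wc
  rw [← C.xc, ← e, h.inv]

theorem sasx (h : SQ m) (C : Cell m σ c x w) : σ (m x w) ≠ σ x := by
  intro e
  apply C.ax h
  have := congrArg σ e
  rw [C.aa, C.xx] at this
  exact this

theorem sax (h : SQ m) (C : Cell m σ c x w) : σ (m x w) ≠ x := by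
  intro e
  apply C.asx h
  have := congrArg σ e
  rw [C.aa] at this
  exact this

end Cell

theorem ne_of_fix {σ : V → V} {u v : V} (hu : σ u = u) (hv : σ v ≠ v) : u ≠ v := by
  rintro rfl
  exact hv hu

/-- The product of a moved point over `c` with a fixed point other than `c` is not over `c`. -/
theorem Cell.not_over {σ : V → V} {c x w : V} (h : SQ m) (hP : NoPasch m)
    (hhom : ∀ x y, σ (m x y) = m (σ x) (σ y)) (C : Cell m σ c x w) :
    m (m x w) (σ (m x w)) ≠ c := by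
  intro e
  have hsx : σ (σ x) ≠ σ x := by
    rw [C.xx]; exact Ne.symm C.nx
  have hsa : σ (σ (m x w)) ≠ σ (m x w) := by
    rw [C.aa]; exact Ne.symm (C.na h hhom)
  have hna := C.na h hhom
  refine hP x w (m x w) c (σ x) (σ (m x w)) ?_ ?_ ?_ rfl ?_
  · rw [h.comm]; exact h.rot C.xc
  · rw [C.sa hhom, h.inv]
  · exact h.rot e
  · simp only [List.nodup_cons, List.mem_cons, List.not_mem_nil, or_false, not_or,
      List.nodup_nil, not_false_eq_true, and_true]
    exact ⟨⟨C.xw, Ne.symm (C.ax h), C.xnc, Ne.symm C.nx, Ne.symm (C.sax h)⟩,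
      ⟨ne_of_fix C.ww hna, C.wc, Ne.symm C.sxw, ne_of_fix C.ww hsa⟩,
      ⟨Ne.symm (ne_of_fix C.cc hna), C.asx h, Ne.symm hna⟩,
      ⟨Ne.symm C.sxc, ne_of_fix C.cc hsa⟩, Ne.symm (C.sasx h)⟩

/-- The products are distinct. -/
theorem Cell.inj {σ : V → V} {c x w x' w' : V} (h : SQ m) (hp : NoPrism m) (hP : NoPasch m)
    (hhom : ∀ x y, σ (m x y) = m (σ x) (σ y)) (C : Cell m σ c x w) (C' : Cell m σ c x' w')
    (e : m x w = m x' w') : x = x' ∧ w = w' := by
  by_cases hx : x = x'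
  · subst hx
    exact ⟨rfl, h.cancel e⟩
  exfalso
  have hw : w ≠ w' := by
    rintro rfl
    exact hx (h.cancel' e)
  have hsx : σ (σ x) ≠ σ x := by
    rw [C.xx]; exact Ne.symm C.nx
  have hsx' : σ (σ x') ≠ σ x' := by
    rw [C'.xx]; exact Ne.symm C'.nx
  have hsa : σ (σ (m x w)) ≠ σ (m x w) := by
    rw [C.aa]; exact Ne.symm (C.na h hhom)
  have hna := C.na h hhom
  by_cases hs : x' = σ x
  · -- a Pasch configuration
    have e1 : m (σ x) w' = m x w := by rw [e, hs]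
    have e2 : m x w' = σ (m x w) := by
      rw [← e1, hhom, C.xx, C'.ww]
    refine hP x w (m x w) w' (σ (m x w)) (σ x) ?_ ?_ ?_ rfl ?_
    · exact h.rot e2
    · rw [C.sa hhom, h.inv'']
    · exact e1
    · simp only [List.nodup_cons, List.mem_cons, List.not_mem_nil, or_false, not_or,
        List.nodup_nil, not_false_eq_true, and_true]
      exact ⟨⟨C.xw, Ne.symm (C.ax h), Ne.symm (ne_of_fix C'.ww C.nx), Ne.symm (C.sax h),
          Ne.symm C.nx⟩,
        ⟨ne_of_fix C.ww hna, hw, ne_of_fix C.ww hsa, Ne.symm C.sxw⟩,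
        ⟨Ne.symm (ne_of_fix C'.ww hna), Ne.symm hna, C.asx h⟩,
        ⟨ne_of_fix C'.ww hsa, ne_of_fix C'.ww hsx⟩, C.sasx h⟩
  · -- a prism
    have hs2 : x ≠ σ x' := by
      intro e3
      apply hs
      rw [e3, C'.xx]
    have hs3 : σ x ≠ σ x' := by
      intro e3
      apply hx
      rw [← C.xx, e3, C'.xx]
    refine hp c (σ (m x w)) (m x w) x (σ x) w x' (σ x') w' C.xc ?_ ?_ C'.xc ?_ ?_ ?_
    · exact (C.sa hhom).symm
    · exact h.comm _ _
    · rw [e]; exact (C'.sa hhom).symm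
    · rw [e]; exact h.comm _ _
    · simp only [List.nodup_cons, List.mem_cons, List.not_mem_nil, or_false, not_or,
        List.nodup_nil, not_false_eq_true, and_true]
      refine ⟨⟨ne_of_fix C.cc hsa, ne_of_fix C.cc hna, Ne.symm C.xnc, Ne.symm C.sxc,
          Ne.symm C.wc, Ne.symm C'.xnc, Ne.symm C'.sxc, Ne.symm C'.wc⟩,
        ⟨hna, C.sax h, C.sasx h, Ne.symm (ne_of_fix C.ww hsa), ?_, ?_,
          Ne.symm (ne_of_fix C'.ww hsa)⟩,
        ⟨C.ax h, C.asx h, Ne.symm (ne_of_fix C.ww hna), ?_, ?_,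
          Ne.symm (ne_of_fix C'.ww hna)⟩,
        ⟨Ne.symm C.nx, C.xw, hx, hs2, Ne.symm (ne_of_fix C'.ww C.nx)⟩,
        ⟨C.sxw, Ne.symm hs, hs3, Ne.symm (ne_of_fix C'.ww hsx)⟩,
        ⟨ne_of_fix C.ww C'.nx, ne_of_fix C.ww hsx', hw⟩,
        ⟨Ne.symm C'.nx, C'.xw⟩, C'.sxw⟩
      · rw [e]; exact C'.sax h
      · rw [e]; exact C'.sasx h
      · rw [e]; exact C'.ax h
      · rw [e]; exact C'.asx h

/-- The fibres of `x ↦ x ∘ σ x` are small. -/
theorem fiber_mul_le [DecidableEq V] (h : SQ m) (hp : NoPrism m) (hP : NoPasch m)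
    (U : Finset V) (hU : ∀ x ∈ U, ∀ y ∈ U, m x y ∈ U) (σ : V → V)
    (hhom : ∀ x y, σ (m x y) = m (σ x) (σ y))
    (hinv : ∀ x ∈ U, σ (σ x) = x) (c : V) (hc : c ∈ U) (hcσ : σ c = c) :
    (U.filter fun x => σ x ≠ x ∧ m x (σ x) = c).card * (U.filter fun x => σ x = x).card ≤
      (U.filter fun x => σ x ≠ x).card := by
  classical
  set F := U.filter fun x => σ x = x with hF
  set S := U.filter fun x => σ x ≠ x ∧ m x (σ x) = c with hS
  set N := U.filter fun x => σ x ≠ x with hN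
  have hSN : S ⊆ N := by
    intro x hx
    rw [hS, Finset.mem_filter] at hx
    rw [hN, Finset.mem_filter]
    exact ⟨hx.1, hx.2.1⟩
  have hcF : c ∈ F := Finset.mem_filter.2 ⟨hc, hcσ⟩
  have hcell : ∀ p ∈ S ×ˢ F.erase c, Cell m σ c p.1 p.2 ∧ p.1 ∈ U ∧ p.2 ∈ U := by
    rintro ⟨x, w⟩ hp
    rw [Finset.mem_product, hS, Finset.mem_filter, Finset.mem_erase, hF, Finset.mem_filter] at hp
    obtain ⟨⟨h1, h2, h3⟩, h4, h5, h6⟩ := hp
    exact ⟨⟨hcσ, hinv x h1, h2, h3, h6, h4, hinv _ (hU _ h1 _ h5)⟩, h1, h5⟩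
  have hle : (S ×ˢ F.erase c).card ≤ (N \ S).card := by
    apply Finset.card_le_card_of_injOn (fun p => m p.1 p.2)
    · intro p hpm
      obtain ⟨C, h1, h2⟩ := hcell p (Finset.mem_coe.1 hpm)
      apply Finset.mem_coe.2
      rw [Finset.mem_sdiff]
      refine ⟨Finset.mem_filter.2 ⟨hU _ h1 _ h2, C.na h hhom⟩, ?_⟩
      intro hcon
      exact C.not_over h hP hhom (Finset.mem_filter.1 hcon).2.2
    · intro p hpm q hqm e
      obtain ⟨C, _, _⟩ := hcell p (Finset.mem_coe.1 hpm)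
      obtain ⟨C', _, _⟩ := hcell q (Finset.mem_coe.1 hqm)
      obtain ⟨e1, e2⟩ := C.inj h hp hP hhom C' e
      exact Prod.ext e1 e2
  rw [Finset.card_product, Finset.card_erase_of_mem hcF, Finset.card_sdiff_of_subset hSN] at hle
  have h1 := Finset.card_le_card hSN
  have h2 : 0 < F.card := Finset.card_pos.2 ⟨c, hcF⟩
  obtain ⟨k, hk⟩ : ∃ k, F.card = k + 1 := ⟨F.card - 1, by omega⟩
  rw [hk] at hle ⊢
  rw [Nat.add_sub_cancel] at hle
  rw [mul_add, mul_one]
  omega

/-- The number of fixed points of an involution on a closed set divides the size of the set. -/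
theorem dvd_of_invol [DecidableEq V] (h : SQ m) (hp : NoPrism m) (hP : NoPasch m)
    (U : Finset V) (hU : ∀ x ∈ U, ∀ y ∈ U, m x y ∈ U) (σ : V → V)
    (hhom : ∀ x y, σ (m x y) = m (σ x) (σ y)) (hσ : ∀ x ∈ U, σ x ∈ U)
    (hinv : ∀ x ∈ U, σ (σ x) = x) (hne : U.Nonempty) :
    (U.filter fun x => σ x = x).card ∣ U.card := by
  classical
  have hfix : ∀ x ∈ U, σ (m x (σ x)) = m x (σ x) := by
    intro x hx
    rw [hhom, hinv x hx, h.comm]
  set F := U.filter fun x => σ x = x with hF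
  set N := U.filter fun x => σ x ≠ x with hN
  have hsum : N.card = ∑ c ∈ F, (U.filter fun x => σ x ≠ x ∧ m x (σ x) = c).card := by
    rw [Finset.card_eq_sum_card_fiberwise (f := fun x => m x (σ x)) (s := N) (t := F)]
    · apply Finset.sum_congr rfl
      intro c _
      congr 1
      rw [hN, Finset.filter_filter]
    · intro x hx
      have hx' := Finset.mem_filter.1 (Finset.mem_coe.1 hx)
      exact Finset.mem_coe.2 (Finset.mem_filter.2 ⟨hU _ hx'.1 _ (hσ _ hx'.1), hfix x hx'.1⟩)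
  have hbound : ∀ c ∈ F, (U.filter fun x => σ x ≠ x ∧ m x (σ x) = c).card * F.card ≤ N.card := by
    intro c hc
    have hc' := Finset.mem_filter.1 hc
    exact fiber_mul_le h hp hP U hU σ hhom hinv c hc'.1 hc'.2
  have htot : ∑ c ∈ F, (U.filter fun x => σ x ≠ x ∧ m x (σ x) = c).card * F.card
      = ∑ _c ∈ F, N.card := by
    rw [← Finset.sum_mul, ← hsum, Finset.sum_const, smul_eq_mul, mul_comm]
  have heq := (Finset.sum_eq_sum_iff_of_le hbound).1 htot
  obtain ⟨x, hx⟩ := hne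
  have hcF : m x (σ x) ∈ F := Finset.mem_filter.2 ⟨hU _ hx _ (hσ _ hx), hfix x hx⟩
  have h1 := heq _ hcF
  have h2 : F.card ∣ N.card := ⟨_, by rw [← h1, mul_comm]⟩
  have h3 : F.card + N.card = U.card := Finset.card_filter_add_card_filter_not _
  rw [← h3]
  exact dvd_add (dvd_refl _) h2

/-- One step up in a 2-group of permutations. -/
theorem exists_step [Fintype V] [DecidableEq V] (Γ : Subgroup (Equiv.Perm V))
    (h2 : IsPGroup 2 Γ) (K : Subgroup (Equiv.Perm V)) (hKΓ : K ≤ Γ)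
    (hKne : Nat.card K ≠ Nat.card Γ) :
    ∃ K' ≤ Γ, ∃ γ ∈ Γ, Nat.card K < Nat.card K' ∧ (∀ x ∈ commonFixed K, γ (γ x) = x) ∧
      (∀ x ∈ commonFixed K, γ x ∈ commonFixed K) ∧
      ∀ x, x ∈ commonFixed K' ↔ x ∈ commonFixed K ∧ γ x = x := by
  classical
  have : Fact (Nat.Prime 2) := ⟨Nat.prime_two⟩
  let K0 : Subgroup Γ := K.subgroupOf Γ
  have hK0 : Nat.card K0 = Nat.card K := Nat.card_congr (Subgroup.subgroupOfEquivOfLe hKΓ).toEquiv
  obtain ⟨l, hl⟩ := (IsPGroup.iff_card.1 h2)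
  obtain ⟨k, hk⟩ := (IsPGroup.iff_card.1 (h2.to_subgroup K0))
  have hkl : k < l := by
    have h1 : Nat.card K0 ∣ Nat.card Γ := Subgroup.card_subgroup_dvd_card K0
    rw [hk, hl] at h1
    have h4 : k ≤ l := (Nat.pow_dvd_pow_iff_le_right (by norm_num)).1 h1
    rcases Nat.lt_or_ge k l with h5 | h5
    · exact h5
    · exfalso
      apply hKne
      rw [← hK0, hk, hl, le_antisymm h4 h5]
  have hdvd : 2 ^ (k + 1) ∣ Nat.card Γ := by
    rw [hl]
    exact pow_dvd_pow 2 hkl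
  obtain ⟨K1, hK1, hle⟩ := Sylow.exists_subgroup_card_pow_succ hdvd hk
  have hidx : (K0.subgroupOf K1).index = 2 := by
    have h1 := Subgroup.card_mul_index (K0.subgroupOf K1)
    have h4 : Nat.card (K0.subgroupOf K1) = Nat.card K0 :=
      Nat.card_congr (Subgroup.subgroupOfEquivOfLe hle).toEquiv
    rw [h4, hk, hK1, pow_succ] at h1
    exact Nat.eq_of_mul_eq_mul_left (by positivity) h1
  obtain ⟨g, hg1, hg0⟩ : ∃ g ∈ K1, g ∉ K0 := by
    by_contra hcon
    push Not at hcon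
    have h1 : K1 ≤ K0 := hcon
    have h4 := Subgroup.card_le_of_le h1
    rw [hk, hK1] at h4
    have := Nat.pow_lt_pow_right (show 1 < 2 by norm_num) (Nat.lt_succ_self k)
    omega
  have hnorm : (K0.subgroupOf K1).Normal := Subgroup.normal_of_index_eq_two hidx
  have hsq : ∀ a ∈ K1, ∀ b ∈ K1, a ∉ K0 → b ∉ K0 → a * b ∈ K0 := by
    intro a ha b hb ha' hb'
    have := (Subgroup.mul_mem_iff_of_index_two hidx (a := (⟨a, ha⟩ : K1)) (b := ⟨b, hb⟩)).2
      (by
        constructor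
        · intro hh
          exact absurd (Subgroup.mem_subgroupOf.1 hh) ha'
        · intro hh
          exact absurd (Subgroup.mem_subgroupOf.1 hh) hb')
    exact Subgroup.mem_subgroupOf.1 this
  have hmemK : ∀ a : Γ, a ∈ K0 ↔ (a : Equiv.Perm V) ∈ K := fun a => Subgroup.mem_subgroupOf
  refine ⟨K1.map Γ.subtype, ?_, (g : Equiv.Perm V), g.2, ?_, ?_, ?_, ?_⟩
  · rintro _ ⟨a, _, rfl⟩
    exact a.2
  · have hc : Nat.card (K1.map Γ.subtype) = 2 ^ (k + 1) := by
      rw [← hK1]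
      exact Nat.card_congr (K1.equivMapOfInjective Γ.subtype Γ.subtype_injective).symm.toEquiv
    rw [hc, ← hK0, hk]
    exact Nat.pow_lt_pow_right (by norm_num) (Nat.lt_succ_self k)
  · intro x hx
    have h1 := hsq g hg1 g hg1 hg0 hg0
    rw [hmemK] at h1
    exact hx _ h1
  · intro x hx σ hσ
    have hσ0 : (⟨σ, hKΓ hσ⟩ : Γ) ∈ K0 := (hmemK _).2 hσ
    have h1 := hnorm.conj_mem (⟨⟨σ, hKΓ hσ⟩, hle hσ0⟩ : K1) (Subgroup.mem_subgroupOf.2 hσ0)
      (⟨g, hg1⟩⁻¹ : K1)
    have h4 := (hmemK _).1 (Subgroup.mem_subgroupOf.1 h1)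
    have h5 := hx _ h4
    let γ : Equiv.Perm V := (g : Equiv.Perm V)
    have h6 : (γ⁻¹ * σ * γ) x = x := by
      have : (γ⁻¹ * σ * γ) = (γ⁻¹ * σ * γ⁻¹⁻¹) := by rw [inv_inv]
      rw [this]
      exact h5
    have h8' : γ (γ⁻¹ (σ (γ x))) = γ x := congrArg γ h6
    have h9 : γ (γ⁻¹ (σ (γ x))) = σ (γ x) := γ.apply_symm_apply _
    rw [h9] at h8'
    exact h8'
  · intro x
    constructor
    · intro hx
      refine ⟨?_, hx _ ⟨g, hg1, rfl⟩⟩
      intro σ hσ
      exact hx σ ⟨⟨σ, hKΓ hσ⟩, hle ((hmemK _).2 hσ), rfl⟩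
    · rintro ⟨hxK, hxγ⟩
      rintro _ ⟨a, ha, rfl⟩
      by_cases haK : a ∈ K0
      · exact hxK _ ((hmemK a).1 haK)
      · have h1 := hsq a ha g hg1 haK hg0
        have h4 := hxK _ ((hmemK _).1 h1)
        have h5 : (a : Equiv.Perm V) ((g : Equiv.Perm V) x) = x := h4
        rw [hxγ] at h5
        exact h5

/-- The number of common fixed points of a 2-group of automorphisms divides the order. -/
theorem SQ.dvd_of_twoGroup [Fintype V] [DecidableEq V] [Nonempty V] (h : SQ m)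
    (hp : NoPrism m) (hP : NoPasch m)
    (Γ : Subgroup (Equiv.Perm V)) (h2 : IsPGroup 2 Γ)
    (hhom : ∀ σ ∈ Γ, ∀ x y, σ (m x y) = m (σ x) (σ y)) :
    (commonFixed Γ).ncard ∣ Fintype.card V := by
  classical
  let 𝒮 : Set (Subgroup (Equiv.Perm V)) :=
    {Δ | Δ ≤ Γ ∧ (commonFixed Δ).ncard ∣ Fintype.card V}
  have hne : 𝒮.Nonempty := by
    refine ⟨⊥, bot_le, ?_⟩
    have : commonFixed (⊥ : Subgroup (Equiv.Perm V)) = Set.univ := by
      ext x
      simp [commonFixed]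
    rw [this, Set.ncard_univ, Nat.card_eq_fintype_card]
  obtain ⟨K, hK, hmax⟩ := Set.exists_max_image 𝒮 (fun Δ => Nat.card Δ) (Set.toFinite _) hne
  obtain ⟨hKΓ, hKd⟩ := hK
  by_cases hKne : Nat.card K = Nat.card Γ
  · have hset : (K : Set (Equiv.Perm V)) = Γ := by
      apply Set.eq_of_subset_of_ncard_le hKΓ
      · rw [← Nat.card_coe_set_eq, ← Nat.card_coe_set_eq]
        exact hKne.symm.le
    have : K = Γ := SetLike.coe_injective hset
    rw [← this]
    exact hKd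
  exfalso
  obtain ⟨K', hK'Γ, γ, hγ, hlt, hγγ, hγU, hfix⟩ := exists_step Γ h2 K hKΓ hKne
  let U : Finset V := (Set.toFinite (commonFixed K)).toFinset
  have hUc : U.card = (commonFixed K).ncard := (Set.ncard_eq_toFinset_card _ _).symm
  have hUm : ∀ x, x ∈ U ↔ x ∈ commonFixed K := fun x => Set.Finite.mem_toFinset _
  have hUne : U.Nonempty := by
    rw [← Finset.card_pos, hUc]
    exact Nat.pos_of_dvd_of_pos hKd Fintype.card_pos
  have key : (U.filter fun x => γ x = x).card ∣ U.card := by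
    apply dvd_of_invol h hp hP U _ γ (hhom γ hγ) _ _ hUne
    · intro x hx y hy
      rw [hUm] at hx hy ⊢
      exact fixed_closed K (fun σ hσ => hhom σ (hKΓ hσ)) hx hy
    · intro x hx
      rw [hUm] at hx ⊢
      exact hγU x hx
    · intro x hx
      rw [hUm] at hx
      exact hγγ x hx
  have hK'c : (commonFixed K').ncard = (U.filter fun x => γ x = x).card := by
    rw [← Set.ncard_coe_finset]
    congr 1
    ext x
    rw [hfix, Finset.coe_filter, Set.mem_ofPred_eq, hUm]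
  have : Nat.card K' ≤ Nat.card K := hmax K' ⟨hK'Γ, by
    rw [hK'c]
    exact key.trans (by rw [hUc]; exact hKd)⟩
  omega

end Pool.Agent.Hhelper49.Core9
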