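import Mathlib
import Pool.Agent.Hhelper49.Core9.Defs
import Pool.Agent.Hhelper49.Core9.Trans

/-!
Many mitres centred at a point force a nine-point 2-core.
-/

namespace Pool.Agent.Hhelper49.Core9

open Finset

variable {V : Type*} [DecidableEq V] {m : V → V → V}

theorem two_le {B : Finset (Finset V)} {S : Finset V} {v : V} {b c : Finset V}
    (hb : b ∈ B) (hc : c ∈ B) (hbS : b ⊆ S) (hcS : c ⊆ S) (hvb : v ∈ b) (hvc : v ∈ c)
    (hne : b ≠ c) : 2 ≤ (B.filter (fun b => b ⊆ S ∧ v ∈ b)).card := by
  have : ({b, c} : Finset (Finset V)) ⊆ B.filter (fun b => b ⊆ S ∧ v ∈ b) := by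
    intro d hd
    simp only [Finset.mem_insert, Finset.mem_singleton] at hd
    rcases hd with rfl | rfl
    · exact Finset.mem_filter.2 ⟨hb, hbS, hvb⟩
    · exact Finset.mem_filter.2 ⟨hc, hcS, hvc⟩
  calc 2 = ({b, c} : Finset (Finset V)).card := (Finset.card_pair hne).symm
    _ ≤ _ := Finset.card_le_card this

theorem OpOf.core_of_good {B : Finset (Finset V)} (hm : OpOf B m) {p x y : V} (hx : x ≠ p)
    (hy : y ≠ p) (hxy : x ≠ y) (hxy' : y ≠ m p x)
    (g1 : m (m p x) (m p y) = m p (m x y))
    (g2 : m (m p x) y = m p (m x (m p y))) :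
    ∃ S, NineCore B S := by
  have h := hm.sq
  set x' := m p x with hx'
  set y' := m p y with hy'
  set z := m x y with hz
  set z' := m p z with hz'
  set u := m x y' with hu
  set u' := m p u with hu'
  -- inequalities
  have ip : ∀ {a b : V}, m p a = b → m p b = a := fun e => h.swap e
  have a1 : x' ≠ p := fun e => hx (h.eq_left e).symm
  have a2 : y' ≠ p := fun e => hy (h.eq_left e).symm
  have a3 : x' ≠ x := fun e => hx (h.eq_right e).symm
  have a4 : y' ≠ y := fun e => hy (h.eq_right e).symm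
  have a5 : x ≠ y' := by
    intro e; apply hxy'; rw [hx', e, hy', h.inv]
  have a6 : x' ≠ y' := fun e => hxy (h.cancel e)
  have z1 : z ≠ p := by
    intro e
    apply hxy'
    rw [hx', ← e, hz, h.inv'']
  have z2 : z ≠ x := fun e => hxy (h.eq_left e)
  have z3 : z ≠ y := fun e => hxy (h.eq_right e)
  have z4 : z ≠ x' := by
    intro e
    apply hy
    rw [hz, hx', h.comm p x] at e
    exact h.cancel e
  have z5 : z ≠ y' := by
    intro e
    apply hx
    rw [hz, hy'] at e
    exact h.cancel' e
  have z6 : z' ≠ z := fun e => z1 (h.eq_right e).symm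
  have z7 : z' ≠ p := fun e => z1 (h.eq_left e).symm
  have z8 : z' ≠ x := by
    intro e; apply z4; rw [hx', ← e, hz', h.inv]
  have z9 : z' ≠ x' := fun e => z2 (h.cancel e)
  have z10 : z' ≠ y := by
    intro e; apply z5; rw [hy', ← e, hz', h.inv]
  have z11 : z' ≠ y' := fun e => z3 (h.cancel e)
  have u1 : u ≠ p := by
    intro e
    apply a6
    rw [hx', ← e, hu, h.inv'']
  have u2 : u ≠ x := fun e => a5 (h.eq_left e)
  have u3 : u ≠ y' := fun e => a5 (h.eq_right e)
  have u4 : u ≠ x' := by
    intro e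
    apply a2
    rw [hu, hx', h.comm p x] at e
    exact h.cancel e
  have u5 : u ≠ y := by
    intro e
    apply hx
    have e2 : m p y' = y := by rw [hy', h.inv]
    rw [← e2, hu] at e
    exact h.cancel' e
  have u6 : u ≠ z := by
    intro e
    exact a4 (h.cancel e)
  have u7 : u ≠ z' := by
    intro e
    apply a3
    rw [← g1, hu] at e
    exact (h.cancel' e).symm
  have v1 : u' ≠ p := fun e => u1 (h.eq_left e).symm
  have v2 : u' ≠ u := fun e => u1 (h.eq_right e).symm
  have v3 : u' ≠ x := by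
    intro e; apply u4; rw [hx', ← e, hu', h.inv]
  have v4 : u' ≠ x' := fun e => u2 (h.cancel e)
  have v5 : u' ≠ y := by
    intro e; apply u3; rw [hy', ← e, hu', h.inv]
  have v6 : u' ≠ y' := fun e => u5 (h.cancel e)
  have v7 : u' ≠ z := by
    intro e; apply u7; rw [hz', ← e, hu', h.inv]
  have v8 : u' ≠ z' := fun e => u6 (h.cancel e)
  -- blocks
  have b1 : ({p, x, x'} : Finset V) ∈ B := (hm.mem p x hx.symm).2.2
  have b2 : ({p, y, y'} : Finset V) ∈ B := (hm.mem p y hy.symm).2.2
  have b3 : ({p, z, z'} : Finset V) ∈ B := (hm.mem p z z1.symm).2.2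
  have b4 : ({p, u, u'} : Finset V) ∈ B := (hm.mem p u u1.symm).2.2
  have b5 : ({x, y, z} : Finset V) ∈ B := (hm.mem x y hxy).2.2
  have b6 : ({x', y', z'} : Finset V) ∈ B := by
    have := (hm.mem x' y' a6).2.2
    rwa [g1] at this
  have b7 : ({x, y', u} : Finset V) ∈ B := (hm.mem x y' a5).2.2
  have b8 : ({x', y, u'} : Finset V) ∈ B := by
    have := (hm.mem x' y hxy'.symm).2.2
    rwa [g2] at this
  set S : Finset V := {p, x, x', y, y', z, z', u, u'} with hS
  have hsub : ∀ {a b c : V}, a ∈ S → b ∈ S → c ∈ S → ({a, b, c} : Finset V) ⊆ S := by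
    intro a b c ha hb hc t ht
    simp only [Finset.mem_insert, Finset.mem_singleton] at ht
    rcases ht with rfl | rfl | rfl <;> assumption
  have m1 : p ∈ S := by simp [hS]
  have m2 : x ∈ S := by simp [hS]
  have m3 : x' ∈ S := by simp [hS]
  have m4 : y ∈ S := by simp [hS]
  have m5 : y' ∈ S := by simp [hS]
  have m6 : z ∈ S := by simp [hS]
  have m7 : z' ∈ S := by simp [hS]
  have m8 : u ∈ S := by simp [hS]
  have m9 : u' ∈ S := by simp [hS]
  have hne : ∀ {b c : Finset V} {t : V}, t ∈ b → t ∉ c → b ≠ c := by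
    intro b c t hb hc e; rw [e] at hb; exact hc hb
  refine ⟨S, ?_, ?_⟩
  · have hnd : [p, x, x', y, y', z, z', u, u'].Nodup := by
      simp only [List.nodup_cons, List.mem_cons, List.not_mem_nil, or_false, not_or,
        List.nodup_nil, not_false_eq_true, and_true]
      exact ⟨⟨hx.symm, a1.symm, hy.symm, a2.symm, z1.symm, z7.symm, u1.symm, v1.symm⟩,
        ⟨a3.symm, hxy, a5, z2.symm, z8.symm, u2.symm, v3.symm⟩,
        ⟨hxy'.symm, a6, z4.symm, z9.symm, u4.symm, v4.symm⟩,
        ⟨a4.symm, z3.symm, z10.symm, u5.symm, v5.symm⟩,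
        ⟨z5.symm, z11.symm, u3.symm, v6.symm⟩, ⟨z6.symm, u6.symm, v7.symm⟩,
        ⟨u7.symm, v8.symm⟩, v2.symm⟩
    have : S = [p, x, x', y, y', z, z', u, u'].toFinset := by simp [hS]
    rw [this, List.toFinset_card_of_nodup hnd]
    rfl
  · intro v hv
    simp only [hS, Finset.mem_insert, Finset.mem_singleton] at hv
    rcases hv with rfl | rfl | rfl | rfl | rfl | rfl | rfl | rfl | rfl
    · refine two_le b1 b2 (hsub m1 m2 m3) (hsub m1 m4 m5) (by simp) (by simp) (hne (t := x) (by simp) ?_)
      simp only [Finset.mem_insert, Finset.mem_singleton, not_or]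
      exact ⟨hx, hxy, a5⟩
    · refine two_le b1 b5 (hsub m1 m2 m3) (hsub m2 m4 m6) (by simp) (by simp) (hne (t := p) (by simp) ?_)
      simp only [Finset.mem_insert, Finset.mem_singleton, not_or]
      exact ⟨hx.symm, hy.symm, z1.symm⟩
    · refine two_le b1 b6 (hsub m1 m2 m3) (hsub m3 m5 m7) (by simp) (by simp) (hne (t := p) (by simp) ?_)
      simp only [Finset.mem_insert, Finset.mem_singleton, not_or]
      exact ⟨a1.symm, a2.symm, z7.symm⟩
    · refine two_le b2 b5 (hsub m1 m4 m5) (hsub m2 m4 m6) (by simp) (by simp) (hne (t := p) (by simp) ?_)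
      simp only [Finset.mem_insert, Finset.mem_singleton, not_or]
      exact ⟨hx.symm, hy.symm, z1.symm⟩
    · refine two_le b2 b6 (hsub m1 m4 m5) (hsub m3 m5 m7) (by simp) (by simp) (hne (t := p) (by simp) ?_)
      simp only [Finset.mem_insert, Finset.mem_singleton, not_or]
      exact ⟨a1.symm, a2.symm, z7.symm⟩
    · refine two_le b3 b5 (hsub m1 m6 m7) (hsub m2 m4 m6) (by simp) (by simp) (hne (t := p) (by simp) ?_)
      simp only [Finset.mem_insert, Finset.mem_singleton, not_or]
      exact ⟨hx.symm, hy.symm, z1.symm⟩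
    · refine two_le b3 b6 (hsub m1 m6 m7) (hsub m3 m5 m7) (by simp) (by simp) (hne (t := p) (by simp) ?_)
      simp only [Finset.mem_insert, Finset.mem_singleton, not_or]
      exact ⟨a1.symm, a2.symm, z7.symm⟩
    · refine two_le b4 b7 (hsub m1 m8 m9) (hsub m2 m5 m8) (by simp) (by simp) (hne (t := p) (by simp) ?_)
      simp only [Finset.mem_insert, Finset.mem_singleton, not_or]
      exact ⟨hx.symm, a2.symm, u1.symm⟩
    · refine two_le b4 b8 (hsub m1 m8 m9) (hsub m3 m4 m9) (by simp) (by simp) (hne (t := p) (by simp) ?_)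
      simp only [Finset.mem_insert, Finset.mem_singleton, not_or]
      exact ⟨a1.symm, hy.symm, v1.symm⟩

/-- If more than half of the triples missing `p` are mapped to triples by the map exchanging the
two other points on each triple through `p`, then there is a nine-point 2-core. -/
theorem OpOf.mitre [Fintype V] {B : Finset (Finset V)} (hB : IsSTS B) (hm : OpOf B m) (p : V)
    (hbig : (B.filter (fun b => p ∉ b)).card <
      2 * (B.filter (fun b => p ∉ b ∧ b.image (m p) ∈ B)).card) :
    ∃ S, NineCore B S := by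
  classical
  by_contra hcon
  have h := hm.sq
  set D : Finset (V × V) := univ.filter fun q => q.1 ≠ p ∧ q.2 ≠ p ∧ q.1 ≠ q.2 ∧ q.2 ≠ m p q.1 with hD
  set Gd : Finset (V × V) := D.filter fun q => m (m p q.1) (m p q.2) = m p (m q.1 q.2) with hG
  -- the involution
  have hhalf : 2 * Gd.card ≤ D.card := by
    set ι : V × V → V × V := fun q => (q.1, m p q.2) with hι
    have hinj : Function.Injective ι := by
      rintro ⟨a, b⟩ ⟨c, d⟩ e
      simp only [hι, Prod.mk.injEq] at e
      exact Prod.ext e.1 (h.cancel e.2)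
    have hsub : Gd ∪ Gd.image ι ⊆ D := by
      intro q hq
      rcases Finset.mem_union.1 hq with hq | hq
      · exact (Finset.mem_filter.1 hq).1
      · obtain ⟨⟨x, y⟩, hr, rfl⟩ := Finset.mem_image.1 hq
        have hr1 := (Finset.mem_filter.1 (Finset.mem_filter.1 hr).1).2
        simp only at hr1
        obtain ⟨hx, hy, hxy, hxy'⟩ := hr1
        refine Finset.mem_filter.2 ⟨Finset.mem_univ _, hx, ?_, ?_, ?_⟩
        · intro e; exact hy (h.eq_left e).symm
        · show x ≠ m p y
          intro e; apply hxy'; rw [e, h.inv]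
        · show m p y ≠ m p x
          intro e; exact hxy (h.cancel e).symm
    have hdisj : Disjoint Gd (Gd.image ι) := by
      rw [Finset.disjoint_left]
      rintro q hq1 hq2
      obtain ⟨⟨x, y⟩, hr, e⟩ := Finset.mem_image.1 hq2
      have hr1 := (Finset.mem_filter.1 (Finset.mem_filter.1 hr).1).2
      have hr2 := (Finset.mem_filter.1 hr).2
      have hq3 := (Finset.mem_filter.1 hq1).2
      rw [← e] at hq3
      simp only [hι] at hr1 hr2 hq3
      rw [h.inv] at hq3
      obtain ⟨hx, hy, hxy, hxy'⟩ := hr1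
      exact hcon (hm.core_of_good hx hy hxy hxy' hr2 hq3)
    have c1 := Finset.card_le_card hsub
    rw [Finset.card_union_of_disjoint hdisj, Finset.card_image_of_injective _ hinj] at c1
    omega
  -- counting pairs in triples
  have hdisjB : ∀ b ∈ B, ∀ c ∈ B, b ≠ c → Disjoint b.offDiag c.offDiag := by
    intro b hb c hc hbc
    rw [Finset.disjoint_left]
    rintro ⟨x, y⟩ h1 h2
    rw [Finset.mem_offDiag] at h1 h2
    obtain ⟨d, _, hu⟩ := hB.2 x y h1.2.2
    exact hbc ((hu b ⟨hb, h1.1, h1.2.1⟩).trans (hu c ⟨hc, h2.1, h2.2.1⟩).symm)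
  have hsix : ∀ b ∈ B, b.offDiag.card = 6 := by
    intro b hb
    rw [Finset.offDiag_card, hB.1 b hb]
  have hthird : ∀ {x y : V}, x ≠ y → ∀ b ∈ B, x ∈ b → y ∈ b → b = {x, y, m x y} := by
    intro x y hxy b hb hx hy
    obtain ⟨d, _, hu⟩ := hB.2 x y hxy
    exact (hu b ⟨hb, hx, hy⟩).trans (hu _ ⟨(hm.mem x y hxy).2.2, by simp, by simp⟩).symm
  have hup : D.card ≤ 6 * (B.filter (fun b => p ∉ b)).card := by
    have : D ⊆ (B.filter (fun b => p ∉ b)).biUnion fun b => b.offDiag := by
      rintro ⟨x, y⟩ hq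
      have hr1 := (Finset.mem_filter.1 hq).2
      simp only at hr1
      obtain ⟨hx, hy, hxy, hxy'⟩ := hr1
      refine Finset.mem_biUnion.2 ⟨{x, y, m x y}, Finset.mem_filter.2 ⟨(hm.mem x y hxy).2.2, ?_⟩, ?_⟩
      · simp only [Finset.mem_insert, Finset.mem_singleton, not_or]
        refine ⟨hx.symm, hy.symm, ?_⟩
        intro e
        apply hxy'
        rw [e, h.inv'']
      · rw [Finset.mem_offDiag]
        exact ⟨by simp, by simp, hxy⟩
    refine (Finset.card_le_card this).trans ?_
    refine (Finset.card_biUnion_le).trans ?_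
    rw [Finset.sum_congr rfl fun b hb => hsix b (Finset.mem_filter.1 hb).1, Finset.sum_const,
      smul_eq_mul, mul_comm]
  have hlow : 6 * (B.filter (fun b => p ∉ b ∧ b.image (m p) ∈ B)).card ≤ Gd.card := by
    have hsub : (B.filter (fun b => p ∉ b ∧ b.image (m p) ∈ B)).biUnion (fun b => b.offDiag) ⊆ Gd := by
      rintro ⟨x, y⟩ hq
      obtain ⟨b, hb, hq2⟩ := Finset.mem_biUnion.1 hq
      obtain ⟨hbB, hpb, himg⟩ := Finset.mem_filter.1 hb
      rw [Finset.mem_offDiag] at hq2
      obtain ⟨hx, hy, hxy⟩ := hq2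
      simp only at hx hy hxy
      have hxp : x ≠ p := fun e => hpb (e ▸ hx)
      have hyp : y ≠ p := fun e => hpb (e ▸ hy)
      have hb3 := hthird hxy b hbB hx hy
      have hzb : m x y ∈ b := by rw [hb3]; simp
      have hxy' : y ≠ m p x := by
        intro e
        apply hpb
        have e1 : m x y = p := by rw [e, h.comm p x, h.inv]
        rw [← e1]; exact hzb
      refine Finset.mem_filter.2 ⟨Finset.mem_filter.2 ⟨Finset.mem_univ _, hxp, hyp, hxy, hxy'⟩, ?_⟩
      show m (m p x) (m p y) = m p (m x y)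
      have hne : m p x ≠ m p y := fun e => hxy (h.cancel e)
      have himg2 := hthird hne _ himg (Finset.mem_image_of_mem _ hx) (Finset.mem_image_of_mem _ hy)
      have hmem : m p (m x y) ∈ b.image (m p) := Finset.mem_image_of_mem _ hzb
      rw [himg2] at hmem
      simp only [Finset.mem_insert, Finset.mem_singleton] at hmem
      rcases hmem with e | e | e
      · exact absurd (h.cancel e) (hm.mem x y hxy).1
      · exact absurd (h.cancel e) (hm.mem x y hxy).2.1
      · exact e.symm
    have c1 := Finset.card_le_card hsub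
    rw [Finset.card_biUnion] at c1
    · rw [Finset.sum_congr rfl fun b hb => hsix b (Finset.mem_filter.1 hb).1, Finset.sum_const,
        smul_eq_mul, mul_comm] at c1
      exact c1
    · intro b hb c hc hbc
      exact hdisjB b (Finset.mem_filter.1 hb).1 c (Finset.mem_filter.1 hc).1 hbc
  omega

end Pool.Agent.Hhelper49.Core9
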