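import Mathlib
import Pool.Agent.Hhelper49.Core9.Defs
import Pool.Agent.Hhelper49.Core9.GridDefs
import Pool.Agent.Hhelper49.Core9.Trans
import Pool.Agent.Hhelper49.Core9.TwoGroup
import Pool.Agent.Hhelper49.Core9.Div
import Pool.Agent.Hhelper66.Fan.Fano

/-!
In a Steiner triple system without a 2-core on nine vertices the number of common fixed points of
a 2-group of automorphisms divides the order, if every element that leaves a subsystem of order
seven through one of these points invariant fixes it pointwise.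
-/

namespace Pool.Agent.Hhelper49.Core9

open Finset Pool.Agent.Hhelper66.Fan

variable {V : Type*} {m : V → V → V}

/-- The Pasch configuration of a moved point over `c` whose product with a fixed point is again
over `c`. -/
theorem Cell.pq {σ : V → V} {c x w : V} (h : SQ m)
    (hhom : ∀ x y, σ (m x y) = m (σ x) (σ y)) (C : Cell m σ c x w)
    (e : m (m x w) (σ (m x w)) = c) : PQ m x (σ (m x w)) w c (m x w) (σ x) := by
  have hsx : σ (σ x) ≠ σ x := by
    rw [C.xx]; exact Ne.symm C.nx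
  have hsa : σ (σ (m x w)) ≠ σ (m x w) := by
    rw [C.aa]; exact Ne.symm (C.na h hhom)
  have hna := C.na h hhom
  refine ⟨?_, rfl, ?_, ?_, ?_⟩
  · simp only [List.nodup_cons, List.mem_cons, List.not_mem_nil, or_false, not_or,
      List.nodup_nil, not_false_eq_true, and_true]
    exact ⟨⟨Ne.symm (C.sax h), C.xw, C.xnc, Ne.symm (C.ax h), Ne.symm C.nx⟩,
      ⟨Ne.symm (ne_of_fix C.ww hsa), Ne.symm (ne_of_fix C.cc hsa), hna, C.sasx h⟩,
      ⟨C.wc, ne_of_fix C.ww hna, Ne.symm C.sxw⟩,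
      ⟨ne_of_fix C.cc hna, Ne.symm C.sxc⟩, C.asx h⟩
  · exact h.swap C.xc
  · rw [C.sa hhom, h.inv']
  · exact h.rot e

/-- A subsystem of order seven with a moved pair and a fixed point off its line is invariant. -/
theorem fano_inv [DecidableEq V] (h : SQ m) (W : Finset V) (hW : ∀ a ∈ W, ∀ b ∈ W, m a b ∈ W)
    (h7 : W.card = 7) (γ : Equiv.Perm V) (hhom : ∀ x y, γ (m x y) = m (γ x) (γ y)) {x w : V}
    (hx : x ∈ W) (hγx : γ x ∈ W) (hw : w ∈ W) (hγγ : γ (γ x) = x) (hγw : γ w = w)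
    (hne : γ x ≠ x) (hcw : m x (γ x) ≠ w) : ∀ u ∈ W, γ u ∈ W := by
  have hW' : ∀ a ∈ W.image γ, ∀ b ∈ W.image γ, m a b ∈ W.image γ := by
    intro a ha b hb
    obtain ⟨u, hu, rfl⟩ := Finset.mem_image.1 ha
    obtain ⟨v, hv, rfl⟩ := Finset.mem_image.1 hb
    exact Finset.mem_image.2 ⟨m u v, hW _ hu _ hv, hhom u v⟩
  have hc' : (W.image γ).card = 7 := by
    rw [Finset.card_image_of_injective _ γ.injective, h7]
  have hxw : x ≠ w := by
    rintro rfl
    exact hne hγw
  have hγxw : γ x ≠ w := by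
    intro e
    apply hne
    have : γ (γ x) = γ x := by rw [e, hγw]
    rw [← this, hγγ]
  have hD : ({x, γ x, w, m x (γ x)} : Finset V) ⊆ W ∩ W.image γ := by
    intro t ht
    simp only [Finset.mem_insert, Finset.mem_singleton] at ht
    rw [Finset.mem_inter]
    rcases ht with rfl | rfl | rfl | rfl
    · exact ⟨hx, Finset.mem_image.2 ⟨γ t, hγx, hγγ⟩⟩
    · exact ⟨hγx, Finset.mem_image.2 ⟨x, hx, rfl⟩⟩
    · exact ⟨hw, Finset.mem_image.2 ⟨t, hw, hγw⟩⟩
    · refine ⟨hW _ hx _ hγx, Finset.mem_image.2 ⟨m (γ x) x, hW _ hγx _ hx, ?_⟩⟩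
      rw [hhom, hγγ]
  have hD4 : ({x, γ x, w, m x (γ x)} : Finset V).card = 4 := by
    rw [Finset.card_insert_of_notMem, Finset.card_insert_of_notMem,
      Finset.card_insert_of_notMem, Finset.card_singleton]
    · rw [Finset.mem_singleton]
      exact Ne.symm hcw
    · simp only [Finset.mem_insert, Finset.mem_singleton, not_or]
      exact ⟨hγxw, fun e => hne (h.eq_right e.symm).symm⟩
    · simp only [Finset.mem_insert, Finset.mem_singleton, not_or]
      exact ⟨Ne.symm hne, hxw, fun e => hne (h.eq_left e.symm).symm⟩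
  have h4 := Finset.card_le_card hD
  rw [hD4] at h4
  have h5 := h.seven_le (W ∩ W.image γ) (by
    intro a ha b hb
    rw [Finset.mem_inter] at ha hb ⊢
    exact ⟨hW _ ha.1 _ hb.1, hW' _ ha.2 _ hb.2⟩) h4
  have e1 : W ∩ W.image γ = W :=
    Finset.eq_of_subset_of_card_le Finset.inter_subset_left (by omega)
  have e2 : W ∩ W.image γ = W.image γ :=
    Finset.eq_of_subset_of_card_le Finset.inter_subset_right (by omega)
  intro u hu
  rw [← e1, e2]
  exact Finset.mem_image_of_mem γ hu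

theorem dvd_of_step [Fintype V] [DecidableEq V] {B : Finset (Finset V)} (hB : IsSTS B)
    (hm : OpOf B m) (hc : ¬ ∃ S, NineCore B S) (K : Subgroup (Equiv.Perm V))
    (hK : ∀ σ ∈ K, ∀ x y, σ (m x y) = m (σ x) (σ y))
    (U : Finset V) (hUm : ∀ x, x ∈ U ↔ x ∈ commonFixed K) (γ : Equiv.Perm V)
    (hhom : ∀ x y, γ (m x y) = m (γ x) (γ y)) (hγU : ∀ x ∈ U, γ x ∈ U)
    (hγγ : ∀ x ∈ U, γ (γ x) = x) (c : V) (hcU : c ∈ U) (hcγ : γ c = c)
    (h7 : ∀ W, IsSubsystem B W → W.card = 7 → c ∈ W → (∀ x ∈ W, γ x ∈ W) → ∀ x ∈ W, γ x = x) :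
    (U.filter fun x => γ x = x).card ∣ U.card := by
  classical
  have h := hm.sq
  have hUc : ∀ x ∈ U, ∀ y ∈ U, m x y ∈ U := by
    intro x hx y hy
    rw [hUm] at hx hy ⊢
    exact fixed_closed K hK hx hy
  set F := U.filter fun x => γ x = x with hF
  set S := U.filter fun x => γ x ≠ x ∧ m x (γ x) = c with hS
  set N := U.filter fun x => γ x ≠ x with hN
  have hSN : S ⊆ N := by
    intro x hx
    rw [hS, Finset.mem_filter] at hx
    rw [hN, Finset.mem_filter]
    exact ⟨hx.1, hx.2.1⟩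
  have hcF : c ∈ F := Finset.mem_filter.2 ⟨hcU, hcγ⟩
  have hcell : ∀ p ∈ S ×ˢ F.erase c, Cell m γ c p.1 p.2 ∧ p.1 ∈ U ∧ p.2 ∈ U := by
    rintro ⟨x, w⟩ hp
    rw [Finset.mem_product, hS, Finset.mem_filter, Finset.mem_erase, hF, Finset.mem_filter] at hp
    obtain ⟨⟨h1, h2, h3⟩, h4, h5, h6⟩ := hp
    exact ⟨⟨hcγ, hγγ x h1, h2, h3, h6, h4, hγγ _ (hUc _ h1 _ h5)⟩, h1, h5⟩
  have hcnt := count hm hc
  -- two triangles with the outer points `γ a, a, c`
  have huni : ∀ a, m a (γ a) ≠ c → ∀ t t', o m t = (γ a, a, c) → o m t' = (γ a, a, c) →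
      t = t' := by
    intro a ha t t' e e'
    by_contra hne
    have h1 := hcnt.1 t t' hne (e.trans e'.symm)
    rw [e] at h1
    simp only [o, Prod.mk.injEq] at h1
    apply ha
    rw [h.comm]
    exact h1.2.2
  have hnot : ∀ p ∈ S ×ˢ F.erase c, m (m p.1 p.2) (γ (m p.1 p.2)) ≠ c := by
    intro p hp e
    obtain ⟨C, _, _⟩ := hcell p hp
    obtain ⟨W, h1, h2, h3⟩ := fano_of_pq hB hm hc (C.pq h hhom e)
    have hinv := fano_inv h W (hm.closed h1) h2 γ hhom (x := p.1) (w := p.2) (h3 (by simp))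
      (h3 (by simp)) (h3 (by simp)) C.xx C.ww C.nx (by rw [C.xc]; exact Ne.symm C.wc)
    exact C.nx (h7 W h1 h2 (h3 (by simp)) hinv p.1 (h3 (by simp)))
  have hcard : (S ×ˢ F.erase c).card = (N \ S).card := by
    apply Finset.card_bij (fun p _ => m p.1 p.2)
    · intro p hp
      obtain ⟨C, h1, h2⟩ := hcell p hp
      rw [Finset.mem_sdiff]
      refine ⟨Finset.mem_filter.2 ⟨hUc _ h1 _ h2, C.na h hhom⟩, ?_⟩
      intro hcon
      exact hnot p hp (Finset.mem_filter.1 hcon).2.2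
    · intro p hp q hq e
      obtain ⟨C, _, _⟩ := hcell p hp
      obtain ⟨C', _, _⟩ := hcell q hq
      have e1 : o m (p.1, γ p.1, p.2) = (γ (m p.1 p.2), m p.1 p.2, c) := by
        simp only [o, Prod.mk.injEq]
        exact ⟨(C.sa hhom).symm, h.comm _ _, C.xc⟩
      have e2 : o m (q.1, γ q.1, q.2) = (γ (m p.1 p.2), m p.1 p.2, c) := by
        simp only [o, Prod.mk.injEq]
        have e' : m p.1 p.2 = m q.1 q.2 := e
        rw [e']
        exact ⟨(C'.sa hhom).symm, h.comm _ _, C'.xc⟩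
      have e3 := huni _ (hnot p hp) _ _ e1 e2
      simp only [Prod.mk.injEq] at e3
      exact Prod.ext e3.1 e3.2.2
    · intro a ha
      rw [Finset.mem_sdiff, hN, Finset.mem_filter, hS, Finset.mem_filter] at ha
      obtain ⟨⟨haU, han⟩, ha2⟩ := ha
      have hac : m a (γ a) ≠ c := fun e => ha2 ⟨haU, han, e⟩
      -- a preimage
      obtain ⟨⟨u, v, w⟩, ht⟩ : ∃ t, o m t = (γ a, a, c) := by
        by_contra hcon
        push Not at hcon
        have hbad := hcnt.2 _ hcon
        obtain ⟨W, h1, h2, h3⟩ := hbad.fano hB hm hc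
        have hinv := fano_inv h W (hm.closed h1) h2 γ hhom (x := a) (w := c) (h3 (by simp))
          (h3 (by simp)) (h3 (by simp)) (hγγ a haU) hcγ han hac
        exact han (h7 W h1 h2 (h3 (by simp)) hinv a (h3 (by simp)))
      have ht' := ht
      simp only [o, Prod.mk.injEq] at ht'
      obtain ⟨t1, t2, t3⟩ := ht'
      -- it is fixed by `K`
      have hfix : ∀ κ ∈ K, κ u = u ∧ κ v = v ∧ κ w = w := by
        intro κ hκ
        have k1 : κ a = a := (hUm a).1 haU κ hκ
        have k2 : κ (γ a) = γ a := (hUm (γ a)).1 (hγU a haU) κ hκ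
        have k3 : κ c = c := (hUm c).1 hcU κ hκ
        have e1 : o m (κ u, κ v, κ w) = (γ a, a, c) := by
          simp only [o, Prod.mk.injEq]
          rw [← hK κ hκ, ← hK κ hκ, ← hK κ hκ, t1, t2, t3]
          exact ⟨k2, k1, k3⟩
        have e2 := huni a hac _ _ e1 ht
        simp only [Prod.mk.injEq] at e2
        exact e2
      have huU : u ∈ U := (hUm u).2 fun κ hκ => (hfix κ hκ).1
      have hwU : w ∈ U := (hUm w).2 fun κ hκ => (hfix κ hκ).2.2
      -- the involution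
      have e1 : o m (γ v, γ u, γ w) = (γ a, a, c) := by
        simp only [o, Prod.mk.injEq]
        rw [← hhom, ← hhom, ← hhom]
        refine ⟨?_, ?_, ?_⟩
        · rw [h.comm u w, t2]
        · rw [h.comm w v, t1, hγγ a haU]
        · rw [h.comm v u, t3, hcγ]
      have e2 := huni a hac _ _ e1 ht
      simp only [Prod.mk.injEq] at e2
      obtain ⟨g1, g2, g3⟩ := e2
      have hwF : w ∈ F := Finset.mem_filter.2 ⟨hwU, g3⟩
      have haw : m u w = a := by rw [h.comm]; exact t2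
      have huc : m u (γ u) = c := by rw [g2]; exact t3
      have hun : γ u ≠ u := by
        intro e
        apply han
        rw [← haw, hhom, e, g3]
      have hwc : w ≠ c := by
        intro e
        apply hac
        have h1 : m u c = γ u := h.swap huc
        rw [← haw, e, h1, hγγ u huU, h.comm]
        exact huc
      refine ⟨(u, w), ?_, haw⟩
      rw [Finset.mem_product]
      exact ⟨Finset.mem_filter.2 ⟨huU, hun, huc⟩, Finset.mem_erase.2 ⟨hwc, hwF⟩⟩
  rw [Finset.card_product, Finset.card_erase_of_mem hcF, Finset.card_sdiff_of_subset hSN] at hcard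
  have h1 := Finset.card_le_card hSN
  have h2 : 0 < F.card := Finset.card_pos.2 ⟨c, hcF⟩
  obtain ⟨k, hk⟩ : ∃ k, F.card = k + 1 := ⟨F.card - 1, by omega⟩
  have h3 : F.card + N.card = U.card := Finset.card_filter_add_card_filter_not _
  rw [← h3]
  refine dvd_add (dvd_refl _) ⟨S.card, ?_⟩
  rw [hk] at hcard ⊢
  rw [Nat.add_sub_cancel] at hcard
  rw [add_mul, one_mul, mul_comm k]
  omega

/-- The number of common fixed points of a 2-group of automorphisms divides the order. -/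
theorem OpOf.dvd_of_twoGroup [Fintype V] [DecidableEq V] {B : Finset (Finset V)} (hB : IsSTS B)
    (hm : OpOf B m) (hc : ¬ ∃ S, NineCore B S)
    (Γ : Subgroup (Equiv.Perm V)) (h2 : IsPGroup 2 Γ)
    (hhom : ∀ σ ∈ Γ, ∀ x y, σ (m x y) = m (σ x) (σ y)) (c : V) (hcΓ : c ∈ commonFixed Γ)
    (h7 : ∀ W, IsSubsystem B W → W.card = 7 → c ∈ W → ∀ σ ∈ Γ, (∀ x ∈ W, σ x ∈ W) →
      ∀ x ∈ W, σ x = x) :
    (commonFixed Γ).ncard ∣ Fintype.card V := by
  classical
  let 𝒮 : Set (Subgroup (Equiv.Perm V)) :=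
    {Δ | Δ ≤ Γ ∧ (commonFixed Δ).ncard ∣ Fintype.card V}
  have hne : 𝒮.Nonempty := by
    refine ⟨⊥, bot_le, ?_⟩
    have : commonFixed (⊥ : Subgroup (Equiv.Perm V)) = Set.univ := by
      ext x
      simp [commonFixed]
    rw [this, Set.ncard_univ, Nat.card_eq_fintype_card]
  obtain ⟨K, hK, hmax⟩ := Set.exists_max_image 𝒮 (fun Δ => Nat.card Δ) (Set.toFinite _) hne
  obtain ⟨hKΓ, hKd⟩ := hK
  by_cases hKne : Nat.card K = Nat.card Γ
  · have hset : (K : Set (Equiv.Perm V)) = Γ := by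
      apply Set.eq_of_subset_of_ncard_le hKΓ
      · rw [← Nat.card_coe_set_eq, ← Nat.card_coe_set_eq]
        exact hKne.symm.le
    have : K = Γ := SetLike.coe_injective hset
    rw [← this]
    exact hKd
  exfalso
  obtain ⟨K', hK'Γ, γ, hγ, hlt, hγγ, hγU, hfix⟩ := exists_step Γ h2 K hKΓ hKne
  let U : Finset V := (Set.toFinite (commonFixed K)).toFinset
  have hUc : U.card = (commonFixed K).ncard := (Set.ncard_eq_toFinset_card _ _).symm
  have hUm : ∀ x, x ∈ U ↔ x ∈ commonFixed K := fun x => Set.Finite.mem_toFinset _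
  have key : (U.filter fun x => γ x = x).card ∣ U.card := by
    apply dvd_of_step hB hm hc K (fun σ hσ => hhom σ (hKΓ hσ)) U hUm γ (hhom γ hγ) _ _ c _
      (hcΓ γ hγ) (fun W w1 w2 w3 => h7 W w1 w2 w3 γ hγ)
    · intro x hx
      rw [hUm] at hx ⊢
      exact hγU x hx
    · intro x hx
      rw [hUm] at hx
      exact hγγ x hx
    · rw [hUm]
      intro σ hσ
      exact hcΓ σ (hKΓ hσ)
  have hK'c : (commonFixed K').ncard = (U.filter fun x => γ x = x).card := by
    rw [← Set.ncard_coe_finset]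
    congr 1
    ext x
    rw [hfix, Finset.coe_filter, Set.mem_ofPred_eq, hUm]
  have : Nat.card K' ≤ Nat.card K := hmax K' ⟨hK'Γ, by
    rw [hK'c]
    exact key.trans (by rw [hUc]; exact hKd)⟩
  omega

/-- Under the same condition, if there are at most three common fixed points, no subgroup has
exactly seven. -/
theorem OpOf.ne_seven [Fintype V] [DecidableEq V] {B : Finset (Finset V)} (hB : IsSTS B)
    (hm : OpOf B m) (Γ : Subgroup (Equiv.Perm V)) (h2 : IsPGroup 2 Γ)
    (hhom : ∀ σ ∈ Γ, ∀ x y, σ (m x y) = m (σ x) (σ y)) (c : V) (hcΓ : c ∈ commonFixed Γ)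
    (h7 : ∀ W, IsSubsystem B W → W.card = 7 → c ∈ W → ∀ σ ∈ Γ, (∀ x ∈ W, σ x ∈ W) →
      ∀ x ∈ W, σ x = x) (h3 : (commonFixed Γ).ncard ≤ 3) :
    ∀ Δ ≤ Γ, (commonFixed Δ).ncard ≠ 7 := by
  classical
  intro Δ0 hΔ0 e0
  let 𝒮 : Set (Subgroup (Equiv.Perm V)) := {Δ | Δ ≤ Γ ∧ (commonFixed Δ).ncard = 7}
  obtain ⟨K, hK, hmax⟩ := Set.exists_max_image 𝒮 (fun Δ => Nat.card Δ) (Set.toFinite _)
    ⟨Δ0, hΔ0, e0⟩
  obtain ⟨hKΓ, hK7⟩ := hK
  have hKne : Nat.card K ≠ Nat.card Γ := by
    intro e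
    have hset : (K : Set (Equiv.Perm V)) = Γ := by
      apply Set.eq_of_subset_of_ncard_le hKΓ
      · rw [← Nat.card_coe_set_eq, ← Nat.card_coe_set_eq]
        exact e.symm.le
    have : K = Γ := SetLike.coe_injective hset
    rw [this] at hK7
    omega
  obtain ⟨K', hK'Γ, γ, hγ, hlt, _, hγU, hfix⟩ := exists_step Γ h2 K hKΓ hKne
  have hcl : ∀ a ∈ (Set.toFinite (commonFixed K)).toFinset,
      ∀ b ∈ (Set.toFinite (commonFixed K)).toFinset,
        m a b ∈ (Set.toFinite (commonFixed K)).toFinset := by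
    intro a ha b hb
    rw [Set.Finite.mem_toFinset] at ha hb ⊢
    exact fixed_closed K (fun σ hσ => hhom σ (hKΓ hσ)) ha hb
  have hW7 : (Set.toFinite (commonFixed K)).toFinset.card = 7 := by
    rw [← Set.ncard_eq_toFinset_card]
    exact hK7
  have hpt := h7 _ (subsystem_of_closed hB hm hcl) hW7 (by
    rw [Set.Finite.mem_toFinset]
    exact fun σ hσ => hcΓ σ (hKΓ hσ)) γ hγ (by
    intro x hx
    rw [Set.Finite.mem_toFinset] at hx ⊢
    exact hγU x hx)
  have heq : commonFixed K' = commonFixed K := by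
    ext x
    rw [hfix]
    constructor
    · exact fun hh => hh.1
    · intro hx
      exact ⟨hx, hpt x ((Set.Finite.mem_toFinset _).2 hx)⟩
  have : Nat.card K' ≤ Nat.card K := hmax K' ⟨hK'Γ, by rw [heq]; exact hK7⟩
  omega

end Pool.Agent.Hhelper49.Core9
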