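import Mathlib
import Pool.Agent.Hhelper49.Core9.Defs
import Pool.Agent.Hhelper49.Core9.GridDefs
import Pool.Agent.Hhelper49.Core9.Mitre

/-!
A grid is a 2-core on nine vertices.
-/

namespace Pool.Agent.Hhelper49.Core9

variable {V : Type*} [DecidableEq V]

theorem HasGrid.core {B : Finset (Finset V)} (hG : HasGrid B) : ∃ S, NineCore B S := by
  obtain ⟨a, b, c, d, e, f, g, k, i, hnd, r1, r2, r3, c1, c2, c3⟩ := hG
  refine ⟨[a, b, c, d, e, f, g, k, i].toFinset, ?_, ?_⟩
  · rw [List.toFinset_card_of_nodup hnd]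
    rfl
  have hsub : ∀ x y z : V, x ∈ [a, b, c, d, e, f, g, k, i] → y ∈ [a, b, c, d, e, f, g, k, i] →
      z ∈ [a, b, c, d, e, f, g, k, i] →
      ({x, y, z} : Finset V) ⊆ [a, b, c, d, e, f, g, k, i].toFinset := by
    intro x y z hx hy hz t ht
    rw [Finset.mem_insert, Finset.mem_insert, Finset.mem_singleton] at ht
    rw [List.mem_toFinset]
    rcases ht with rfl | rfl | rfl
    · exact hx
    · exact hy
    · exact hz
  have hne : ∀ (p : V) (s t : Finset V), p ∈ s → p ∉ t → s ≠ t := by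
    rintro p s t h1 h2 rfl
    exact h2 h1
  simp only [List.nodup_cons, List.mem_cons, List.not_mem_nil, or_false, not_or,
    List.nodup_nil, not_false_eq_true, and_true] at hnd
  obtain ⟨⟨n1, n2, n3, n4, n5, n6, n7, n8⟩, ⟨m1, m2, m3, m4, m5, m6, m7⟩,
    ⟨o1, o2, o3, o4, o5, o6⟩, ⟨p1, p2, p3, p4, p5⟩, ⟨q1, q2, q3, q4⟩, ⟨s1, s2, s3⟩,
    ⟨t1, t2⟩, u1⟩ := hnd
  have R1 := hsub a b c (by simp) (by simp) (by simp)
  have R2 := hsub d e f (by simp) (by simp) (by simp)
  have R3 := hsub g k i (by simp) (by simp) (by simp)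
  have C1 := hsub a d g (by simp) (by simp) (by simp)
  have C2 := hsub b e k (by simp) (by simp) (by simp)
  have C3 := hsub c f i (by simp) (by simp) (by simp)
  intro v hv
  rw [List.mem_toFinset] at hv
  simp only [List.mem_cons, List.not_mem_nil, or_false] at hv
  rcases hv with rfl | rfl | rfl | rfl | rfl | rfl | rfl | rfl | rfl
  · refine two_le r1 c1 R1 C1 (by simp) (by simp) (hne b _ _ (by simp) ?_)
    simp only [Finset.mem_insert, Finset.mem_singleton, not_or]
    exact ⟨Ne.symm n1, m2, m5⟩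
  · refine two_le r1 c2 R1 C2 (by simp) (by simp) (hne a _ _ (by simp) ?_)
    simp only [Finset.mem_insert, Finset.mem_singleton, not_or]
    exact ⟨n1, n4, n7⟩
  · refine two_le r1 c3 R1 C3 (by simp) (by simp) (hne a _ _ (by simp) ?_)
    simp only [Finset.mem_insert, Finset.mem_singleton, not_or]
    exact ⟨n2, n5, n8⟩
  · refine two_le r2 c1 R2 C1 (by simp) (by simp) (hne e _ _ (by simp) ?_)
    simp only [Finset.mem_insert, Finset.mem_singleton, not_or]
    exact ⟨Ne.symm n4, Ne.symm p1, q2⟩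
  · refine two_le r2 c2 R2 C2 (by simp) (by simp) (hne d _ _ (by simp) ?_)
    simp only [Finset.mem_insert, Finset.mem_singleton, not_or]
    exact ⟨Ne.symm m2, p1, p4⟩
  · refine two_le r2 c3 R2 C3 (by simp) (by simp) (hne d _ _ (by simp) ?_)
    simp only [Finset.mem_insert, Finset.mem_singleton, not_or]
    exact ⟨Ne.symm o1, p2, p5⟩
  · refine two_le r3 c1 R3 C1 (by simp) (by simp) (hne k _ _ (by simp) ?_)
    simp only [Finset.mem_insert, Finset.mem_singleton, not_or]
    exact ⟨Ne.symm n7, Ne.symm p4, Ne.symm t1⟩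
  · refine two_le r3 c2 R3 C2 (by simp) (by simp) (hne g _ _ (by simp) ?_)
    simp only [Finset.mem_insert, Finset.mem_singleton, not_or]
    exact ⟨Ne.symm m5, Ne.symm q2, t1⟩
  · refine two_le r3 c3 R3 C3 (by simp) (by simp) (hne g _ _ (by simp) ?_)
    simp only [Finset.mem_insert, Finset.mem_singleton, not_or]
    exact ⟨Ne.symm o4, Ne.symm s1, t2⟩

end Pool.Agent.Hhelper49.Core9
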