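import Mathlib
import Pool.Agent.Hhelper49.Core9.Basic

/-!
Homomorphic images of prism-free Steiner quasigroups.
-/

namespace Pool.Agent.Hhelper49.Core9

open Finset

namespace SQ

variable {V U : Type*} [Fintype V] [DecidableEq V] [DecidableEq U] {m : V → V → V} {k : U → U → U}

/-- fibres of a homomorphism -/
def fib (f : V → U) (u : U) : Finset V := univ.filter fun x => f x = u

omit [DecidableEq V] in
theorem mem_fib {f : V → U} {u : U} {x : V} : x ∈ fib f u ↔ f x = u := by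
  simp [fib]

theorem fib_card_le (h : SQ m) (hk : SQ k) (f : V → U) (hf : ∀ x y, f (m x y) = k (f x) (f y))
    (hsurj : Function.Surjective f) (u v : U) : (fib f u).card ≤ (fib f v).card := by
  obtain ⟨c, hc⟩ := hsurj (k u v)
  have : (fib f u).image (fun x => m c x) ⊆ fib f v := by
    intro y hy
    obtain ⟨x, hx, rfl⟩ := Finset.mem_image.1 hy
    rw [mem_fib] at hx ⊢
    rw [hf, hc, hx, hk.comm u v, hk.inv']
  calc (fib f u).card = ((fib f u).image (fun x => m c x)).card :=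
        (Finset.card_image_of_injective _ fun s t e => h.cancel e).symm
    _ ≤ _ := Finset.card_le_card this

theorem fib_card (h : SQ m) (hk : SQ k) (f : V → U) (hf : ∀ x y, f (m x y) = k (f x) (f y))
    (hsurj : Function.Surjective f) (u v : U) : (fib f u).card = (fib f v).card :=
  le_antisymm (h.fib_card_le hk f hf hsurj u v) (h.fib_card_le hk f hf hsurj v u)

/-- Over a nondegenerate triangle of the image, every outer triple lifts. -/
theorem lift (h : SQ m) (hk : SQ k) (hp : NoPrism m) (f : V → U)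
    (hf : ∀ x y, f (m x y) = k (f x) (f y)) (hsurj : Function.Surjective f)
    {A B C X Y Z : U} (e1 : k X Y = A) (e2 : k Y Z = B) (e3 : k Z X = C)
    (hnd : [A, B, C, X, Y, Z].Nodup) {a b c : V} (ha : f a = A) (hb : f b = B) (hc : f c = C) :
    ∃ x y z, f x = X ∧ f y = Y ∧ f z = Z ∧ m x y = a ∧ m y z = b ∧ m z x = c := by
  classical
  have hnd' := hnd
  simp only [List.nodup_cons, List.mem_cons, List.not_mem_nil, or_false, not_or,
    List.nodup_nil, not_false_eq_true, and_true] at hnd'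
  obtain ⟨⟨n1, n2, n3, n4, n5⟩, ⟨m1, m2, m3, m4⟩, ⟨o1, o2, o3⟩, ⟨p1, p2⟩, q1⟩ := hnd'
  set φ : V × V × V → V × V × V := fun t => (m t.1 t.2.1, m t.2.1 t.2.2, m t.2.2 t.1) with hφ
  set S : Finset (V × V × V) := fib f X ×ˢ fib f Y ×ˢ fib f Z with hS
  set T : Finset (V × V × V) := fib f A ×ˢ fib f B ×ˢ fib f C with hT
  have hmaps : ∀ t ∈ S, φ t ∈ T := by
    rintro ⟨x, y, z⟩ ht
    simp only [hS, hT, hφ, Finset.mem_product, mem_fib] at ht ⊢
    obtain ⟨hx, hy, hz⟩ := ht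
    refine ⟨?_, ?_, ?_⟩
    · rw [hf, hx, hy, e1]
    · rw [hf, hy, hz, e2]
    · rw [hf, hz, hx, e3]
  have hcard : S.card = T.card := by
    simp only [hS, hT, Finset.card_product]
    rw [h.fib_card hk f hf hsurj X A, h.fib_card hk f hf hsurj Y B, h.fib_card hk f hf hsurj Z C]
  have hinj : ∀ t ∈ S, ∀ t' ∈ S, φ t = φ t' → t = t' := by
    rintro ⟨x, y, z⟩ ht ⟨x', y', z'⟩ ht' he
    simp only [hS, Finset.mem_product, mem_fib] at ht ht'
    obtain ⟨hx, hy, hz⟩ := ht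
    obtain ⟨hx', hy', hz'⟩ := ht'
    simp only [hφ, Prod.mk.injEq] at he
    obtain ⟨g1, g2, g3⟩ := he
    by_cases hxx : x = x'
    · subst hxx
      have hy2 := h.cancel g1
      have hz2 := h.cancel' g3
      rw [hy2, hz2]
    · exfalso
      have hyy : y ≠ y' := by
        rintro rfl
        exact hxx (h.cancel' g1)
      have hzz : z ≠ z' := by
        rintro rfl
        exact hxx (h.cancel g3)
      have ne : ∀ {p q : V} {P Q : U}, f p = P → f q = Q → P ≠ Q → p ≠ q := by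
        intro p q P Q hp hq hPQ hpq
        apply hPQ
        rw [← hp, ← hq, hpq]
      have fa : f (m x y) = A := by rw [hf, hx, hy, e1]
      have fb : f (m y z) = B := by rw [hf, hy, hz, e2]
      have fc : f (m z x) = C := by rw [hf, hz, hx, e3]
      apply hp (m x y) (m y z) (m z x) x y z x' y' z' rfl rfl rfl g1.symm g2.symm g3.symm
      simp only [List.nodup_cons, List.mem_cons, List.not_mem_nil, or_false, not_or,
        List.nodup_nil, not_false_eq_true, and_true]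
      exact ⟨⟨ne fa fb n1, ne fa fc n2, ne fa hx n3, ne fa hy n4, ne fa hz n5, ne fa hx' n3,
        ne fa hy' n4, ne fa hz' n5⟩, ⟨ne fb fc m1, ne fb hx m2, ne fb hy m3, ne fb hz m4,
        ne fb hx' m2, ne fb hy' m3, ne fb hz' m4⟩, ⟨ne fc hx o1, ne fc hy o2, ne fc hz o3,
        ne fc hx' o1, ne fc hy' o2, ne fc hz' o3⟩, ⟨ne hx hy p1, ne hx hz p2, hxx, ne hx hy' p1,
        ne hx hz' p2⟩, ⟨ne hy hz q1, ne hy hx' (Ne.symm p1), hyy, ne hy hz' q1⟩,
        ⟨ne hz hx' (Ne.symm p2), ne hz hy' (Ne.symm q1), hzz⟩, ⟨ne hx' hy' p1, ne hx' hz' p2⟩,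
        ne hy' hz' q1⟩
  have hmem : (a, b, c) ∈ T := by
    simp only [hT, Finset.mem_product, mem_fib]
    exact ⟨ha, hb, hc⟩
  obtain ⟨⟨x, y, z⟩, ht, he⟩ := Finset.surj_on_of_inj_on_of_card_le (s := S) (t := T)
    (fun t _ => φ t) (fun t ht => hmaps t ht) (fun t t' ht ht' he => hinj t ht t' ht' he)
    hcard.ge (a, b, c) hmem
  simp only [hS, Finset.mem_product, mem_fib] at ht
  simp only [hφ, Prod.mk.injEq] at he
  exact ⟨x, y, z, ht.1, ht.2.1, ht.2.2, he.1.symm, he.2.1.symm, he.2.2.symm⟩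

/-- The image of a prism-free system has no prism. -/
theorem image_noPrism (h : SQ m) (hk : SQ k) (hp : NoPrism m) (f : V → U)
    (hf : ∀ x y, f (m x y) = k (f x) (f y)) (hsurj : Function.Surjective f) : NoPrism k := by
  intro A B C X Y Z X' Y' Z' e1 e2 e3 e1' e2' e3' hnd
  have hnd' := hnd
  simp only [List.nodup_cons, List.mem_cons, List.not_mem_nil, or_false, not_or,
    List.nodup_nil, not_false_eq_true, and_true] at hnd'
  obtain ⟨⟨n1, n2, n3, n4, n5, n6, n7, n8⟩, ⟨m1, m2, m3, m4, m5, m6, m7⟩,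
    ⟨o1, o2, o3, o4, o5, o6⟩, ⟨p1, p2, p3, p4, p5⟩, ⟨q1, q2, q3, q4⟩, ⟨r1, r2, r3⟩,
    ⟨s1, s2⟩, t1⟩ := hnd'
  obtain ⟨a, ha⟩ := hsurj A
  obtain ⟨b, hb⟩ := hsurj B
  obtain ⟨c, hc⟩ := hsurj C
  have l1 : [A, B, C, X, Y, Z].Nodup := by
    simp only [List.nodup_cons, List.mem_cons, List.not_mem_nil, or_false, not_or,
      List.nodup_nil, not_false_eq_true, and_true]
    exact ⟨⟨n1, n2, n3, n4, n5⟩, ⟨m1, m2, m3, m4⟩, ⟨o1, o2, o3⟩, ⟨p1, p2⟩, q1⟩
  have l2 : [A, B, C, X', Y', Z'].Nodup := by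
    simp only [List.nodup_cons, List.mem_cons, List.not_mem_nil, or_false, not_or,
      List.nodup_nil, not_false_eq_true, and_true]
    exact ⟨⟨n1, n2, n6, n7, n8⟩, ⟨m1, m5, m6, m7⟩, ⟨o4, o5, o6⟩, ⟨s1, s2⟩, t1⟩
  obtain ⟨x, y, z, hx, hy, hz, g1, g2, g3⟩ := h.lift hk hp f hf hsurj e1 e2 e3 l1 ha hb hc
  obtain ⟨x', y', z', hx', hy', hz', g1', g2', g3'⟩ :=
    h.lift hk hp f hf hsurj e1' e2' e3' l2 ha hb hc
  apply hp a b c x y z x' y' z' g1 g2 g3 g1' g2' g3'
  apply List.Nodup.of_map f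
  simp only [List.map_cons, List.map_nil]
  rw [ha, hb, hc, hx, hy, hz, hx', hy', hz']
  exact hnd

/-- The proper image of a prism-free system has no Pasch configuration. -/
theorem image_noPasch (h : SQ m) (hk : SQ k) (hp : NoPrism m) (f : V → U)
    (hf : ∀ x y, f (m x y) = k (f x) (f y)) (hsurj : Function.Surjective f)
    (hninj : ¬ Function.Injective f) {A B C X Y Z : U} (e0 : k A B = C)
    (e1 : k X Y = A) (e2 : k Y Z = B) (e3 : k Z X = C) (hnd : [A, B, C, X, Y, Z].Nodup) :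
    False := by
  classical
  have hnd' := hnd
  simp only [List.nodup_cons, List.mem_cons, List.not_mem_nil, or_false, not_or,
    List.nodup_nil, not_false_eq_true, and_true] at hnd'
  obtain ⟨⟨n1, n2, n3, n4, n5⟩, ⟨m1, m2, m3, m4⟩, ⟨o1, o2, o3⟩, ⟨p1, p2⟩, q1⟩ := hnd'
  obtain ⟨x, hx⟩ := hsurj B
  obtain ⟨y, hy⟩ := hsurj C
  -- another point in the fibre over `A`
  have hbig : 1 < (fib f A).card := by
    unfold Function.Injective at hninj
    push Not at hninj
    obtain ⟨s, t, hst, hne⟩ := hninj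
    have : 1 < (fib f (f s)).card := by
      rw [Finset.one_lt_card]
      exact ⟨s, mem_fib.2 rfl, t, mem_fib.2 hst.symm, hne⟩
    rwa [h.fib_card hk f hf hsurj (f s) A] at this
  have hxyA : m x y ∈ fib f A := by
    rw [mem_fib, hf, hx, hy, ← e0, hk.comm A B, hk.inv]
  obtain ⟨z, hz, hzne⟩ := Finset.exists_mem_ne hbig (m x y)
  rw [mem_fib] at hz
  have fa : f (m x y) = A := mem_fib.1 hxyA
  have fb : f (m y z) = B := by rw [hf, hy, hz, ← e0, hk.inv'']
  have fc : f (m z x) = C := by rw [hf, hz, hx, e0]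
  obtain ⟨x', y', z', hx', hy', hz', g1, g2, g3⟩ := h.lift hk hp f hf hsurj e1 e2 e3 hnd fa fb fc
  have ne : ∀ {p q : V} {P Q : U}, f p = P → f q = Q → P ≠ Q → p ≠ q := by
    intro p q P Q hp hq hPQ hpq
    apply hPQ
    rw [← hp, ← hq, hpq]
  have d1 : m x y ≠ z := hzne.symm
  have d2 : m y z ≠ x := by
    intro e
    apply d1
    rw [← e]
    rw [h.comm (m y z), h.inv]
  have d3 : m z x ≠ y := by
    intro e
    apply d1
    rw [← e, h.comm x, h.inv']
  apply hp (m x y) (m y z) (m z x) x y z x' y' z' rfl rfl rfl g1 g2 g3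
  simp only [List.nodup_cons, List.mem_cons, List.not_mem_nil, or_false, not_or,
    List.nodup_nil, not_false_eq_true, and_true]
  exact ⟨⟨ne fa fb n1, ne fa fc n2, ne fa hx n1, ne fa hy n2, d1, ne fa hx' n3,
    ne fa hy' n4, ne fa hz' n5⟩, ⟨ne fb fc m1, d2, ne fb hy m1, ne fb hz (Ne.symm n1),
    ne fb hx' m2, ne fb hy' m3, ne fb hz' m4⟩, ⟨ne fc hx (Ne.symm m1), d3, ne fc hz (Ne.symm n2),
    ne fc hx' o1, ne fc hy' o2, ne fc hz' o3⟩, ⟨ne hx hy m1, ne hx hz (Ne.symm n1), ne hx hx' m2,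
    ne hx hy' m3, ne hx hz' m4⟩, ⟨ne hy hz (Ne.symm n2), ne hy hx' o1, ne hy hy' o2, ne hy hz' o3⟩,
    ⟨ne hz hx' n3, ne hz hy' n4, ne hz hz' n5⟩, ⟨ne hx' hy' p1, ne hx' hz' p2⟩,
    ne hy' hz' q1⟩

end SQ

end Pool.Agent.Hhelper49.Core9
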