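import Mathlib
import Pool.Agent.Hhelper49.Core9.Defs
import Pool.Agent.Hhelper49.Core9.Trans
import Pool.Agent.Hhelper49.Core9.TwoGroup
import Pool.Agent.Hhelper66.Fan.Fano

/-!
A proper subsystem of a Steiner triple system without a 2-core on nine vertices contains at most
one third of the points.
-/

namespace Pool.Agent.Hhelper49.Core9

open Finset Pool.Agent.Hhelper66.Fan

/-- A map of a finite set such that a point with a twin that is not fixed is never an image. -/
theorem count_abs {α : Type*} [Fintype α] [DecidableEq α] (f : α → α)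
    (h : ∀ t t', t ≠ t' → f t = f t' → f t ≠ t → ∀ u, f u ≠ t) :
    (∀ t t', t ≠ t' → f t = f t' → f (f t) = f t) ∧
    (∀ w, (∀ t, f t ≠ w) → ∃ t', t' ≠ w ∧ f t' = f w) := by
  classical
  have hs : ∀ w, ∃ t, ((∃ u, f u = w) → f t = w) ∧ (f w = w → t = w) := by
    intro w
    by_cases h1 : f w = w
    · exact ⟨w, fun _ => h1, fun _ => rfl⟩
    · by_cases h2 : ∃ u, f u = w
      · obtain ⟨u, hu⟩ := h2
        exact ⟨u, fun _ => hu, fun e => absurd e h1⟩
      · exact ⟨w, fun e => absurd e h2, fun e => absurd e h1⟩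
  choose s hs1 hs2 using hs
  let I : Finset α := univ.image f
  let R : Finset α := I.image s
  have hI : ∀ w, w ∈ I ↔ ∃ u, f u = w := by intro w; simp [I]
  have hfs : ∀ w ∈ I, f (s w) = w := fun w hw => hs1 w ((hI w).1 hw)
  have hcard : R.card = I.card := by
    apply Finset.card_image_of_injOn
    intro a ha b hb e
    have ha' := hfs a (Finset.mem_coe.1 ha)
    have hb' := hfs b (Finset.mem_coe.1 hb)
    have e2 : f (s a) = f (s b) := congrArg f e
    rw [ha', hb'] at e2
    exact e2
  have hsub : I ⊆ R := by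
    intro t ht
    by_contra hR
    have hft : f t ∈ I := (hI _).2 ⟨t, rfl⟩
    have hne : t ≠ s (f t) := by
      intro e
      apply hR
      rw [e]
      exact Finset.mem_image_of_mem s hft
    have hnf : f t ≠ t := by
      intro e
      apply hne
      rw [e, hs2 t e]
    obtain ⟨u, hu⟩ := (hI t).1 ht
    exact h t (s (f t)) hne (hfs _ hft).symm hnf u hu
  have hRI : I = R := Finset.eq_of_subset_of_card_le hsub hcard.le
  refine ⟨?_, ?_⟩
  · intro t t' hne e
    by_contra hnf
    have hft : f t ∈ I := (hI _).2 ⟨t, rfl⟩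
    have hsR : s (f t) ∈ I := by rw [hRI]; exact Finset.mem_image_of_mem s hft
    have hs' : f (s (f t)) = f t := hfs _ hft
    have hsn : f (s (f t)) ≠ s (f t) := by
      intro e2
      apply hnf
      rw [hs'] at e2
      rw [← e2] at hs'
      exact hs'
    obtain ⟨u, hu⟩ := (hI _).1 hsR
    by_cases h1 : s (f t) = t
    · exact h (s (f t)) t' (by rw [h1]; exact hne) (by rw [hs', e]) hsn u hu
    · exact h (s (f t)) t h1 hs' hsn u hu
  · intro w hw
    have hwI : w ∉ I := by
      intro hh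
      obtain ⟨u, hu⟩ := (hI w).1 hh
      exact hw u hu
    have hwR : w ∉ R := by rw [← hRI]; exact hwI
    have hft : f w ∈ I := (hI _).2 ⟨w, rfl⟩
    refine ⟨s (f w), ?_, hfs _ hft⟩
    intro e
    apply hwR
    rw [← e]
    exact Finset.mem_image_of_mem s hft

variable {V : Type*} {m : V → V → V}

/-- A triple with a twin is collinear or bad. -/
theorem bad_of_twin [Fintype V] [DecidableEq V] (h : SQ m) {t t' : V × V × V} (hne : t' ≠ t)
    (e : o m t' = o m t) : o m t = t ∨ Bad m t := by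
  by_cases hd : t.1 = t.2.1 ∨ t.2.1 = t.2.2 ∨ t.2.2 = t.1
  · exact absurd (deg h hd e) hne
  · push Not at hd
    by_cases hcol : m t.1 t.2.1 = t.2.2
    · exact Or.inl (col h hcol)
    · exact Or.inr ⟨hd.1, hd.2.1, hd.2.2, hcol, t', hne, e⟩

/-- A triangle outside a subsystem whose midpoints lie in the subsystem has collinear midpoints. -/
theorem tri_closed [Fintype V] [DecidableEq V] {B : Finset (Finset V)} (hm : OpOf B m)
    (hc : ¬ ∃ S, NineCore B S) (W : Finset V) (hW : ∀ a ∈ W, ∀ b ∈ W, m a b ∈ W) {x y z : V}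
    (hx : x ∉ W) (h1 : m x y ∈ W) (h2 : m y z ∈ W) (h3 : m z x ∈ W) :
    m (m x y) (m y z) = m z x := by
  classical
  have h := hm.sq
  let m' : W → W → W := fun a b => ⟨m a b, hW a a.2 b b.2⟩
  let ι : W × W × W → V × V × V := fun t => ((t.1 : V), (t.2.1 : V), (t.2.2 : V))
  have hι : ∀ t t', ι t = ι t' → t = t' := by
    rintro ⟨a, b, c⟩ ⟨a', b', c'⟩ e
    simp only [ι, Prod.mk.injEq] at e
    obtain ⟨e1, e2, e3⟩ := e
    rw [Subtype.ext e1, Subtype.ext e2, Subtype.ext e3]
  have ho : ∀ t, ι (o m' t) = o m (ι t) := fun t => rfl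
  have key := count_abs (o m') (by
    intro t t' hne e hnf u hu
    have hne' : ι t' ≠ ι t := fun e' => hne (hι _ _ e').symm
    have e' : o m (ι t') = o m (ι t) := by rw [← ho, ← ho, e]
    rcases bad_of_twin h hne' e' with k | k
    · exact hnf (hι _ _ (by rw [ho, k]))
    · exact k.not_image hm hc (ι u) (by rw [← ho, hu]))
  let τ : W × W × W := (⟨m y z, h2⟩, ⟨m z x, h3⟩, ⟨m x y, h1⟩)
  have hτ : o m (x, y, z) = ι τ := rfl
  have fin : o m (ι τ) = ι τ → m (m x y) (m y z) = m z x := by
    intro e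
    rw [← hτ] at e
    simp only [o, Prod.mk.injEq] at e
    exact e.2.1
  apply fin
  by_cases him : ∃ t, o m' t = τ
  · obtain ⟨t, ht⟩ := him
    have e1 : o m (ι t) = o m (x, y, z) := by rw [← ho, ht, hτ]
    have hne : ι t ≠ (x, y, z) := by
      intro e
      have e2 : (t.1 : V) = x := congrArg Prod.fst e
      exact hx (e2 ▸ t.1.2)
    have := (count hm hc).1 _ _ hne e1
    rw [e1, hτ] at this
    exact this
  · push Not at him
    obtain ⟨t', hne, e⟩ := key.2 τ him
    have hne' : ι t' ≠ ι τ := fun e' => hne (hι _ _ e')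
    have e' : o m (ι t') = o m (ι τ) := by rw [← ho, ← ho, e]
    rcases bad_of_twin h hne' e' with k | k
    · exact k
    · exact absurd hτ (k.not_image hm hc (x, y, z))

/-- Two points outside joined through the subsystem have at most two common neighbours. -/
theorem common_two [Fintype V] [DecidableEq V] {B : Finset (Finset V)} (hm : OpOf B m)
    (hc : ¬ ∃ S, NineCore B S) (W : Finset V) (hW : ∀ a ∈ W, ∀ b ∈ W, m a b ∈ W)
    {x y z z' a : V} (hx : x ∉ W) (ha : a ∈ W) (hxy : m x y = a)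
    (hz1 : m x z ∈ W) (hz2 : m y z ∈ W) (hz1' : m x z' ∈ W) (hz2' : m y z' ∈ W)
    (hne : z ≠ z') : z' = m a z := by
  by_contra hcon
  apply hc
  have h := hm.sq
  have out : ∀ u v, u ∉ W → m u v ∈ W → v ∉ W := by
    intro u v hu huv hv
    apply hu
    have e : m (m u v) v = u := h.inv' u v
    rw [← e]
    exact hW _ huv _ hv
  have hy : y ∉ W := out x y hx (by rw [hxy]; exact ha)
  have hz : z ∉ W := out x z hx hz1
  have hz' : z' ∉ W := out x z' hx hz1'
  have nexy : x ≠ y := by
    rintro rfl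
    rw [h.idem] at hxy
    exact hx (hxy ▸ ha)
  have nexz : x ≠ z := by
    rintro rfl
    rw [h.idem] at hz1
    exact hx hz1
  have neyz : y ≠ z := by
    rintro rfl
    rw [h.idem] at hz2
    exact hy hz2
  have nexz' : x ≠ z' := by
    rintro rfl
    rw [h.idem] at hz1'
    exact hx hz1'
  have neyz' : y ≠ z' := by
    rintro rfl
    rw [h.idem] at hz2'
    exact hy hz2'
  have hz3 : m z x ∈ W := by rw [h.comm]; exact hz1
  have hz3' : m z' x ∈ W := by rw [h.comm]; exact hz1'
  have t1 := tri_closed hm hc W hW hx (by rw [hxy]; exact ha) hz2 hz3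
  have t2 := tri_closed hm hc W hW hx (by rw [hxy]; exact ha) hz2' hz3'
  rw [hxy] at t1 t2
  have nW : ∀ u v, u ∈ W → v ∉ W → u ≠ v := by
    rintro u v hu hv rfl
    exact hv hu
  -- the first Pasch configuration
  have ab : a ≠ m y z := by
    intro e
    apply nexz
    have : m y x = m y z := by rw [h.comm y x, hxy, e]
    exact h.cancel this
  have ac : a ≠ m z x := by
    intro e
    apply neyz
    have : m x y = m x z := by rw [hxy, h.comm x z, e]
    exact h.cancel this
  have bc : m y z ≠ m z x := by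
    intro e
    apply nexy
    have : m z y = m z x := by rw [h.comm z y, e]
    exact (h.cancel this).symm
  have q : PQ m x (m y z) y (m z x) a z := by
    refine ⟨?_, hxy, ?_, ?_, ?_⟩
    · simp only [List.nodup_cons, List.mem_cons, List.not_mem_nil, or_false, not_or,
        List.nodup_nil, not_false_eq_true, and_true]
      exact ⟨⟨Ne.symm (nW _ _ hz2 hx), nexy, Ne.symm (nW _ _ hz3 hx), Ne.symm (nW _ _ ha hx),
          nexz⟩,
        ⟨nW _ _ hz2 hy, bc, Ne.symm ab, nW _ _ hz2 hz⟩,
        ⟨Ne.symm (nW _ _ hz3 hy), Ne.symm (nW _ _ ha hy), neyz⟩,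
        ⟨Ne.symm ac, nW _ _ hz3 hz⟩, nW _ _ ha hz⟩
    · rw [h.comm z x, h.inv]
    · rw [h.inv'']
    · rw [← t1, h.comm a, h.inv]
  have hd := diag_eq hm hc q
  -- the second one
  have b'a : m y z' ≠ a := by
    intro e
    apply nexz'
    have : m y x = m y z' := by rw [h.comm y x, hxy, e]
    exact h.cancel this
  have c'a : m z' x ≠ a := by
    intro e
    apply neyz'
    have : m x y = m x z' := by rw [hxy, h.comm x z', e]
    exact h.cancel this
  have b'b : m y z' ≠ m y z := fun e => hne (h.cancel e).symm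
  have c'c : m z' x ≠ m z x := fun e => hne (h.cancel' e).symm
  have c'b : m z' x ≠ m y z := by
    intro e
    apply hcon
    rw [← hd, ← e, h.comm z' x, h.inv]
  have b'c : m y z' ≠ m z x := by
    intro e
    apply c'b
    rw [← t2, e, ← t1, h.inv]
  have b'c' : m y z' ≠ m z' x := by
    intro e
    apply nexy
    have : m z' y = m z' x := by rw [h.comm z' y, e]
    exact (h.cancel this).symm
  refine core_of_tri hm q (u1 := z') (u2 := m y z') (u3 := m z' x)
    (Ne.symm (nW _ _ hz2' hz')) b'c' (nW _ _ hz3' hz') ?_ ?_ ?_ ?_ ?_ ?_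
  · simp only [Finset.mem_insert, Finset.mem_singleton, not_or]
    exact ⟨Ne.symm nexz', Ne.symm (nW _ _ hz2 hz'), Ne.symm neyz', Ne.symm (nW _ _ hz3 hz'),
      Ne.symm (nW _ _ ha hz'), Ne.symm hne⟩
  · simp only [Finset.mem_insert, Finset.mem_singleton, not_or]
    exact ⟨nW _ _ hz2' hx, b'b, nW _ _ hz2' hy, b'c, b'a, nW _ _ hz2' hz⟩
  · simp only [Finset.mem_insert, Finset.mem_singleton, not_or]
    exact ⟨nW _ _ hz3' hx, c'b, nW _ _ hz3' hy, c'c, c'a, nW _ _ hz3' hz⟩
  · -- `b' c' = a`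
    have : m (m y z') (m z' x) = a := by rw [← t2, h.comm a, h.inv]
    rw [this]
    simp
  · -- `c' z' = x`
    have : m (m z' x) z' = x := h.inv'' z' x
    rw [this]
    simp
  · -- `z' b' = y`
    have : m z' (m y z') = y := by rw [h.comm y z', h.inv]
    rw [this]
    simp

/-- The points joined to `x` through `W`. -/
def Nb [Fintype V] [DecidableEq V] (m : V → V → V) (W : Finset V) (x : V) : Finset V :=
  univ.filter fun z => m x z ∈ W

section count

variable [Fintype V] [DecidableEq V]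

theorem mem_Nb {W : Finset V} {x z : V} : z ∈ Nb m W x ↔ m x z ∈ W := by simp [Nb]

theorem card_Nb (h : SQ m) (W : Finset V) (x : V) : (Nb m W x).card = W.card := by
  apply Finset.card_bij (fun z _ => m x z)
  · intro z hz
    exact mem_Nb.1 hz
  · intro z _ z' _ e
    exact h.cancel e
  · intro c hc
    exact ⟨m x c, mem_Nb.2 (by rw [h.inv]; exact hc), h.inv x c⟩

theorem Nb_out (h : SQ m) (W : Finset V) (hW : ∀ a ∈ W, ∀ b ∈ W, m a b ∈ W) {x z : V}
    (hx : x ∉ W) (hz : z ∈ Nb m W x) : z ∉ W := by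
  intro hzW
  apply hx
  have e : m (m x z) z = x := h.inv' x z
  rw [← e]
  exact hW _ (mem_Nb.1 hz) _ hzW

theorem Nb_symm (h : SQ m) {W : Finset V} {x z : V} (hz : z ∈ Nb m W x) : x ∈ Nb m W z := by
  rw [mem_Nb] at hz ⊢
  rw [h.comm]
  exact hz

theorem card_inter_le {B : Finset (Finset V)} (hm : OpOf B m) (hc : ¬ ∃ S, NineCore B S)
    (W : Finset V) (hW : ∀ a ∈ W, ∀ b ∈ W, m a b ∈ W) {x y : V} (hx : x ∉ W)
    (hy : y ∈ Nb m W x) : (Nb m W x ∩ Nb m W y).card ≤ 2 := by
  rcases (Nb m W x ∩ Nb m W y).eq_empty_or_nonempty with e | ⟨z, hz⟩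
  · rw [e]
    simp
  · have hz' := Finset.mem_inter.1 hz
    have hsub : Nb m W x ∩ Nb m W y ⊆ {z, m (m x y) z} := by
      intro z' hz''
      have h2 := Finset.mem_inter.1 hz''
      rw [Finset.mem_insert, Finset.mem_singleton]
      by_cases e : z = z'
      · exact Or.inl e.symm
      · right
        exact common_two hm hc W hW hx (mem_Nb.1 hy) rfl (mem_Nb.1 hz'.1) (mem_Nb.1 hz'.2)
          (mem_Nb.1 h2.1) (mem_Nb.1 h2.2) e
    exact (Finset.card_le_card hsub).trans Finset.card_le_two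

theorem even_compl (h : SQ m) (W : Finset V) (hW : ∀ a ∈ W, ∀ b ∈ W, m a b ∈ W) {a : V}
    (ha : a ∈ W) : Even Wᶜ.card := by
  have key : ∑ _x ∈ Wᶜ, (1 : ZMod 2) = 0 := by
    refine Finset.sum_involution (fun x _ => m a x) ?_ ?_ ?_ ?_
    · intro x _
      decide
    · intro x hx _ e
      apply Finset.mem_compl.1 hx
      have := h.eq_right e
      rw [← this]
      exact ha
    · intro x hx
      rw [Finset.mem_compl] at hx ⊢
      intro hW'
      apply hx
      have e : m a (m a x) = x := h.inv a x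
      rw [← e]
      exact hW _ ha _ hW'
    · intro x _
      exact h.inv a x
  rw [Finset.sum_const, nsmul_eq_mul, mul_one] at key
  exact (ZMod.natCast_eq_zero_iff_even).1 key

/-- A proper closed set contains at most one third of the points. -/
theorem three_mul_le {B : Finset (Finset V)} (hm : OpOf B m) (hc : ¬ ∃ S, NineCore B S)
    (W : Finset V) (hW : ∀ a ∈ W, ∀ b ∈ W, m a b ∈ W) (hne : W ≠ univ)
    (h8 : 8 ≤ Fintype.card V) : 3 * W.card ≤ Fintype.card V := by
  by_contra hcon
  push Not at hcon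
  have h := hm.sq
  obtain ⟨x0, hx0⟩ : ∃ x, x ∉ W := by
    by_contra hh
    push Not at hh
    exact hne (Finset.eq_univ_iff_forall.2 hh)
  have hXc : Wᶜ.card = Fintype.card V - W.card := Finset.card_compl W
  have hWle : W.card ≤ Fintype.card V := Finset.card_le_univ W
  obtain ⟨a, ha⟩ : W.Nonempty := Finset.card_pos.1 (by omega)
  obtain ⟨k, hk⟩ := even_compl h W hW ha
  have hsubX : ∀ x, x ∉ W → Nb m W x ⊆ Wᶜ := by
    intro x hx z hz
    exact Finset.mem_compl.2 (Nb_out h W hW hx hz)
  have low : ∀ x, x ∉ W → ∀ y ∈ Nb m W x, 2 * W.card ≤ (Nb m W x ∪ Nb m W y).card + 2 := by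
    intro x hx y hy
    have h1 := Finset.card_union_add_card_inter (Nb m W x) (Nb m W y)
    rw [card_Nb h, card_Nb h] at h1
    have h2 := card_inter_le hm hc W hW hx hy
    omega
  obtain ⟨y0, hy0⟩ : ∃ y, y ∈ Nb m W x0 :=
    ⟨m a x0, mem_Nb.2 (by rw [h.comm a x0, h.inv]; exact ha)⟩
  have hy0W := Nb_out h W hW hx0 hy0
  have up0 := Finset.card_le_card (Finset.union_subset (hsubX x0 hx0) (hsubX y0 hy0W))
  have low0 := low x0 hx0 y0 hy0
  have hX : Wᶜ.card + 2 = 2 * W.card := by omega
  have hcov : ∀ x, x ∉ W → ∀ y ∈ Nb m W x, Nb m W x ∪ Nb m W y = Wᶜ := by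
    intro x hx y hy
    apply Finset.eq_of_subset_of_card_le
      (Finset.union_subset (hsubX x hx) (hsubX y (Nb_out h W hW hx hy)))
    have := low x hx y hy
    omega
  have hsame : ∀ x, x ∉ W → ∀ u, u ∉ W → u ∉ Nb m W x → Nb m W u = Nb m W x := by
    intro x hx u hu hux
    apply Finset.eq_of_subset_of_card_le
    · intro v hv
      by_contra hvx
      have hx' : x ∈ Nb m W u ∪ Nb m W v := by
        rw [hcov u hu v hv]
        exact Finset.mem_compl.2 hx
      rcases Finset.mem_union.1 hx' with k1 | k1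
      · exact hux (Nb_symm h k1)
      · exact hvx (Nb_symm h k1)
    · rw [card_Nb h, card_Nb h]
  have hint : 0 < (Nb m W x0 ∩ Nb m W y0).card := by
    have h1 := Finset.card_union_add_card_inter (Nb m W x0) (Nb m W y0)
    rw [card_Nb h, card_Nb h] at h1
    omega
  obtain ⟨z0, hz0⟩ := Finset.card_pos.1 hint
  obtain ⟨hz1, hz2⟩ := Finset.mem_inter.1 hz0
  have hz0W := Nb_out h W hW hx0 hz1
  have hI : ∀ x, x ∉ W → (Wᶜ \ Nb m W x).card + 2 = W.card := by
    intro x hx
    rw [Finset.card_sdiff_of_subset (hsubX x hx), card_Nb h]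
    omega
  have hdis : ∀ x, x ∉ W → ∀ y ∈ Nb m W x, Disjoint (Wᶜ \ Nb m W x) (Wᶜ \ Nb m W y) := by
    intro x hx y hy
    rw [Finset.disjoint_left]
    intro u hu1 hu2
    rw [Finset.mem_sdiff, Finset.mem_compl] at hu1 hu2
    have hyW := Nb_out h W hW hx hy
    have e1 := hsame x hx u hu1.1 hu1.2
    have e2 := hsame y hyW u hu2.1 hu2.2
    have h3 : y ∈ Nb m W y := by
      rw [← e2, e1]
      exact hy
    rw [mem_Nb, h.idem] at h3
    exact hyW h3
  have hu : ((Wᶜ \ Nb m W x0) ∪ (Wᶜ \ Nb m W y0) ∪ (Wᶜ \ Nb m W z0)).card ≤ Wᶜ.card :=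
    Finset.card_le_card (Finset.union_subset
      (Finset.union_subset Finset.sdiff_subset Finset.sdiff_subset) Finset.sdiff_subset)
  rw [Finset.card_union_of_disjoint (Finset.disjoint_union_left.2
    ⟨hdis x0 hx0 z0 hz1, hdis y0 hy0W z0 hz2⟩),
    Finset.card_union_of_disjoint (hdis x0 hx0 y0 hy0)] at hu
  have i1 := hI x0 hx0
  have i2 := hI y0 hy0W
  have i3 := hI z0 hz0W
  have h7 := h.seven_le W hW (by omega)
  omega

end count

end Pool.Agent.Hhelper49.Core9
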