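import Mathlib
import Pool.Agent.Hhelper49.Core9.Count

/-!
Upper bound and the subsystem inequality.
-/

namespace Pool.Agent.Hhelper49.Core9

open Finset

namespace SQ

variable {V : Type*} [Fintype V] [DecidableEq V] {m : V → V → V}

/-- Sum of an indicator. -/
def I (p : Prop) [Decidable p] : ℤ := if p then 1 else 0

theorem I_nonneg (p : Prop) [Decidable p] : 0 ≤ I p := by unfold I; split_ifs <;> norm_num

/-- involution reindexing -/
theorem sum_inv (h : SQ m) (c : V) (f : V → ℤ) : ∑ x : V, f (m c x) = ∑ x : V, f x :=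
  Equiv.sum_comp (⟨fun x => m c x, fun x => m c x, fun x => h.inv c x, fun x => h.inv c x⟩ : V ≃ V) f

theorem rot1 (h : SQ m) (W : Finset V) :
    (∑ a ∈ W, ∑ b ∈ W, ∑ c ∈ W, ∑ x : V, I (P12 m c a b (m c x))) =
      ∑ a ∈ W, ∑ b ∈ W, ∑ c ∈ W, ∑ x : V, I (P12 m a b c x) := by
  have e1 : ∀ a b c, (∑ x : V, I (P12 m c a b (m c x))) = ∑ x : V, I (P12 m c a b x) :=
    fun a b c => h.sum_inv c fun x => I (P12 m c a b x)
  simp only [e1]
  -- ∑ a, ∑ b, ∑ c, g c a b = ∑ a, ∑ b, ∑ c, g a b c
  rw [Finset.sum_congr rfl fun a _ => Finset.sum_comm (s := W) (t := W)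
    (f := fun b c => ∑ x : V, I (P12 m c a b x))]
  rw [Finset.sum_comm]

theorem rot2 (h : SQ m) (W : Finset V) :
    (∑ a ∈ W, ∑ b ∈ W, ∑ c ∈ W, ∑ x : V, I (P12 m b c a (m a x))) =
      ∑ a ∈ W, ∑ b ∈ W, ∑ c ∈ W, ∑ x : V, I (P12 m a b c x) := by
  have e1 : ∀ a b c, (∑ x : V, I (P12 m b c a (m a x))) = ∑ x : V, I (P12 m b c a x) :=
    fun a b c => h.sum_inv a fun x => I (P12 m b c a x)
  simp only [e1]
  rw [Finset.sum_comm]
  rw [Finset.sum_congr rfl fun b _ => Finset.sum_comm (s := W) (t := W)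
    (f := fun a c => ∑ x : V, I (P12 m b c a x))]

/-- The number of `P12`. -/
theorem sumP12 (h : SQ m) (W : Finset V) :
    (∑ a ∈ W, ∑ b ∈ W, ∑ c ∈ W, ∑ x : V, I (P12 m a b c x)) ≤
      ∑ b ∈ W, ∑ y : V, ∑ x : V, I (ncf m b y x) := by
  rw [Finset.sum_comm]
  refine Finset.sum_le_sum fun b _ => ?_
  have e1 : (∑ y : V, ∑ x : V, I (ncf m b y x)) = ∑ x : V, ∑ a : V, I (ncf m b (m x a) x) := by
    rw [Finset.sum_comm]
    refine Finset.sum_congr rfl fun x _ => ?_
    exact (h.sum_inv x fun y => I (ncf m b y x)).symm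
  rw [e1]
  have e2 : (∑ a ∈ W, ∑ c ∈ W, ∑ x : V, I (P12 m a b c x)) =
      ∑ x : V, ∑ a ∈ W, ∑ c ∈ W, I (P12 m a b c x) := by
    rw [Finset.sum_comm (s := (univ : Finset V)) (t := W)]
    refine Finset.sum_congr rfl fun a _ => ?_
    rw [Finset.sum_comm]
  rw [e2]
  refine Finset.sum_le_sum fun x _ => ?_
  have e3 : (∑ a ∈ W, I (ncf m b (m x a) x)) ≤ ∑ a : V, I (ncf m b (m x a) x) :=
    Finset.sum_le_sum_of_subset_of_nonneg (Finset.subset_univ W) fun _ _ _ => I_nonneg _
  refine le_trans ?_ e3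
  refine Finset.sum_le_sum fun a _ => ?_
  have key : ∀ c, P12 m a b c x → c = m x (m b (m a x)) ∧ ncf m b (m x a) x := by
    rintro c ⟨⟨hab, hbc, hac, hc⟩, h1, h2⟩
    unfold fx at h1 h2
    rw [h.inv] at h2
    have hc' : c = m x (m b (m a x)) := by
      rw [h.comm]; exact (h.rot h1).symm
    refine ⟨hc', ⟨?_, ?_⟩, ?_⟩
    · intro e
      have hxa : x = a := h.eq_left e.symm
      subst hxa
      rw [h.idem] at h1
      apply hbc
      rw [hc', h.idem, h.comm b x, h.inv]
    · rw [h.comm x a]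
      have h3 : m (m a x) (m b x) = c := by rw [← h2, h.inv']
      rw [h3, h.comm]
      exact h1
    · rw [h.inv, h.comm x a, ← hc']
      intro e
      apply hc
      rw [e, h.inv'']
  by_cases hex : ∃ c ∈ W, P12 m a b c x
  · obtain ⟨c0, hc0, hP⟩ := hex
    have hk := key c0 hP
    have : ∀ c ∈ W, I (P12 m a b c x) = if c = c0 then 1 else 0 := by
      intro c _
      unfold I
      by_cases hcc : c = c0
      · subst hcc; rw [if_pos hP, if_pos rfl]
      · rw [if_neg hcc, if_neg]
        intro hP'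
        exact hcc ((key c hP').1.trans hk.1.symm)
    rw [Finset.sum_congr rfl this, Finset.sum_ite_eq' W c0 (fun _ => (1 : ℤ)), if_pos hc0]
    unfold I
    rw [if_pos hk.2]
  · have : ∀ c ∈ W, I (P12 m a b c x) = 0 := by
      intro c hc
      unfold I
      rw [if_neg]
      intro hP
      exact hex ⟨c, hc, hP⟩
    rw [Finset.sum_congr rfl this]
    simp only [Finset.sum_const_zero]
    exact I_nonneg _

theorem ns_card (h : SQ m) (hp : NoPrism m) {a b : V} (hab : a ≠ b) :
    (∑ x : V, I (ns m a b x)) ≤ 4 := by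
  have e : (∑ x : V, I (ns m a b x)) = ((univ.filter fun x => ns m a b x).card : ℤ) := by
    unfold I
    rw [← Finset.sum_filter, Finset.sum_const, nsmul_eq_mul, mul_one]
  rw [e]
  have hbc : b ≠ m a b := fun e => hab (h.eq_right e.symm)
  have hac : a ≠ m a b := fun e => hab (h.eq_left e.symm)
  by_cases hex : ∃ x, ns m a b x
  · obtain ⟨x, hx⟩ := hex
    have : (univ.filter fun x => ns m a b x) ⊆ {x, m a x, m (m a b) x, m a (m (m a b) x)} := by
      intro x' hx'
      have hx' := (Finset.mem_filter.1 hx').2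
      by_cases hne : x = x'
      · simp [hne]
      · rcases h.tri hp hab hbc hac hx.2 hx'.2 hx.1 hx'.1 hne with e | e | e <;> simp [e]
    have c1 := Finset.card_le_card this
    have c2 : ({x, m a x, m (m a b) x, m a (m (m a b) x)} : Finset V).card ≤ 4 :=
      Finset.card_le_four
    exact_mod_cast c1.trans c2
  · have : (univ.filter fun x => ns m a b x) = ∅ := by
      rw [Finset.filter_eq_empty_iff]
      intro x _ hx
      exact hex ⟨x, hx⟩
    rw [this]
    simp

theorem ncf_card (h : SQ m) (hp : NoPrism m) {a b : V} (hab : a ≠ b) (hex : ∃ x, ncf m a b x) :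
    (∑ x : V, I (ns m a b x)) ≤ 2 := by
  have e : (∑ x : V, I (ns m a b x)) = ((univ.filter fun x => ns m a b x).card : ℤ) := by
    unfold I
    rw [← Finset.sum_filter, Finset.sum_const, nsmul_eq_mul, mul_one]
  rw [e]
  obtain ⟨x, hx, hx2⟩ := hex
  obtain ⟨x₁, h1⟩ := h.tri_nc hp hab hx.2 hx.1 hx2
  have : (univ.filter fun x => ns m a b x) ⊆ {x, x₁} := by
    intro x' hx'
    have hx' := (Finset.mem_filter.1 hx').2
    rcases h1 x' hx'.2 hx'.1 with e | e <;> simp [e]
  have c1 := Finset.card_le_card this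
  have c2 : ({x, x₁} : Finset V).card ≤ 2 := Finset.card_le_two
  exact_mod_cast c1.trans c2

theorem ncf_le (a b : V) : (∑ x : V, I (ncf m a b x)) ≤ ∑ x : V, I (ns m a b x) := by
  refine Finset.sum_le_sum fun x _ => ?_
  unfold I
  by_cases hx : ncf m a b x
  · rw [if_pos hx, if_pos hx.1]
  · rw [if_neg hx]; split_ifs <;> norm_num

theorem pair_bound (h : SQ m) (hp : NoPrism m) {a b : V} (hab : a ≠ b) :
    2 * (∑ x : V, I (ns m a b x)) + 3 * (∑ x : V, I (ncf m a b x)) ≤ 10 := by
  by_cases hex : ∃ x, ncf m a b x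
  · have := h.ncf_card hp hab hex
    have := ncf_le (m := m) a b
    linarith
  · have h0 : (∑ x : V, I (ncf m a b x)) = 0 := by
      refine Finset.sum_eq_zero fun x _ => ?_
      unfold I
      rw [if_neg]
      intro hx
      exact hex ⟨x, hx⟩
    have := h.ns_card hp hab
    linarith

theorem pair_bound' (h : SQ m) (hp : NoPrism m) {a b : V} (hab : a ≠ b) :
    (∑ x : V, I (ncf m a b x)) ≤ 2 := by
  by_cases hex : ∃ x, ncf m a b x
  · exact (ncf_le (m := m) a b).trans (h.ncf_card hp hab hex)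
  · have h0 : (∑ x : V, I (ncf m a b x)) = 0 := by
      refine Finset.sum_eq_zero fun x _ => ?_
      unfold I
      rw [if_neg]
      intro hx
      exact hex ⟨x, hx⟩
    rw [h0]
    norm_num

theorem ncf_diag (h : SQ m) (a x : V) : ¬ ncf m a a x := by
  rintro ⟨⟨h1, h2⟩, _⟩
  rw [h.idem, h.inv] at h2
  exact h1 (h.eq_right h2).symm

/-- Upper bound for the total. -/
theorem tot_le (h : SQ m) (hp : NoPrism m) (W : Finset V) :
    2 * tot m W ≤ 2 * (W.card : ℤ) ^ 3 + 10 * (W.card * (W.card - 1)) +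
      6 * (W.card * (Fintype.card V - W.card)) := by
  -- pointwise bound
  have pt : ∀ a b c, 2 * ((∑ x : V, if m c (m b (m a x)) = x then (1 : ℤ) else 0) - 1) ≤
      (if c = m a b then (if a = b then 0 else 2 * ∑ x : V, I (ns m a b x)) else 0) +
      ∑ x : V, (I (P12 m a b c x) + I (P12 m c a b (m c x)) + I (P12 m b c a (m a x))) := by
    intro a b c
    have hnn : 0 ≤ ∑ x : V, (I (P12 m a b c x) + I (P12 m c a b (m c x)) +
        I (P12 m b c a (m a x))) := by
      refine Finset.sum_nonneg fun x _ => ?_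
      have := I_nonneg (P12 m a b c x)
      have := I_nonneg (P12 m c a b (m c x))
      have := I_nonneg (P12 m b c a (m a x))
      linarith
    have hnn2 : 0 ≤ (if c = m a b then (if a = b then 0 else 2 * ∑ x : V, I (ns m a b x)) else 0) := by
      have : 0 ≤ ∑ x : V, I (ns m a b x) := Finset.sum_nonneg fun x _ => I_nonneg _
      split_ifs <;> linarith
    by_cases hab : a = b
    · subst hab
      rw [h.deg1]
      linarith
    by_cases hbc : b = c
    · subst hbc
      rw [h.deg2]
      linarith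
    by_cases hac : a = c
    · subst hac
      rw [h.deg3]
      linarith
    by_cases hc : c = m a b
    · subst hc
      rw [h.coll hab, if_pos rfl, if_neg hab]
      have : (∑ x : V, if ns m a b x then (1 : ℤ) else 0) = ∑ x : V, I (ns m a b x) := rfl
      rw [this]
      linarith
    · have := h.ncb hp (⟨hab, hbc, hac, hc⟩ : nc m a b c)
      rw [if_neg hc, zero_add]
      exact this
  have s1 : ∀ a ∈ W, ∀ b ∈ W, ∀ c ∈ W, 2 * ((∑ x : V, if m c (m b (m a x)) = x then (1 : ℤ) else 0) - 1) ≤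
      (if c = m a b then (if a = b then 0 else 2 * ∑ x : V, I (ns m a b x)) else 0) +
      ∑ x : V, (I (P12 m a b c x) + I (P12 m c a b (m c x)) + I (P12 m b c a (m a x))) :=
    fun a _ b _ c _ => pt a b c
  have s2 := Finset.sum_le_sum fun a ha => Finset.sum_le_sum fun b hb =>
    Finset.sum_le_sum fun c hc => s1 a ha b hb c hc
  -- left side
  have l1 : (∑ a ∈ W, ∑ b ∈ W, ∑ c ∈ W, 2 * ((∑ x : V, if m c (m b (m a x)) = x then (1 : ℤ) else 0) - 1))
      = 2 * tot m W - 2 * (W.card : ℤ) ^ 3 := by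
    unfold tot
    simp only [← Finset.mul_sum, Finset.sum_sub_distrib, Finset.sum_const, nsmul_eq_mul, mul_one]
    ring
  rw [l1] at s2
  -- right side
  have r1 : (∑ a ∈ W, ∑ b ∈ W, ∑ c ∈ W, ((if c = m a b then (if a = b then 0 else
      2 * ∑ x : V, I (ns m a b x)) else 0) +
      ∑ x : V, (I (P12 m a b c x) + I (P12 m c a b (m c x)) + I (P12 m b c a (m a x))))) =
      (∑ a ∈ W, ∑ b ∈ W, ∑ c ∈ W, (if c = m a b then (if a = b then 0 else
      2 * ∑ x : V, I (ns m a b x)) else 0)) +
      3 * ∑ a ∈ W, ∑ b ∈ W, ∑ c ∈ W, ∑ x : V, I (P12 m a b c x) := by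
    simp only [Finset.sum_add_distrib]
    rw [h.rot1, h.rot2]
    ring
  rw [r1] at s2
  have r2 : (∑ a ∈ W, ∑ b ∈ W, ∑ c ∈ W, (if c = m a b then (if a = b then 0 else
      2 * ∑ x : V, I (ns m a b x)) else 0)) ≤
      ∑ a ∈ W, ∑ b ∈ W, (if a = b then 0 else 2 * ∑ x : V, I (ns m a b x)) := by
    refine Finset.sum_le_sum fun a _ => Finset.sum_le_sum fun b _ => ?_
    rw [Finset.sum_ite_eq' W (m a b) (fun _ => (if a = b then 0 else 2 * ∑ x : V, I (ns m a b x)))]
    have : 0 ≤ ∑ x : V, I (ns m a b x) := Finset.sum_nonneg fun x _ => I_nonneg _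
    split_ifs <;> linarith
  have r3 := h.sumP12 W
  -- combine
  have r4 : (∑ a ∈ W, ∑ b ∈ W, (if a = b then 0 else 2 * ∑ x : V, I (ns m a b x))) +
      3 * ∑ b ∈ W, ∑ y : V, ∑ x : V, I (ncf m b y x) ≤
      10 * (W.card * (W.card - 1)) + 6 * (W.card * (Fintype.card V - W.card)) := by
    rw [Finset.mul_sum, ← Finset.sum_add_distrib]
    have row : ∀ a ∈ W, (∑ b ∈ W, (if a = b then 0 else 2 * ∑ x : V, I (ns m a b x))) +
        3 * ∑ y : V, ∑ x : V, I (ncf m a y x) ≤
        10 * ((W.card : ℤ) - 1) + 6 * (Fintype.card V - W.card) := by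
      intro a ha
      rw [← Finset.sum_add_sum_compl W (fun y => ∑ x : V, I (ncf m a y x))]
      have t1 : (∑ b ∈ W, (if a = b then 0 else 2 * ∑ x : V, I (ns m a b x))) +
          3 * ∑ y ∈ W, ∑ x : V, I (ncf m a y x) ≤ 10 * ((W.card : ℤ) - 1) := by
        rw [Finset.mul_sum, ← Finset.sum_add_distrib, ← Finset.add_sum_erase W _ ha, if_pos rfl]
        have z : (∑ x : V, I (ncf m a a x)) = 0 := by
          refine Finset.sum_eq_zero fun x _ => ?_
          unfold I
          rw [if_neg (h.ncf_diag a x)]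
        rw [z]
        have : ∀ b ∈ W.erase a, (if a = b then 0 else 2 * ∑ x : V, I (ns m a b x)) +
            3 * ∑ x : V, I (ncf m a b x) ≤ 10 := by
          intro b hb
          have hne : a ≠ b := (Finset.ne_of_mem_erase hb).symm
          rw [if_neg hne]
          exact h.pair_bound hp hne
        have := Finset.sum_le_sum this
        rw [Finset.sum_const, Finset.card_erase_of_mem ha, nsmul_eq_mul,
          Nat.cast_sub (Finset.card_pos.2 ⟨a, ha⟩)] at this
        push_cast at this ⊢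
        linarith
      have t2 : (∑ y ∈ Wᶜ, ∑ x : V, I (ncf m a y x)) ≤ 2 * (Fintype.card V - W.card) := by
        have : ∀ b ∈ Wᶜ, (∑ x : V, I (ncf m a b x)) ≤ 2 := by
          intro b hb
          have hne : a ≠ b := by
            rintro rfl
            exact (Finset.mem_compl.1 hb) ha
          exact h.pair_bound' hp hne
        have := Finset.sum_le_sum this
        rw [Finset.sum_const, Finset.card_compl, nsmul_eq_mul,
          Nat.cast_sub (Finset.card_le_univ W)] at this
        linarith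
      linarith
    have := Finset.sum_le_sum row
    rw [Finset.sum_const, nsmul_eq_mul] at this
    linarith
  linarith

/-- The subsystem inequality. -/
theorem main_ineq (h : SQ m) (hp : NoPrism m) (W : Finset V) (hW : ∀ a ∈ W, ∀ b ∈ W, m a b ∈ W)
    (hpos : 0 < W.card) :
    ((Fintype.card V : ℤ) - W.card) * (3 * W.card - Fintype.card V - 3) ≤ 5 * (W.card - 1) := by
  have h1 := h.tot_ge W hW
  have h2 := h.tot_le hp W
  have hw : (0 : ℤ) < W.card := by exact_mod_cast hpos
  have : (W.card : ℤ) * (((Fintype.card V : ℤ) - W.card) * (3 * W.card - Fintype.card V - 3)) ≤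
      W.card * (5 * (W.card - 1)) := by nlinarith
  exact le_of_mul_le_mul_left this hw

theorem proper_card (h : SQ m) (W : Finset V) (hW : ∀ a ∈ W, ∀ b ∈ W, m a b ∈ W)
    (hne : W ≠ univ) : 2 * W.card + 1 ≤ Fintype.card V := by
  obtain ⟨x, hx⟩ : ∃ x, x ∉ W := by
    by_contra hcon
    push Not at hcon
    exact hne (Finset.eq_univ_iff_forall.2 hcon)
  have c : (W.image fun s => m s x).card = W.card :=
    Finset.card_image_of_injective _ fun s t e => h.cancel' e
  have hsub : insert x (W.image fun s => m s x) ⊆ Wᶜ := by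
    intro u hu
    rw [Finset.mem_compl]
    rcases Finset.mem_insert.1 hu with rfl | hu
    · exact hx
    · obtain ⟨s, hs, rfl⟩ := Finset.mem_image.1 hu
      intro hm
      apply hx
      have := hW s hs _ hm
      rwa [h.inv] at this
  have hnot : x ∉ W.image fun s => m s x := by
    intro hmem
    obtain ⟨s, hs, e⟩ := Finset.mem_image.1 hmem
    have := h.eq_right e
    exact hx (this ▸ hs)
  have c1 := Finset.card_le_card hsub
  rw [Finset.card_insert_of_notMem hnot, c, Finset.card_compl] at c1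
  have := Finset.card_le_univ W
  omega

/-- A proper subsystem of a prism-free Steiner quasigroup has at most `(v + 2) / 3` points. -/
theorem subsystem_bound (h : SQ m) (hp : NoPrism m) (W : Finset V)
    (hW : ∀ a ∈ W, ∀ b ∈ W, m a b ∈ W) (hne : W ≠ univ)
    (hbig : (Fintype.card V + 8 ≤ 3 * W.card) ∨ (34 ≤ Fintype.card V ∧ Fintype.card V + 6 ≤ 3 * W.card)) :
    False := by
  have hpos : 0 < W.card := by omega
  have h1 := h.main_ineq hp W hW hpos
  have h2 := h.proper_card W hW hne
  set n := Fintype.card V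
  set w := W.card
  have h3 : (2 * (w : ℤ) + 1) ≤ n := by exact_mod_cast h2
  rcases hbig with h4 | ⟨h4, h5⟩
  · have h4' : (n : ℤ) + 8 ≤ 3 * w := by exact_mod_cast h4
    nlinarith
  · have h4' : (34 : ℤ) ≤ n := by exact_mod_cast h4
    have h5' : (n : ℤ) + 6 ≤ 3 * w := by exact_mod_cast h5
    by_cases h6 : (n : ℤ) + 8 ≤ 3 * w
    · nlinarith
    · have : (3 * w : ℤ) = n + 6 ∨ (3 * w : ℤ) = n + 7 := by omega
      rcases this with e | e
      · have e' : (n : ℤ) = 3 * w - 6 := by linarith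
        rw [e'] at h1 h4'
        nlinarith
      · have e' : (n : ℤ) = 3 * w - 7 := by linarith
        rw [e'] at h1 h4'
        nlinarith

end SQ

end Pool.Agent.Hhelper49.Core9
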