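import Mathlib
import Pool.Agent.Hhelper49.Core9.Defs
import Pool.Agent.Hhelper49.Core9.Trans
import Pool.Agent.Hhelper49.Core9.TwoGroup
import Pool.Agent.Hhelper66.Fan.Fano

/-!
Two subsystems of order seven with two common points force a 2-core on nine vertices.
-/

namespace Pool.Agent.Hhelper49.Core9

open Finset Pool.Agent.Hhelper66.Fan

variable {V : Type*} [DecidableEq V] {m : V → V → V}

theorem line_closed (h : SQ m) {p q : V} :
    ∀ a ∈ ({p, q, m p q} : Finset V), ∀ b ∈ ({p, q, m p q} : Finset V),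
      m a b ∈ ({p, q, m p q} : Finset V) := by
  intro a ha b hb
  simp only [Finset.mem_insert, Finset.mem_singleton] at ha hb ⊢
  rcases ha with rfl | rfl | rfl <;> rcases hb with rfl | rfl | rfl
  · left; exact h.idem _
  · right; right; rfl
  · right; left; exact h.inv _ _
  · right; right; exact h.comm _ _
  · right; left; exact h.idem _
  · left; rw [h.comm p a, h.inv]
  · right; left; exact h.inv'' _ _
  · left; exact h.inv' _ _
  · right; right; exact h.idem _

/-- In a closed set with seven points the line through two points off a line meets that line. -/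
theorem fano_line (h : SQ m) (W : Finset V) (hW : ∀ a ∈ W, ∀ b ∈ W, m a b ∈ W)
    (h7 : W.card = 7) {p q u v : V} (hpq : p ≠ q) (hp : p ∈ W) (hq : q ∈ W) (hu : u ∈ W)
    (hv : v ∈ W) (hul : u ∉ ({p, q, m p q} : Finset V)) (hvl : v ∉ ({p, q, m p q} : Finset V))
    (huv : u ≠ v) : m u v ∈ ({p, q, m p q} : Finset V) := by
  set A : Finset V := {p, q, m p q} with hA
  have hAW : A ⊆ W := by
    intro t ht
    simp only [hA, Finset.mem_insert, Finset.mem_singleton] at ht
    rcases ht with rfl | rfl | rfl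
    · exact hp
    · exact hq
    · exact hW _ hp _ hq
  have hAcl := line_closed (m := m) h (p := p) (q := q)
  rw [← hA] at hAcl
  have hA3 : A.card = 3 := by
    have n1 : p ≠ m p q := fun e => hpq (h.eq_left e.symm)
    have n2 : q ≠ m p q := fun e => hpq (h.eq_right e.symm)
    exact Finset.card_eq_three.2 ⟨p, q, m p q, hpq, n1, n2, rfl⟩
  have hsub : A.image (m u) ⊆ (W \ A).erase u := by
    intro t ht
    obtain ⟨s, hs, rfl⟩ := Finset.mem_image.1 ht
    rw [Finset.mem_erase, Finset.mem_sdiff]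
    refine ⟨?_, hW _ hu _ (hAW hs), ?_⟩
    · intro e
      apply hul
      rw [h.eq_left e]
      exact hs
    · intro hh
      apply hul
      have e : m (m u s) s = u := h.inv' u s
      rw [← e]
      exact hAcl _ hh _ hs
  have hcard : ((W \ A).erase u).card ≤ (A.image (m u)).card := by
    rw [Finset.card_erase_of_mem (Finset.mem_sdiff.2 ⟨hu, hul⟩),
      Finset.card_sdiff_of_subset hAW, h7, hA3,
      Finset.card_image_of_injective _ (fun a b e => h.cancel e), hA3]
  have heq := Finset.eq_of_subset_of_card_le hsub hcard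
  have hvm : v ∈ A.image (m u) := by
    rw [heq, Finset.mem_erase, Finset.mem_sdiff]
    exact ⟨Ne.symm huv, hv, hvl⟩
  obtain ⟨s, hs, e⟩ := Finset.mem_image.1 hvm
  rw [← e, h.inv]
  exact hs

theorem fano_meet {B : Finset (Finset V)} (hm : OpOf B m) (W1 W2 : Finset V)
    (h1 : ∀ a ∈ W1, ∀ b ∈ W1, m a b ∈ W1) (h2 : ∀ a ∈ W2, ∀ b ∈ W2, m a b ∈ W2)
    (c1 : W1.card = 7) (c2 : W2.card = 7) (hne : W1 ≠ W2) {p q : V} (hpq : p ≠ q)
    (hp1 : p ∈ W1) (hp2 : p ∈ W2) (hq1 : q ∈ W1) (hq2 : q ∈ W2) : ∃ S, NineCore B S := by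
  have h := hm.sq
  set A : Finset V := {p, q, m p q} with hA
  have hpA : p ∈ A := by simp [hA]
  have hqA : q ∈ A := by simp [hA]
  have hrA : m p q ∈ A := by simp [hA]
  have hAcl := line_closed (m := m) h (p := p) (q := q)
  rw [← hA] at hAcl
  have npr : p ≠ m p q := fun e => hpq (h.eq_left e.symm)
  have nqr : q ≠ m p q := fun e => hpq (h.eq_right e.symm)
  have hA3 : A.card = 3 := Finset.card_eq_three.2 ⟨p, q, m p q, hpq, npr, nqr, rfl⟩
  have hA1 : A ⊆ W1 := by
    intro t ht
    simp only [hA, Finset.mem_insert, Finset.mem_singleton] at ht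
    rcases ht with rfl | rfl | rfl
    · exact hp1
    · exact hq1
    · exact h1 _ hp1 _ hq1
  have hA2 : A ⊆ W2 := by
    intro t ht
    simp only [hA, Finset.mem_insert, Finset.mem_singleton] at ht
    rcases ht with rfl | rfl | rfl
    · exact hp2
    · exact hq2
    · exact h2 _ hp2 _ hq2
  -- the intersection is the line
  have hI : ∀ t, t ∈ W1 → t ∈ W2 → t ∈ A := by
    intro t ht1 ht2
    by_contra htA
    have hsub : insert t A ⊆ W1 ∩ W2 := by
      intro s hs
      rcases Finset.mem_insert.1 hs with rfl | hs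
      · exact Finset.mem_inter.2 ⟨ht1, ht2⟩
      · exact Finset.mem_inter.2 ⟨hA1 hs, hA2 hs⟩
    have h4 := Finset.card_le_card hsub
    rw [Finset.card_insert_of_notMem htA, hA3] at h4
    have h7 := h.seven_le (W1 ∩ W2) (by
      intro x hx y hy
      rw [Finset.mem_inter] at hx hy ⊢
      exact ⟨h1 _ hx.1 _ hy.1, h2 _ hx.2 _ hy.2⟩) (by omega)
    have e1 : W1 ∩ W2 = W1 :=
      Finset.eq_of_subset_of_card_le Finset.inter_subset_left (by omega)
    have e2 : W1 ∩ W2 = W2 :=
      Finset.eq_of_subset_of_card_le Finset.inter_subset_right (by omega)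
    exact hne (e1.symm.trans e2)
  -- points off the line
  have off : ∀ W : Finset V, W.card = 7 → ∃ x ∈ W, x ∉ A := by
    intro W h7
    by_contra hcon
    push Not at hcon
    have := Finset.card_le_card (show W ⊆ A from hcon)
    omega
  have move : ∀ a x, a ∈ A → x ∉ A → m a x ∉ A := by
    intro a x ha hx hh
    apply hx
    have e : m a (m a x) = x := h.inv a x
    rw [← e]
    exact hAcl _ ha _ hh
  have hnA : ∀ a x, a ∈ A → x ∉ A → a ≠ x := by
    rintro a x ha hx rfl
    exact hx ha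
  obtain ⟨x, hx1, hxA⟩ := off W1 c1
  obtain ⟨u, hu2, huA⟩ := off W2 c2
  have hyA := move p x hpA hxA
  have hzA := move q x hqA hxA
  have hvA := move p u hpA huA
  have hwA := move q u hqA huA
  have hy1 : m p x ∈ W1 := h1 _ hp1 _ hx1
  have hz1 : m q x ∈ W1 := h1 _ hq1 _ hx1
  have hv2 : m p u ∈ W2 := h2 _ hp2 _ hu2
  have hw2 : m q u ∈ W2 := h2 _ hq2 _ hu2
  have yz : m p x ≠ m q x := fun e => hpq (h.cancel' e)
  have vw : m p u ≠ m q u := fun e => hpq (h.cancel' e)
  have xy : x ≠ m p x := fun e => hnA p x hpA hxA (h.eq_right e.symm)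
  have xz : x ≠ m q x := fun e => hnA q x hqA hxA (h.eq_right e.symm)
  have uv : u ≠ m p u := fun e => hnA p u hpA huA (h.eq_right e.symm)
  have uw : u ≠ m q u := fun e => hnA q u hqA huA (h.eq_right e.symm)
  have hzy : m (m q x) (m p x) = m p q := by
    have hin := fano_line h W1 h1 c1 hpq hp1 hq1 hz1 hy1 hzA hyA (Ne.symm yz)
    simp only [Finset.mem_insert, Finset.mem_singleton] at hin
    rcases hin with e | e | e
    · exfalso
      have e1 : m p (m q x) = m p x := by
        have := h.swap e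
        rw [h.comm (m q x) p] at this
        exact this
      exact xz (h.cancel e1).symm
    · exfalso
      have e1 : m (m p x) q = m q x := h.rot e
      rw [h.comm (m p x) q] at e1
      exact xy (h.cancel e1).symm
    · exact e
  have hq : PQ m p (m q x) q (m p x) (m p q) x := by
    refine ⟨?_, rfl, h.inv _ _, h.inv'' _ _, hzy⟩
    simp only [List.nodup_cons, List.mem_cons, List.not_mem_nil, or_false, not_or,
      List.nodup_nil, not_false_eq_true, and_true]
    exact ⟨⟨hnA _ _ hpA hzA, hpq, hnA _ _ hpA hyA, npr, hnA _ _ hpA hxA⟩,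
      ⟨Ne.symm (hnA _ _ hqA hzA), Ne.symm yz, Ne.symm (hnA _ _ hrA hzA), Ne.symm xz⟩,
      ⟨hnA _ _ hqA hyA, nqr, hnA _ _ hqA hxA⟩,
      ⟨Ne.symm (hnA _ _ hrA hyA), Ne.symm xy⟩, hnA _ _ hrA hxA⟩
  have hQ : ∀ t, t ∈ ({p, m q x, q, m p x, m p q, x} : Finset V) → t ∈ W1 := by
    intro t ht
    simp only [Finset.mem_insert, Finset.mem_singleton] at ht
    rcases ht with rfl | rfl | rfl | rfl | rfl | rfl
    · exact hp1
    · exact hz1
    · exact hq1
    · exact hy1
    · exact h1 _ hp1 _ hq1
    · exact hx1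
  have hAQ : ∀ t, t ∈ A → t ∈ ({p, m q x, q, m p x, m p q, x} : Finset V) := by
    intro t ht
    simp only [hA, Finset.mem_insert, Finset.mem_singleton] at ht ⊢
    tauto
  have out : ∀ t, t ∈ W2 → t ∉ A → t ∉ ({p, m q x, q, m p x, m p q, x} : Finset V) :=
    fun t ht htA hh => htA (hI t (hQ t hh) ht)
  refine core_of_tri hm hq (u1 := u) (u2 := m p u) (u3 := m q u) uv vw (Ne.symm uw)
    (out _ hu2 huA) (out _ hv2 hvA) (out _ hw2 hwA) ?_ ?_ ?_
  · exact hAQ _ (fano_line h W2 h2 c2 hpq hp2 hq2 hv2 hw2 hvA hwA vw)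
  · rw [h.inv' q u]
    exact hAQ _ hqA
  · rw [h.comm u (m p u), h.inv' p u]
    exact hAQ _ hpA

end Pool.Agent.Hhelper49.Core9
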