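import Mathlib
import Pool.Agent.Hhelper49.Core9.Defs
import Pool.Agent.Hhelper49.Core9.Trans
import Pool.Agent.Hhelper49.Core9.Mitre

namespace Pool.Agent.Hhelper49.Core9.MitreRes

open Pool.Agent.Hhelper49.Core9

/-- If the translation at some point `p` maps more than half of the triples missing `p` to
triples, then there is a 2-core on nine vertices. -/
theorem result :
    ∀ (n : ℕ) (B : Finset (Finset (Fin n))), IsSTS B →
      ∀ (p : Fin n) (σ : Equiv.Perm (Fin n)), σ p = p →
        (∀ x, x ≠ p → ({p, x, σ x} : Finset (Fin n)) ∈ B) →
          (B.filter (fun b => p ∉ b)).card <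
            2 * (B.filter (fun b => p ∉ b ∧ b.image σ ∈ B)).card →
            ∃ S, NineCore B S := by
  intro n B hB p σ hp hσ hbig
  obtain ⟨m, hm⟩ := hB.exists_op
  have hfun : (σ : Fin n → Fin n) = m p := by
    funext x
    by_cases hx : x = p
    · subst hx
      rw [hp, hm.sq.idem]
    · have hb := hσ x hx
      have hc := hB.1 _ hb
      have h1 : σ x ≠ p := by
        intro e
        apply hx
        apply σ.injective
        rw [e, hp]
      have h2 : σ x ≠ x := by
        intro e
        rw [e] at hc
        have e2 : ({p, x, x} : Finset (Fin n)) = {p, x} := by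
          ext v; simp only [Finset.mem_insert, Finset.mem_singleton]; tauto
        rw [e2, Finset.card_pair (Ne.symm hx)] at hc
        omega
      exact (hm.uniq p x (σ x) (Ne.symm hx) h1 h2 hb).symm
  rw [hfun] at hbig
  exact hm.mitre hB p hbig

end Pool.Agent.Hhelper49.Core9.MitreRes
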