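import Mathlib
import Pool.Agent.Hhelper49.Core9.Defs
import Pool.Agent.Hhelper49.Core9.Trans
import Pool.Agent.Hhelper49.Core9.Image

namespace Pool.Agent.Hhelper49.Core9.ProperImageOld

open Pool.Agent.Hhelper49.Core9

/-- A Steiner triple system with a proper homomorphic image that contains a Pasch configuration
or a prism contains a prism. -/
theorem result :
    ∀ (n u : ℕ) (B : Finset (Finset (Fin n))) (C : Finset (Finset (Fin u))),
      IsSTS B → IsSTS C →
      ∀ f : Fin n → Fin u, Function.Surjective f → ¬ Function.Injective f →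
        (∀ b ∈ B, (∃ z, ∀ x ∈ b, f x = z) ∨ b.image f ∈ C) →
          (HasPasch C ∨ HasPrism C) → HasPrism B := by
  intro n u B C hB hC f hsurj hninj hf hor
  by_contra hcon
  obtain ⟨m, hm⟩ := hB.exists_op
  obtain ⟨k, hk⟩ := hC.exists_op
  have hp := hm.noPrism hcon
  have hhom : ∀ x y, f (m x y) = k (f x) (f y) := by
    intro x y
    by_cases hxy : x = y
    · subst hxy
      rw [hm.sq.idem, hk.sq.idem]
    · have hb := (hm.mem x y hxy).2.2
      rcases hf _ hb with ⟨z, hz⟩ | himg
      · rw [hz x (by simp), hz y (by simp), hz (m x y) (by simp), hk.sq.idem]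
      · have hcard := hC.1 _ himg
        rw [Finset.image_insert, Finset.image_insert, Finset.image_singleton] at himg hcard
        have hd : f x ≠ f y ∧ f (m x y) ≠ f x ∧ f (m x y) ≠ f y := by
          refine ⟨?_, ?_, ?_⟩
          · intro e
            rw [e] at hcard
            simp only [Finset.mem_insert, Finset.mem_singleton, true_or,
              Finset.insert_eq_of_mem] at hcard
            have := Finset.card_le_two (a := f y) (b := f (m x y))
            omega
          · intro e
            rw [e] at hcard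
            have e2 : ({f x, f y, f x} : Finset (Fin u)) = {f x, f y} := by
              ext v; simp only [Finset.mem_insert, Finset.mem_singleton]; tauto
            rw [e2] at hcard
            have := Finset.card_le_two (a := f x) (b := f y)
            omega
          · intro e
            rw [e] at hcard
            have e2 : ({f x, f y, f y} : Finset (Fin u)) = {f x, f y} := by
              ext v; simp only [Finset.mem_insert, Finset.mem_singleton]; tauto
            rw [e2] at hcard
            have := Finset.card_le_two (a := f x) (b := f y)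
            omega
        exact (hk.uniq (f x) (f y) (f (m x y)) hd.1 hd.2.1 hd.2.2 himg).symm
  rcases hor with hpa | hpr
  · obtain ⟨A, E, D, X, Y, Z, hnd, b0, b1, b2, b3⟩ := hpa
    have hnd' := hnd
    simp only [List.nodup_cons, List.mem_cons, List.not_mem_nil, or_false, not_or,
      List.nodup_nil, not_false_eq_true, and_true] at hnd'
    obtain ⟨⟨n1, n2, n3, n4, n5⟩, ⟨m1, m2, m3, m4⟩, ⟨o1, o2, o3⟩, ⟨p1, p2⟩, q1⟩ := hnd'
    exact hm.sq.image_noPasch hk.sq hp f hhom hsurj hninj
      (hk.uniq A E D n1 (Ne.symm n2) (Ne.symm m1) b0)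
      (hk.uniq X Y A p1 n3 n4 b1) (hk.uniq Y Z E q1 m3 m4 b2)
      (hk.uniq Z X D (Ne.symm p2) o3 o1 b3) hnd
  · have hnp := hm.sq.image_noPrism hk.sq hp f hhom hsurj
    obtain ⟨a, b, c, d, e, g, h, i, j, hnd, b1, b2, b3, b4, b5, b6⟩ := hpr
    have hnd' := hnd
    simp only [List.nodup_cons, List.mem_cons, List.not_mem_nil, or_false, not_or,
      List.nodup_nil, not_false_eq_true, and_true] at hnd'
    obtain ⟨⟨n1, n2, n3, n4, n5, n6, n7, n8⟩, ⟨m1, m2, m3, m4, m5, m6, m7⟩,
      ⟨o1, o2, o3, o4, o5, o6⟩, ⟨p1, p2, p3, p4, p5⟩, ⟨q1, q2, q3, q4⟩, ⟨r1, r2, r3⟩,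
      ⟨s1, s2⟩, t1⟩ := hnd'
    -- outer points a, j, e ; triangles b c g and d h i
    have perm : ∀ {x y z : Fin u}, ({x, y, z} : Finset (Fin u)) ∈ C →
        ({y, z, x} : Finset (Fin u)) ∈ C := by
      intro x y z hx
      have e : ({y, z, x} : Finset (Fin u)) = {x, y, z} := by
        ext v; simp only [Finset.mem_insert, Finset.mem_singleton]; tauto
      rw [e]; exact hx
    have perm2 : ∀ {x y z : Fin u}, ({x, y, z} : Finset (Fin u)) ∈ C →
        ({z, x, y} : Finset (Fin u)) ∈ C := fun hx => perm (perm hx)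
    have e1 : k b c = a := hk.uniq b c a m1 n1 n2 (perm b1)
    have e2 : k c g = j := hk.uniq c g j o3 (Ne.symm o6) (Ne.symm r3) b3
    have e3 : k g b = e := hk.uniq g b e (Ne.symm m4) q1 (Ne.symm m3) (perm2 b5)
    have e1' : k d h = a := hk.uniq d h a p3 n3 n6 (perm b2)
    have e2' : k h i = j := hk.uniq h i j s1 (Ne.symm s2) (Ne.symm t1) b4
    have e3' : k i d = e := hk.uniq i d e (Ne.symm p4) q3 (Ne.symm p1) (perm2 b6)
    apply hnp a j e b c g d h i e1 e2 e3 e1' e2' e3'
    simp only [List.nodup_cons, List.mem_cons, List.not_mem_nil, or_false, not_or,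
      List.nodup_nil, not_false_eq_true, and_true]
    exact ⟨⟨n8, n4, n1, n2, n5, n3, n6, n7⟩, ⟨Ne.symm q4, Ne.symm m7, Ne.symm o6, Ne.symm r3,
      Ne.symm p5, Ne.symm s2, Ne.symm t1⟩, ⟨Ne.symm m3, Ne.symm o2, q1, Ne.symm p1, q2, q3⟩,
      ⟨m1, m4, m2, m5, m6⟩, ⟨o3, o1, o4, o5⟩, ⟨Ne.symm p2, r1, r2⟩, ⟨p3, p4⟩, s1⟩

end Pool.Agent.Hhelper49.Core9.ProperImageOld
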