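import Mathlib
import Pool.Agent.Hhelper49.Core9.Basic

/-!
Steiner quasigroups whose multiplication group has an abelian normal subgroup.
-/

namespace Pool.Agent.Hhelper49.Core9

open Finset

namespace SQ

variable {V : Type*} {m : V → V → V}

/-- The translation `x ↦ m p x`. -/
def pi (h : SQ m) (p : V) : Equiv.Perm V := ⟨m p, m p, h.inv p, h.inv p⟩

@[simp] theorem pi_apply (h : SQ m) (p x : V) : h.pi p x = m p x := rfl

@[simp] theorem pi_inv (h : SQ m) (p : V) : (h.pi p)⁻¹ = h.pi p := rfl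

theorem inv_app (ν : Equiv.Perm V) (x : V) : ν⁻¹ (ν x) = x := ν.symm_apply_apply x

theorem app_inv (ν : Equiv.Perm V) (x : V) : ν (ν⁻¹ x) = x := ν.apply_symm_apply x

section

variable (h : SQ m) (N : Subgroup (Equiv.Perm V)) (hcomm : ∀ a ∈ N, ∀ b ∈ N, a * b = b * a)
  (hnorm : ∀ p, ∀ ν ∈ N, h.pi p * ν * h.pi p ∈ N)

include hcomm hnorm

theorem L2 (x : V) (ν : Equiv.Perm V) (hν : ν ∈ N) : m x (ν x) = ν⁻¹ x := by
  set θ := h.pi x * ν * h.pi x with hθ
  have hθN : θ ∈ N := hnorm x ν hν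
  have h1 : θ x = m x (ν x) := by
    simp only [hθ, Equiv.Perm.mul_apply, pi_apply, h.idem]
  have h2 : h.pi x * θ * h.pi x = ν := by
    ext u
    simp only [hθ, Equiv.Perm.mul_apply, pi_apply, h.inv]
  have h3 : m x (ν (θ x)) = ν (θ x) := by
    have : (h.pi x * (ν * θ)) x = (θ * ν) x := by
      have e : h.pi x * (ν * θ) * h.pi x = θ * ν := by
        have : h.pi x * (ν * θ) * h.pi x = (h.pi x * ν * h.pi x) * (h.pi x * θ * h.pi x) := by
          ext u
          simp only [Equiv.Perm.mul_apply, pi_apply, h.inv]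
        rw [this, h2]
      calc (h.pi x * (ν * θ)) x = (h.pi x * (ν * θ) * h.pi x) x := by
            simp only [Equiv.Perm.mul_apply, pi_apply, h.idem]
        _ = (θ * ν) x := by rw [e]
    rw [hcomm θ hθN ν hν] at this
    simpa only [Equiv.Perm.mul_apply, pi_apply] using this
  have h4 : x = ν (θ x) := h.eq_right h3
  rw [← h1]
  rw [Equiv.Perm.eq_inv_iff_eq]
  exact h4.symm

theorem L3 (x : V) (ν : Equiv.Perm V) (hν : ν ∈ N) : ν (ν (ν x)) = x := by
  have h1 := h.L2 N hcomm hnorm x ν hν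
  have h2 := h.L2 N hcomm hnorm (ν x) ν⁻¹ (N.inv_mem hν)
  rw [inv_inv, inv_app, h.comm, h1] at h2
  rw [← h2, app_inv]

theorem pow3 (ν : Equiv.Perm V) (hν : ν ∈ N) : ν ^ 3 = 1 := by
  ext x
  have := h.L3 N hcomm hnorm x ν hν
  simpa [pow_succ] using this

theorem L4 (x : V) (ν μ : Equiv.Perm V) (hν : ν ∈ N) (hμ : μ ∈ N) :
    m (ν x) (μ x) = (ν ^ 2 * μ ^ 2) x := by
  have h1 := h.L2 N hcomm hnorm (ν x) (μ * ν⁻¹) (N.mul_mem hμ (N.inv_mem hν))
  have e1 : (μ * ν⁻¹) (ν x) = μ x := by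
    rw [Equiv.Perm.mul_apply, inv_app]
  rw [e1] at h1
  rw [h1]
  have hμ2 : μ ^ 2 = μ⁻¹ := by
    have := h.pow3 N hcomm hnorm μ hμ
    rw [eq_inv_iff_mul_eq_one, ← pow_succ, this]
  have hinv : (μ * ν⁻¹)⁻¹ = ν * μ⁻¹ := by group
  rw [hinv, hμ2]
  have hc : μ⁻¹ * ν = ν * μ⁻¹ := hcomm _ (N.inv_mem hμ) _ hν
  calc (ν * μ⁻¹) (ν x) = (ν * (μ⁻¹ * ν)) x := by simp only [Equiv.Perm.mul_apply]
    _ = (ν * (ν * μ⁻¹)) x := by rw [hc]
    _ = (ν ^ 2 * μ⁻¹) x := by rw [pow_two, mul_assoc]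

end

theorem caseA (h : SQ m) (N : Subgroup (Equiv.Perm V)) (hcomm : ∀ a ∈ N, ∀ b ∈ N, a * b = b * a)
    (hnorm : ∀ p, ∀ ν ∈ N, h.pi p * ν * h.pi p ∈ N) [DecidableEq V] (e : V)
    (ν μ : Equiv.Perm V) (hν : ν ∈ N) (hμ : μ ∈ N) (h1 : ν e ≠ e) (h2 : μ e ≠ e)
    (h3 : μ e ≠ ν e) (h4 : μ e ≠ ν (ν e)) :
    ∃ W : Finset V, W.card = 9 ∧ ∀ a ∈ W, ∀ b ∈ W, m a b ∈ W := by
  have p3 := h.pow3 N hcomm hnorm ν hν
  have q3 := h.pow3 N hcomm hnorm μ hμ
  have hc : μ * ν = ν * μ := hcomm _ hμ _ hν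
  have hcm : Commute ν μ := hc.symm
  have hmod : ∀ (σ : Equiv.Perm V), σ ^ 3 = 1 → ∀ k : ℕ, σ ^ k = σ ^ (k % 3) := by
    intro σ hσ k
    conv_lhs => rw [← Nat.div_add_mod k 3, pow_add, pow_mul, hσ, one_pow, one_mul]
  set g : Fin 3 × Fin 3 → V := fun p => (ν ^ (p.1 : ℕ) * μ ^ (p.2 : ℕ)) e with hg
  have hmem : ∀ i j : ℕ, (ν ^ i * μ ^ j) e ∈ Finset.univ.image g := by
    intro i j
    rw [Finset.mem_image]
    refine ⟨(⟨i % 3, Nat.mod_lt _ (by norm_num)⟩, ⟨j % 3, Nat.mod_lt _ (by norm_num)⟩), Finset.mem_univ _, ?_⟩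
    simp only [hg]
    rw [← hmod ν p3 i, ← hmod μ q3 j]
  -- basic inequalities
  have n2 : ν (ν e) ≠ e := by
    intro k
    have := h.L3 N hcomm hnorm e ν hν
    rw [k] at this
    exact h1 this
  have m2 : μ (μ e) ≠ e := by
    intro k
    have := h.L3 N hcomm hnorm e μ hμ
    rw [k] at this
    exact h2 this
  have hsw : ∀ x, μ (ν x) = ν (μ x) := by
    intro x
    have := congrArg (fun σ : Equiv.Perm V => σ x) hc
    simpa only [Equiv.Perm.mul_apply] using this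
  have L3ν := fun x => h.L3 N hcomm hnorm x ν hν
  have L3μ := fun x => h.L3 N hcomm hnorm x μ hμ
  have m3 : μ (μ e) ≠ ν e := by
    intro k
    -- e = μ (ν e) = ν (μ e) so μ e = ν (ν e)
    have k2 : e = ν (μ e) := by rw [← hsw, ← k, L3μ]
    have k3 := congrArg (fun z => ν (ν z)) k2
    simp only [L3ν] at k3
    exact h4 k3.symm
  have m4 : μ (μ e) ≠ ν (ν e) := by
    intro k
    have k2 : e = ν (ν (μ e)) := by rw [← hsw, ← hsw, ← k, L3μ]
    have k3 := congrArg (fun z => ν z) k2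
    simp only [L3ν] at k3
    exact h3 k3.symm
  have hinj : Function.Injective g := by
    -- reduce to the stabiliser
    have key : ∀ i j k l : ℕ, i < 3 → j < 3 → k < 3 → l < 3 →
        (ν ^ i * μ ^ j) e = (ν ^ k * μ ^ l) e → i = k ∧ j = l := by
      intro i j k l hi hj hk hl he
      have he' : (ν ^ (i + 2 * k) * μ ^ (j + 2 * l)) e = e := by
        have : (ν ^ (2 * k) * μ ^ (2 * l)) ((ν ^ i * μ ^ j) e) =
            (ν ^ (2 * k) * μ ^ (2 * l)) ((ν ^ k * μ ^ l) e) := by rw [he]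
        have e1 : (ν ^ (2 * k) * μ ^ (2 * l)) ((ν ^ i * μ ^ j) e) =
            (ν ^ (i + 2 * k) * μ ^ (j + 2 * l)) e := by
          rw [← Equiv.Perm.mul_apply]
          congr 1
          have c1 : μ ^ (2 * l) * ν ^ i = ν ^ i * μ ^ (2 * l) := ((hcm.pow_pow i (2 * l)).eq).symm
          calc ν ^ (2 * k) * μ ^ (2 * l) * (ν ^ i * μ ^ j)
              = ν ^ (2 * k) * (μ ^ (2 * l) * ν ^ i) * μ ^ j := by group
            _ = ν ^ (2 * k) * (ν ^ i * μ ^ (2 * l)) * μ ^ j := by rw [c1]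
            _ = (ν ^ (2 * k) * ν ^ i) * (μ ^ (2 * l) * μ ^ j) := by group
            _ = ν ^ (i + 2 * k) * μ ^ (j + 2 * l) := by
                rw [← pow_add, ← pow_add, add_comm (2 * k) i, add_comm (2 * l) j]
        have e2 : (ν ^ (2 * k) * μ ^ (2 * l)) ((ν ^ k * μ ^ l) e) = e := by
          rw [← Equiv.Perm.mul_apply]
          have c1 : μ ^ (2 * l) * ν ^ k = ν ^ k * μ ^ (2 * l) := ((hcm.pow_pow k (2 * l)).eq).symm
          have : ν ^ (2 * k) * μ ^ (2 * l) * (ν ^ k * μ ^ l) = 1 := by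
            calc ν ^ (2 * k) * μ ^ (2 * l) * (ν ^ k * μ ^ l)
                = ν ^ (2 * k) * (μ ^ (2 * l) * ν ^ k) * μ ^ l := by group
              _ = ν ^ (2 * k) * (ν ^ k * μ ^ (2 * l)) * μ ^ l := by rw [c1]
              _ = (ν ^ (2 * k) * ν ^ k) * (μ ^ (2 * l) * μ ^ l) := by group
              _ = ν ^ (3 * k) * μ ^ (3 * l) := by
                  rw [← pow_add, ← pow_add]; congr 2 <;> ring
              _ = 1 := by rw [pow_mul, pow_mul, p3, q3, one_pow, one_pow, one_mul]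
          rw [this]; rfl
        rw [e1, e2] at this
        exact this
      rw [hmod ν p3, hmod μ q3] at he'
      have ha : (i + 2 * k) % 3 < 3 := Nat.mod_lt _ (by norm_num)
      have hb : (j + 2 * l) % 3 < 3 := Nat.mod_lt _ (by norm_num)
      have hz : (i + 2 * k) % 3 = 0 ∧ (j + 2 * l) % 3 = 0 := by
        generalize (i + 2 * k) % 3 = a at ha he'
        generalize (j + 2 * l) % 3 = b at hb he'
        have r1 : ν (μ e) ≠ e := by
          intro k
          apply h4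
          rw [← L3ν (μ e), k]
        have r2 : ν (ν (μ e)) ≠ e := by
          intro k
          apply h3
          rw [← L3ν (μ e), k]
        have r3 : ν (μ (μ e)) ≠ e := by
          intro k
          apply m4
          rw [← L3ν (μ (μ e)), k]
        have r4 : ν (ν (μ (μ e))) ≠ e := by
          intro k
          apply m3
          rw [← L3ν (μ (μ e)), k]
        interval_cases a <;> interval_cases b <;>
          simp only [pow_zero, pow_one, pow_two, Equiv.Perm.mul_apply, Equiv.Perm.one_apply] at he' <;>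
          first | exact ⟨rfl, rfl⟩ | exact absurd he' h1 | exact absurd he' n2 |
            exact absurd he' h2 | exact absurd he' m2 | exact absurd he' r1 |
            exact absurd he' r2 | exact absurd he' r3 | exact absurd he' r4
      omega
    intro p q hpq
    obtain ⟨hh1, hh2⟩ := key p.1 p.2 q.1 q.2 p.1.2 p.2.2 q.1.2 q.2.2 hpq
    exact Prod.ext (Fin.ext hh1) (Fin.ext hh2)
  refine ⟨Finset.univ.image g, ?_, ?_⟩
  · rw [Finset.card_image_of_injective _ hinj]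
    rfl
  · intro a ha b hb
    obtain ⟨p, _, rfl⟩ := Finset.mem_image.1 ha
    obtain ⟨q, _, rfl⟩ := Finset.mem_image.1 hb
    have hpN : ν ^ (p.1 : ℕ) * μ ^ (p.2 : ℕ) ∈ N := N.mul_mem (N.pow_mem hν _) (N.pow_mem hμ _)
    have hqN : ν ^ (q.1 : ℕ) * μ ^ (q.2 : ℕ) ∈ N := N.mul_mem (N.pow_mem hν _) (N.pow_mem hμ _)
    simp only [hg]
    rw [h.L4 N hcomm hnorm e _ _ hpN hqN]
    have : (ν ^ (p.1 : ℕ) * μ ^ (p.2 : ℕ)) ^ 2 * (ν ^ (q.1 : ℕ) * μ ^ (q.2 : ℕ)) ^ 2 =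
        ν ^ (2 * (p.1 : ℕ) + 2 * (q.1 : ℕ)) * μ ^ (2 * (p.2 : ℕ) + 2 * (q.2 : ℕ)) := by
      have c1 := fun i j : ℕ => (hcm.pow_pow i j)
      rw [(c1 _ _).mul_pow, (c1 _ _).mul_pow, ← pow_mul, ← pow_mul, ← pow_mul, ← pow_mul]
      have c2 : μ ^ ((p.2 : ℕ) * 2) * ν ^ ((q.1 : ℕ) * 2) =
          ν ^ ((q.1 : ℕ) * 2) * μ ^ ((p.2 : ℕ) * 2) := ((c1 _ _).eq).symm
      calc ν ^ ((p.1 : ℕ) * 2) * μ ^ ((p.2 : ℕ) * 2) * (ν ^ ((q.1 : ℕ) * 2) * μ ^ ((q.2 : ℕ) * 2))
          = ν ^ ((p.1 : ℕ) * 2) * (μ ^ ((p.2 : ℕ) * 2) * ν ^ ((q.1 : ℕ) * 2)) * μ ^ ((q.2 : ℕ) * 2) := by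
            group
        _ = (ν ^ ((p.1 : ℕ) * 2) * ν ^ ((q.1 : ℕ) * 2)) *
            (μ ^ ((p.2 : ℕ) * 2) * μ ^ ((q.2 : ℕ) * 2)) := by rw [c2]; group
        _ = _ := by
            rw [← pow_add, ← pow_add, mul_comm (p.1 : ℕ) 2, mul_comm (q.1 : ℕ) 2,
              mul_comm (p.2 : ℕ) 2, mul_comm (q.2 : ℕ) 2]
    rw [this]
    exact hmem _ _

theorem nine (h : SQ m) (N : Subgroup (Equiv.Perm V)) (hcomm : ∀ a ∈ N, ∀ b ∈ N, a * b = b * a)
    (hnorm : ∀ p, ∀ ν ∈ N, h.pi p * ν * h.pi p ∈ N) (hnt : ∃ ν ∈ N, ν ≠ 1)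
    [Fintype V] [DecidableEq V] (hcard : 3 < Fintype.card V) :
    ∃ W : Finset V, W.card = 9 ∧ ∀ a ∈ W, ∀ b ∈ W, m a b ∈ W := by
  classical
  -- every point is moved
  have L1 : ∀ x, ∃ ν ∈ N, ν x ≠ x := by
    intro x
    obtain ⟨ν₀, hν₀, hne⟩ := hnt
    obtain ⟨x₀, hx₀⟩ : ∃ x₀, ν₀ x₀ ≠ x₀ := by
      by_contra hcon
      push Not at hcon
      exact hne (Equiv.ext hcon)
    refine ⟨h.pi (m x x₀) * ν₀ * h.pi (m x x₀), hnorm _ _ hν₀, ?_⟩
    simp only [Equiv.Perm.mul_apply, pi_apply]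
    rw [h.inv'' x x₀]
    intro e
    have e2 : m (m x x₀) (ν₀ x₀) = m (m x x₀) x₀ := by rw [e, h.inv']
    exact hx₀ (h.cancel e2)
  by_cases hA : ∃ e, ∃ ν ∈ N, ∃ μ ∈ N, ν e ≠ e ∧ μ e ≠ e ∧ μ e ≠ ν e ∧ μ e ≠ ν (ν e)
  · obtain ⟨e, ν, hν, μ, hμ, h1, h2, h3, h4⟩ := hA
    exact h.caseA N hcomm hnorm e ν μ hν hμ h1 h2 h3 h4
  push Not at hA
  set O : V → Finset V := fun x => Finset.univ.filter fun u => ∃ μ ∈ N, u = μ x with hO
  have memO : ∀ x u, u ∈ O x ↔ ∃ μ ∈ N, u = μ x := by intro x u; simp [hO]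
  have selfO : ∀ x, x ∈ O x := fun x => (memO x x).2 ⟨1, N.one_mem, rfl⟩
  have eqO : ∀ x u, u ∈ O x → O u = O x := by
    intro x u hu
    obtain ⟨μ, hμ, rfl⟩ := (memO x u).1 hu
    ext w
    rw [memO, memO]
    constructor
    · rintro ⟨κ, hκ, rfl⟩
      exact ⟨κ * μ, N.mul_mem hκ hμ, rfl⟩
    · rintro ⟨κ, hκ, rfl⟩
      refine ⟨κ * μ⁻¹, N.mul_mem hκ (N.inv_mem hμ), ?_⟩
      rw [Equiv.Perm.mul_apply, inv_app]
  have cardO : ∀ x, (O x).card = 3 := by
    intro x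
    obtain ⟨ν, hν, hne⟩ := L1 x
    have n2 : ν (ν x) ≠ x := by
      intro k
      have := h.L3 N hcomm hnorm x ν hν
      rw [k] at this
      exact hne this
    have n3 : ν (ν x) ≠ ν x := fun k => hne (ν.injective k)
    have : O x = {x, ν x, ν (ν x)} := by
      ext u
      rw [memO]
      simp only [Finset.mem_insert, Finset.mem_singleton]
      constructor
      · rintro ⟨μ, hμ, rfl⟩
        by_cases h1 : μ x = x
        · exact Or.inl h1
        · by_cases h2 : μ x = ν x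
          · exact Or.inr (Or.inl h2)
          · exact Or.inr (Or.inr (hA x ν hν μ hμ hne h1 h2))
      · rintro (rfl | rfl | rfl)
        · exact ⟨1, N.one_mem, rfl⟩
        · exact ⟨ν, hν, rfl⟩
        · exact ⟨ν * ν, N.mul_mem hν hν, rfl⟩
    rw [this]
    rw [Finset.card_insert_of_notMem, Finset.card_pair (Ne.symm n3)]
    simp only [Finset.mem_insert, Finset.mem_singleton, not_or]
    exact ⟨Ne.symm hne, Ne.symm n2⟩
  -- the operation respects orbits
  have resp1 : ∀ p x u, u ∈ O x → m p u ∈ O (m p x) := by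
    intro p x u hu
    obtain ⟨μ, hμ, rfl⟩ := (memO x u).1 hu
    refine (memO _ _).2 ⟨h.pi p * μ * h.pi p, hnorm p μ hμ, ?_⟩
    simp only [Equiv.Perm.mul_apply, pi_apply, h.inv]
  have resp : ∀ x y u w, u ∈ O x → w ∈ O y → m u w ∈ O (m x y) := by
    intro x y u w hu hw
    have h1 := resp1 u y w hw
    have h2 := resp1 y x u hu
    rw [h.comm y u, h.comm y x] at h2
    rw [← eqO _ _ h2]
    exact h1
  have hne : Nonempty V := by
    rw [← Fintype.card_pos_iff]; omega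
  obtain ⟨e⟩ := hne
  obtain ⟨y, hy⟩ : ∃ y, y ∉ O e := by
    by_contra hcon
    push Not at hcon
    have : O e = Finset.univ := Finset.eq_univ_iff_forall.2 hcon
    have hc := cardO e
    rw [this, Finset.card_univ] at hc
    omega
  set z := m e y with hz
  have hze : z ∉ O e := by
    intro k
    obtain ⟨μ, hμ, e1⟩ := (memO e z).1 k
    apply hy
    have : y = m e (μ e) := by rw [← e1, hz, h.inv]
    rw [this, h.L2 N hcomm hnorm e μ hμ]
    exact (memO _ _).2 ⟨μ⁻¹, N.inv_mem hμ, rfl⟩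
  have hzy : z ∉ O y := by
    intro k
    obtain ⟨μ, hμ, e1⟩ := (memO y z).1 k
    apply hy
    have : e = m y (μ y) := by rw [← e1, hz, h.comm e y, h.inv]
    rw [h.L2 N hcomm hnorm y μ hμ] at this
    have he : e ∈ O y := (memO _ _).2 ⟨μ⁻¹, N.inv_mem hμ, this⟩
    rw [eqO _ _ he]
    exact selfO y
  have disj : ∀ x u, u ∉ O x → Disjoint (O x) (O u) := by
    intro x u hu
    rw [Finset.disjoint_left]
    intro w hw1 hw2
    apply hu
    rw [← eqO _ _ hw1, eqO _ _ hw2]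
    exact selfO u
  have d1 := disj e y hy
  have d2 := disj e z hze
  have d3 := disj y z hzy
  refine ⟨O e ∪ O y ∪ O z, ?_, ?_⟩
  · rw [Finset.card_union_of_disjoint, Finset.card_union_of_disjoint d1, cardO, cardO, cardO]
    rw [Finset.disjoint_union_left]
    exact ⟨d2, d3⟩
  · have sub : ∀ p ∈ ({e, y, z} : Set V), ∀ q ∈ ({e, y, z} : Set V), m p q ∈ ({e, y, z} : Set V) := by
      have a1 : m e y = z := rfl
      have a2 : m e z = y := by rw [hz, h.inv]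
      have a3 : m y z = e := by rw [hz, h.comm e y, h.inv]
      intro p hp q hq
      simp only [Set.mem_insert_iff, Set.mem_singleton_iff] at hp hq ⊢
      rcases hp with hp | hp | hp <;> rcases hq with hq | hq | hq <;> rw [hp, hq]
      · exact Or.inl (h.idem _)
      · exact Or.inr (Or.inr a1)
      · exact Or.inr (Or.inl a2)
      · rw [h.comm]; exact Or.inr (Or.inr a1)
      · exact Or.inr (Or.inl (h.idem _))
      · exact Or.inl a3
      · rw [h.comm]; exact Or.inr (Or.inl a2)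
      · rw [h.comm]; exact Or.inl a3
      · exact Or.inr (Or.inr (h.idem _))
    have mem1 : ∀ w, w ∈ O e ∪ O y ∪ O z ↔ ∃ p ∈ ({e, y, z} : Set V), w ∈ O p := by
      intro w
      simp only [Finset.mem_union, Set.mem_insert_iff, Set.mem_singleton_iff]
      constructor
      · rintro ((hw | hw) | hw)
        · exact ⟨e, Or.inl rfl, hw⟩
        · exact ⟨y, Or.inr (Or.inl rfl), hw⟩
        · exact ⟨z, Or.inr (Or.inr rfl), hw⟩
      · rintro ⟨p, rfl | rfl | rfl, hw⟩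
        · exact Or.inl (Or.inl hw)
        · exact Or.inl (Or.inr hw)
        · exact Or.inr hw
    intro a ha b hb
    rw [mem1] at ha hb ⊢
    obtain ⟨p, hp, hap⟩ := ha
    obtain ⟨q, hq, hbq⟩ := hb
    exact ⟨m p q, sub p hp q hq, resp p q a b hap hbq⟩

end SQ

end Pool.Agent.Hhelper49.Core9
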