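import Mathlib
import Pool.Agent.Hhelper49.Core9.Defs

/-!
The multiplication group of a Steiner triple system.
-/

namespace Pool.Agent.Hhelper49.Core9

variable {V : Type*} [DecidableEq V]

/-- The multiplication group of a Steiner triple system: the group of permutations generated by
the maps that fix a point `p` and exchange `x` and `y` whenever `p x y` is a triple. -/
def multGroup (B : Finset (Finset V)) : Subgroup (Equiv.Perm V) :=
  Subgroup.closure
    {σ | ∃ p, σ p = p ∧ ∀ x, x ≠ p → ({p, x, σ x} : Finset V) ∈ B}

end Pool.Agent.Hhelper49.Core9
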