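import Mathlib
import Pool.Agent.Hhelper49.Core9.Defs
import Pool.Agent.Hhelper49.Core9.Trans
import Pool.Agent.Hhelper49.Core9.Mitre
import Pool.Agent.Hhelper49.Core9.TwoGroup
import Pool.Agent.Hhelper49.Core9.Large
import Pool.Agent.Hhelper66.Fan.Fano

/-!
A subsystem with at least one third of the points in a Steiner triple system without a 2-core on
nine vertices: the complement is the union of two subsystems.
-/

namespace Pool.Agent.Hhelper49.Core9

open Finset Pool.Agent.Hhelper66.Fan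

variable {V : Type*} [Fintype V] [DecidableEq V] {m : V → V → V}

/-- If two points outside joined through `W` have a common neighbour, then `W` is small. -/
theorem four_le {B : Finset (Finset V)} (hm : OpOf B m) (hc : ¬ ∃ S, NineCore B S)
    (W : Finset V) (hW : ∀ a ∈ W, ∀ b ∈ W, m a b ∈ W) {x y z : V} (hx : x ∉ W)
    (hy : y ∈ Nb m W x) (hz : z ∈ Nb m W x ∩ Nb m W y) :
    4 * W.card ≤ Fintype.card V + 6 := by
  have h := hm.sq
  obtain ⟨hzx, hzy⟩ := Finset.mem_inter.1 hz
  have hyW := Nb_out h W hW hx hy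
  have hzW := Nb_out h W hW hx hzx
  have hsubX : ∀ u, u ∉ W → Nb m W u ⊆ Wᶜ := by
    intro u hu v hv
    exact Finset.mem_compl.2 (Nb_out h W hW hu hv)
  have c1 := card_inter_le hm hc W hW hx hy
  have c2 := card_inter_le hm hc W hW hx hzx
  have c3 := card_inter_le hm hc W hW hyW hzy
  have k1 := Finset.card_union_add_card_inter (Nb m W x) (Nb m W y)
  have k2 := Finset.card_union_add_card_inter (Nb m W x ∪ Nb m W y) (Nb m W z)
  have k3 : ((Nb m W x ∪ Nb m W y) ∩ Nb m W z).card ≤
      (Nb m W x ∩ Nb m W z).card + (Nb m W y ∩ Nb m W z).card := by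
    rw [Finset.union_inter_distrib_right]
    exact Finset.card_union_le _ _
  have k4 := Finset.card_le_card (Finset.union_subset
    (Finset.union_subset (hsubX x hx) (hsubX y hyW)) (hsubX z hzW))
  rw [Finset.card_compl] at k4
  have k5 := Finset.card_le_univ W
  rw [card_Nb h, card_Nb h] at k1
  rw [card_Nb h] at k2
  omega

/-- A closed set with at least one third of the points. -/
theorem third {B : Finset (Finset V)} (hm : OpOf B m) (hc : ¬ ∃ S, NineCore B S)
    (W : Finset V) (hW : ∀ a ∈ W, ∀ b ∈ W, m a b ∈ W) (h7 : 7 ≤ W.card) (hne : W ≠ univ)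
    (hbig : Fintype.card V ≤ 3 * W.card) :
    ∃ X Y : Finset V, (∀ a ∈ X, ∀ b ∈ X, m a b ∈ X) ∧ (∀ a ∈ Y, ∀ b ∈ Y, m a b ∈ Y) ∧
      X.card = W.card ∧ Y.card = W.card ∧ Disjoint X Y ∧ X ∪ Y = Wᶜ := by
  have h := hm.sq
  obtain ⟨x0, hx0⟩ : ∃ x, x ∉ W := by
    by_contra hh
    push Not at hh
    exact hne (Finset.eq_univ_iff_forall.2 hh)
  have hXc : Wᶜ.card = Fintype.card V - W.card := Finset.card_compl W
  have hWle : W.card ≤ Fintype.card V := Finset.card_le_univ W
  obtain ⟨a, ha⟩ : W.Nonempty := Finset.card_pos.1 (by omega)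
  have hsubX : ∀ x, x ∉ W → Nb m W x ⊆ Wᶜ := by
    intro x hx z hz
    exact Finset.mem_compl.2 (Nb_out h W hW hx hz)
  have hemp : ∀ x, x ∉ W → ∀ y ∈ Nb m W x, Disjoint (Nb m W x) (Nb m W y) := by
    intro x hx y hy
    rw [Finset.disjoint_iff_inter_eq_empty]
    by_contra hcon
    obtain ⟨z, hz⟩ := Finset.nonempty_iff_ne_empty.2 hcon
    have := four_le hm hc W hW hx hy hz
    omega
  obtain ⟨y0, hy0⟩ : ∃ y, y ∈ Nb m W x0 :=
    ⟨m a x0, mem_Nb.2 (by rw [h.comm a x0, h.inv]; exact ha)⟩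
  have hy0W := Nb_out h W hW hx0 hy0
  have low : ∀ x, x ∉ W → ∀ y ∈ Nb m W x, (Nb m W x ∪ Nb m W y).card = 2 * W.card := by
    intro x hx y hy
    rw [Finset.card_union_of_disjoint (hemp x hx y hy), card_Nb h, card_Nb h]
    omega
  have up0 := Finset.card_le_card (Finset.union_subset (hsubX x0 hx0) (hsubX y0 hy0W))
  rw [low x0 hx0 y0 hy0] at up0
  have hX2 : Wᶜ.card = 2 * W.card := by omega
  -- the neighbours of a neighbour
  have hnb : ∀ x, x ∉ W → ∀ y ∈ Nb m W x, Nb m W y = Wᶜ \ Nb m W x := by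
    intro x hx y hy
    have hcov : Nb m W x ∪ Nb m W y = Wᶜ := by
      apply Finset.eq_of_subset_of_card_le
        (Finset.union_subset (hsubX x hx) (hsubX y (Nb_out h W hW hx hy)))
      rw [low x hx y hy, hX2]
    rw [← hcov, Finset.union_sdiff_cancel_left (hemp x hx y hy)]
  have hX : ∀ u, u ∈ Wᶜ \ Nb m W x0 → Nb m W u = Nb m W x0 := by
    intro u hu
    have hu' : u ∈ Nb m W y0 := by rw [hnb x0 hx0 y0 hy0]; exact hu
    rw [hnb y0 hy0W u hu', hnb x0 hx0 y0 hy0]
    exact Finset.sdiff_sdiff_eq_self (hsubX x0 hx0)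
  refine ⟨Wᶜ \ Nb m W x0, Nb m W x0, ?_, ?_, ?_, card_Nb h W x0, Finset.sdiff_disjoint, ?_⟩
  · intro u hu v hv
    have hv' := Finset.mem_sdiff.1 hv
    have e := hX u hu
    rw [Finset.mem_sdiff, Finset.mem_compl]
    refine ⟨?_, ?_⟩
    · intro hh
      apply hv'.2
      rw [← e]
      exact mem_Nb.2 hh
    · intro hh
      rw [← e, mem_Nb, h.inv] at hh
      exact Finset.mem_compl.1 hv'.1 hh
  · intro u hu v hv
    have e := hnb x0 hx0 u hu
    have hvW := Nb_out h W hW hx0 hv
    by_contra hcon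
    have h1 : m u v ∉ W := by
      intro hh
      have h2 : v ∈ Nb m W u := mem_Nb.2 hh
      rw [e, Finset.mem_sdiff] at h2
      exact h2.2 hv
    have h3 : m u v ∈ Nb m W u := by
      rw [e, Finset.mem_sdiff, Finset.mem_compl]
      exact ⟨h1, hcon⟩
    rw [mem_Nb, h.inv] at h3
    exact hvW h3
  · rw [Finset.card_sdiff_of_subset (hsubX x0 hx0), card_Nb h, hX2]
    omega
  · exact Finset.sdiff_union_of_subset (hsubX x0 hx0)

/-- A Steiner triple system of order nine is itself a 2-core on nine vertices. -/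
theorem core_univ {B : Finset (Finset V)} (hm : OpOf B m) (h9 : Fintype.card V = 9) :
    ∃ S, NineCore B S := by
  refine ⟨univ, by rw [Finset.card_univ, h9], ?_⟩
  intro v _
  have pick : ∀ A : Finset V, A.card ≤ 3 → ∃ x, x ∉ A := by
    intro A hA
    by_contra hcon
    push Not at hcon
    have := Finset.card_le_card (show (univ : Finset V) ⊆ A from fun x _ => hcon x)
    rw [Finset.card_univ, h9] at this
    omega
  obtain ⟨x, hx⟩ := pick {v} (by simp)
  rw [Finset.mem_singleton] at hx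
  obtain ⟨y, hy⟩ := pick {v, x, m v x} Finset.card_le_three
  have hyv : y ≠ v := by
    rintro rfl
    exact hy (by simp)
  refine two_le (hm.mem v x (Ne.symm hx)).2.2 (hm.mem v y (Ne.symm hyv)).2.2
    (Finset.subset_univ _) (Finset.subset_univ _) (by simp) (by simp) ?_
  intro e
  apply hy
  rw [e]
  simp

end Pool.Agent.Hhelper49.Core9
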